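import Pool.Agent.Lib.MP_e5ca60_gt.Defs

/-!
# MP_e5ca60_gt, module Area

Area classes.
-/

namespace MPe5ca60

open scoped ContDiff Real
open Set

/-- PROOF. `F - F'` is differentiable with `fderiv = 0`, hence constant
(`is_const_of_fderiv_eq_zero`); compare at `(0,0)`, `(1,0)`, `(0,1)`. -/
theorem area_unique {e : ℝ × ℝ → ℂ × ℂ} {a a' : ℝ × ℝ} (h : HasArea e a) (h' : HasArea e a') :
    a = a' := by
  obtain ⟨F, hF, hd, h1, h2⟩ := h
  obtain ⟨F', hF', hd', h1', h2'⟩ := h'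
  have hc : ∀ x y : ℝ × ℝ, (fun x => F x - F' x) x = (fun x => F x - F' x) y := by
    apply is_const_of_fderiv_eq_zero (𝕜 := ℝ) (hF.sub hF')
    intro x
    apply ContinuousLinearMap.ext
    intro v
    rw [fderiv_sub (hF x) (hF' x)]
    simp [hd, hd']
  have e1 := hc (0 + 1, 0) (0, 0)
  have e2 := hc (0, 0 + 1) (0, 0)
  have f1 := h1 (0, 0)
  have f1' := h1' (0, 0)
  have f2 := h2 (0, 0)
  have f2' := h2' (0, 0)
  simp only at e1 e2 f1 f1' f2 f2'
  ext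
  · linarith
  · linarith

private theorem area_int1 {F : ℝ × ℝ → ℝ} {a : ℝ} (h : ∀ x : ℝ × ℝ, F (x.1 + 1, x.2) = F x + a)
    (m : ℤ) : ∀ x : ℝ × ℝ, F (x.1 + m, x.2) = F x + a * m := by
  induction m using Int.induction_on with
  | zero => intro x; simp
  | succ i ih =>
    intro x
    have := h (x.1 + ((i : ℤ) : ℝ), x.2)
    simp only at this
    rw [ih x] at this
    push_cast at this ⊢
    rw [← add_assoc, this]
    ring
  | pred i ih =>
    intro x
    have := h (x.1 + ((-(i : ℤ) - 1 : ℤ) : ℝ), x.2)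
    simp only at this
    have e1 : x.1 + ((-(i : ℤ) - 1 : ℤ) : ℝ) + 1 = x.1 + ((-(i : ℤ) : ℤ) : ℝ) := by
      push_cast; ring
    rw [e1, ih x] at this
    push_cast at this ⊢
    linarith

private theorem area_int2 {F : ℝ × ℝ → ℝ} {a : ℝ} (h : ∀ x : ℝ × ℝ, F (x.1, x.2 + 1) = F x + a)
    (m : ℤ) : ∀ x : ℝ × ℝ, F (x.1, x.2 + m) = F x + a * m := by
  intro x
  have := area_int1 (F := fun y : ℝ × ℝ => F (y.2, y.1)) (a := a)
    (fun y => h (y.2, y.1)) m (x.2, x.1)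
  simpa using this

/-- PROOF. Take `F' = F ∘ h`; chain rule `fderiv (F ∘ h) x v = fderiv F (h x) (fderiv h x v)
= lam (e (h x)) (fderiv e (h x) (fderiv h x v)) = lam (e' x) (fderiv e' x v)`. Periods:
`F (y + (p, q)) = F y + p a.1 + q a.2` for integers `p, q` by induction. -/
theorem area_comp {e : ℝ × ℝ → ℂ × ℂ} {a : ℝ × ℝ} (ha : HasArea e a) {e' : ℝ × ℝ → ℂ × ℂ}
    {h : ℝ × ℝ → ℝ × ℝ} (hd : Differentiable ℝ h) (hh : ∀ x, e (h x) = e' x)
    (hv : ∀ x v, fderiv ℝ e (h x) (fderiv ℝ h x v) = fderiv ℝ e' x v) {m n : ℤ × ℤ}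
    (h1 : ∀ x : ℝ × ℝ, h (x.1 + 1, x.2) = h x + ((m.1 : ℝ), (m.2 : ℝ)))
    (h2 : ∀ x : ℝ × ℝ, h (x.1, x.2 + 1) = h x + ((n.1 : ℝ), (n.2 : ℝ))) :
    HasArea e' (a.1 * m.1 + a.2 * m.2, a.1 * n.1 + a.2 * n.2) := by
  obtain ⟨F, hF, hdF, hp1, hp2⟩ := ha
  have key : ∀ (y : ℝ × ℝ) (p : ℤ × ℤ), F (y + ((p.1 : ℝ), (p.2 : ℝ)))
      = F y + (a.1 * p.1 + a.2 * p.2) := by
    intro y p
    have e1 := area_int2 hp2 p.2 (y.1 + (p.1 : ℝ), y.2)
    have e2 := area_int1 hp1 p.1 y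
    simp only at e1
    have : y + ((p.1 : ℝ), (p.2 : ℝ)) = (y.1 + (p.1 : ℝ), y.2 + (p.2 : ℝ)) := rfl
    rw [this, e1, e2]
    ring
  refine ⟨F ∘ h, hF.comp hd, ?_, ?_, ?_⟩
  · intro x v
    rw [fderiv_comp x (hF (h x)) (hd x)]
    simp only [ContinuousLinearMap.comp_apply]
    rw [hdF, hh, hv]
  · intro x
    simp only [Function.comp_apply]
    rw [h1, key]
  · intro x
    simp only [Function.comp_apply]
    rw [h2, key]

private theorem area_loop_aux {e : ℝ × ℝ → ℂ × ℂ} (he : ContDiff ℝ ∞ e) {F : ℝ × ℝ → ℝ}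
    (hF : Differentiable ℝ F) (hd : ∀ x v, fderiv ℝ F x v = lam (e x) (fderiv ℝ e x v))
    (u : ℝ × ℝ) :
    ∫ s in (0 : ℝ)..1, lam (e (s • u)) (deriv (fun s : ℝ => e (s • u)) s) = F u - F 0 := by
  have hed : Differentiable ℝ e := he.differentiable (by simp)
  have hder : ∀ s : ℝ, HasDerivAt (fun s : ℝ => s • u) u s := by
    intro s
    simpa using (hasDerivAt_id s).smul_const u
  have h1 : ∀ s : ℝ, deriv (fun s : ℝ => e (s • u)) s = fderiv ℝ e (s • u) u := by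
    intro s
    exact ((hed (s • u)).hasFDerivAt.comp_hasDerivAt s (hder s)).deriv
  have h2 : ∀ s : ℝ, HasDerivAt (fun s : ℝ => F (s • u))
      (lam (e (s • u)) (deriv (fun s : ℝ => e (s • u)) s)) s := by
    intro s
    rw [h1, ← hd]
    exact (hF (s • u)).hasFDerivAt.comp_hasDerivAt s (hder s)
  have hcd : Continuous (fun s : ℝ => deriv (fun s : ℝ => e (s • u)) s) := by
    simp_rw [h1]
    have := he.continuous_fderiv (by simp)
    fun_prop
  have hce : Continuous (fun s : ℝ => e (s • u)) := by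
    have := he.continuous
    fun_prop
  rw [intervalIntegral.integral_eq_sub_of_hasDerivAt (fun s _ => h2 s)]
  · simp
  · apply Continuous.intervalIntegrable
    unfold lam om
    fun_prop

/-- PROOF. Fundamental theorem of calculus for `s ↦ F (s, 0)`, whose derivative is
`fderiv F (s,0) (1,0) = lam (e (s,0)) (fderiv e (s,0) (1,0))` and
`deriv (fun s => e (s,0)) s = fderiv e (s,0) (1,0)`; the integrand is continuous.
`F (1,0) - F (0,0) = a.1`. -/
theorem area_loop1 {e : ℝ × ℝ → ℂ × ℂ} (he : ContDiff ℝ ∞ e) {a : ℝ × ℝ} (ha : HasArea e a) :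
    ∫ s in (0 : ℝ)..1, lam (e (s, 0)) (deriv (fun s => e (s, 0)) s) = a.1 := by
  obtain ⟨F, hF, hd, h1, h2⟩ := ha
  have := area_loop_aux he hF hd (1, 0)
  simp only [Prod.smul_mk, smul_eq_mul, mul_one, mul_zero] at this
  rw [this]
  have e1 := h1 (0, 0)
  simp only [zero_add] at e1
  rw [e1]
  have : (0 : ℝ × ℝ) = (0, 0) := rfl
  rw [this]
  ring

theorem area_loop2 {e : ℝ × ℝ → ℂ × ℂ} (he : ContDiff ℝ ∞ e) {a : ℝ × ℝ} (ha : HasArea e a) :
    ∫ s in (0 : ℝ)..1, lam (e (0, s)) (deriv (fun s => e (0, s)) s) = a.2 := by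
  obtain ⟨F, hF, hd, h1, h2⟩ := ha
  have := area_loop_aux he hF hd (0, 1)
  simp only [Prod.smul_mk, smul_eq_mul, mul_one, mul_zero] at this
  rw [this]
  have e1 := h2 (0, 0)
  simp only [zero_add] at e1
  rw [e1]
  have : (0 : ℝ × ℝ) = (0, 0) := rfl
  rw [this]
  ring

end MPe5ca60
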