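import Pool.Agent.Lib.MP_e5ca60_gt.Defs

/-!
# MP_e5ca60_gt, module Curve

A closed curve enclosing area 1 in the rectangle `(1, 2+κ) × (0, 1)`.
-/

namespace MPe5ca60

open scoped ContDiff Real
open Set

namespace Curve

/-- a smooth increasing odd function with values in `(-1, 1)` -/
noncomputable def sm (δ y : ℝ) : ℝ := y / Real.sqrt (y ^ 2 + δ ^ 2)

theorem rad_pos {δ : ℝ} (hδ : 0 < δ) (y : ℝ) : 0 < y ^ 2 + δ ^ 2 := by positivity

theorem sm_contDiff {δ : ℝ} (hδ : 0 < δ) : ContDiff ℝ ∞ (sm δ) := by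
  unfold sm
  refine contDiff_id.div (ContDiff.sqrt (by fun_prop) fun y => (rad_pos hδ y).ne') fun y => ?_
  exact (Real.sqrt_pos.mpr (rad_pos hδ y)).ne'

theorem sm_hasDerivAt {δ : ℝ} (hδ : 0 < δ) (y : ℝ) :
    HasDerivAt (sm δ) (δ ^ 2 / ((y ^ 2 + δ ^ 2) * Real.sqrt (y ^ 2 + δ ^ 2))) y := by
  have hp := rad_pos hδ y
  have hs := Real.sqrt_pos.mpr hp
  have h1 : HasDerivAt (fun y : ℝ => y ^ 2 + δ ^ 2) (2 * y) y := by
    simpa using ((hasDerivAt_id y).pow 2).add_const (δ ^ 2)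
  have h2 := h1.sqrt hp.ne'
  have h3 := (hasDerivAt_id y).div h2 hs.ne'
  refine h3.congr_deriv ?_
  have h4 : Real.sqrt (y ^ 2 + δ ^ 2) ^ 2 = y ^ 2 + δ ^ 2 := Real.sq_sqrt hp.le
  simp only [id]
  rw [h4]
  field_simp
  rw [h4]
  ring

theorem sm_deriv_pos {δ : ℝ} (hδ : 0 < δ) (y : ℝ) :
    0 < δ ^ 2 / ((y ^ 2 + δ ^ 2) * Real.sqrt (y ^ 2 + δ ^ 2)) := by
  have hp := rad_pos hδ y
  have hs := Real.sqrt_pos.mpr hp
  positivity

theorem sm_strictMono {δ : ℝ} (hδ : 0 < δ) : StrictMono (sm δ) :=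
  strictMono_of_deriv_pos fun y => by
    rw [(sm_hasDerivAt hδ y).deriv]; exact sm_deriv_pos hδ y

theorem abs_sm_lt {δ : ℝ} (hδ : 0 < δ) (y : ℝ) : |sm δ y| < 1 := by
  have hp := rad_pos hδ y
  have hs := Real.sqrt_pos.mpr hp
  unfold sm
  rw [abs_div, abs_of_pos hs, div_lt_one hs]
  apply Real.lt_sqrt_of_sq_lt
  rw [sq_abs]
  have : 0 < δ ^ 2 := by positivity
  linarith

theorem mul_sm_ge {δ : ℝ} (hδ : 0 < δ) (y : ℝ) : |y| - δ ≤ y * sm δ y := by
  have hp := rad_pos hδ y
  have hs := Real.sqrt_pos.mpr hp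
  have h1 : Real.sqrt (y ^ 2 + δ ^ 2) ≤ |y| + δ := by
    rw [Real.sqrt_le_left (by positivity)]
    nlinarith [sq_abs y, abs_nonneg y]
  unfold sm
  rw [mul_div_assoc', le_div_iff₀ hs]
  rcases le_or_gt (|y| - δ) 0 with h | h
  · nlinarith [mul_self_nonneg y]
  · calc (|y| - δ) * Real.sqrt (y ^ 2 + δ ^ 2) ≤ (|y| - δ) * (|y| + δ) :=
        mul_le_mul_of_nonneg_left h1 h.le
      _ = |y| ^ 2 - δ ^ 2 := by ring
      _ ≤ y * y := by rw [sq_abs]; nlinarith [sq_nonneg δ]

theorem int_sin (a b : ℝ) : ∫ x in a..b, Real.sin (2 * π * x) =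
    (Real.cos (2 * π * a) - Real.cos (2 * π * b)) / (2 * π) := by
  have hπ := Real.pi_pos
  have h : ∀ x ∈ Set.uIcc a b, HasDerivAt (fun x => -Real.cos (2 * π * x) / (2 * π))
      (Real.sin (2 * π * x)) x := by
    intro x _
    have h1 : HasDerivAt (fun x : ℝ => 2 * π * x) (2 * π) x := by
      simpa using (hasDerivAt_id x).const_mul (2 * π)
    refine (h1.cos.neg.div_const (2 * π)).congr_deriv ?_
    field_simp
  rw [intervalIntegral.integral_eq_sub_of_hasDerivAt h
    ((by fun_prop : Continuous fun x : ℝ => Real.sin (2 * π * x)).intervalIntegrable _ _)]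
  ring

theorem int_abs_sin : 2 / π ≤ ∫ x in (0 : ℝ)..1, |Real.sin (2 * π * x)| := by
  have hπ := Real.pi_pos
  have hc : Continuous fun x : ℝ => |Real.sin (2 * π * x)| := by fun_prop
  have hc' : Continuous fun x : ℝ => Real.sin (2 * π * x) := by fun_prop
  rw [← intervalIntegral.integral_add_adjacent_intervals
    (hc.intervalIntegrable 0 (1 / 2)) (hc.intervalIntegrable (1 / 2) 1)]
  have h1 : ∫ x in (0 : ℝ)..(1 / 2), Real.sin (2 * π * x) ≤
      ∫ x in (0 : ℝ)..(1 / 2), |Real.sin (2 * π * x)| :=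
    intervalIntegral.integral_mono (by norm_num) (hc'.intervalIntegrable _ _)
      (hc.intervalIntegrable _ _) fun x => le_abs_self _
  have h2 : ∫ x in (1 / 2 : ℝ)..1, -Real.sin (2 * π * x) ≤
      ∫ x in (1 / 2 : ℝ)..1, |Real.sin (2 * π * x)| :=
    intervalIntegral.integral_mono (by norm_num) (hc'.neg.intervalIntegrable _ _)
      (hc.intervalIntegrable _ _) fun x => neg_le_abs _
  rw [int_sin] at h1
  rw [intervalIntegral.integral_neg, int_sin] at h2
  have e1 : Real.cos (2 * π * (1 / 2)) = -1 := by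
    rw [show 2 * π * (1 / 2) = π by ring]; exact Real.cos_pi
  have e2 : Real.cos (2 * π * 1) = 1 := by rw [mul_one]; exact Real.cos_two_pi
  have e3 : Real.cos (2 * π * 0) = 1 := by simp
  rw [e1, e3] at h1
  rw [e1, e2] at h2
  have e4 : (1 - -1) / (2 * π) = 1 / π := by field_simp; norm_num
  have e5 : -((-1 - 1) / (2 * π)) = 1 / π := by field_simp; norm_num
  rw [e4] at h1
  rw [e5] at h2
  have e6 : 2 / π = 1 / π + 1 / π := by ring
  linarith

/-- the integral of `s F(s)` along the circle -/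
noncomputable def II (δ : ℝ) : ℝ :=
  ∫ x in (0 : ℝ)..1, Real.sin (2 * π * x) * sm δ (Real.sin (2 * π * x))

theorem II_ge {δ : ℝ} (hδ : 0 < δ) : 2 / π - δ ≤ II δ := by
  have hs := (sm_contDiff hδ).continuous
  have h1 : ∫ x in (0 : ℝ)..1, (|Real.sin (2 * π * x)| - δ) ≤ II δ := by
    refine intervalIntegral.integral_mono (by norm_num) ?_ ?_ fun x => mul_sm_ge hδ _
    · exact (by fun_prop : Continuous fun x : ℝ => |Real.sin (2 * π * x)| - δ).intervalIntegrable _ _
    · exact (by fun_prop : Continuous fun x : ℝ =>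
        Real.sin (2 * π * x) * sm δ (Real.sin (2 * π * x))).intervalIntegrable _ _
  rw [intervalIntegral.integral_sub
    ((by fun_prop : Continuous fun x : ℝ => |Real.sin (2 * π * x)|).intervalIntegrable _ _)
    (intervalIntegrable_const)] at h1
  have h2 := int_abs_sin
  simp only [intervalIntegral.integral_const, sub_zero, smul_eq_mul, one_mul] at h1
  linarith

end Curve

open Curve in
/-- A closed curve enclosing area 1 in the rectangle `(1, 2+κ) × (0, 1)`. -/
theorem exists_curve {κ : ℝ} (hκ : 0 < κ) : ∃ (v1 v2 al : ℝ → ℝ) (be : ℝ) (N : ℝ → ℝ),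
    ContDiff ℝ ∞ v1 ∧ ContDiff ℝ ∞ v2 ∧ Continuous al ∧
    (∀ x, HasDerivAt v1 (al x * Real.cos (2 * π * x)) x) ∧
    (∀ x, HasDerivAt v2 (be * Real.sin (2 * π * x)) x) ∧
    (∀ x, HasDerivAt N (v1 x * (be * Real.sin (2 * π * x))) x) ∧
    (∀ x, v1 (x + 1) = v1 x) ∧ (∀ x, v2 (x + 1) = v2 x) ∧ (∀ x, al (x + 1) = al x) ∧
    (∀ x, N (x + 1) = N x + 1) ∧ (∀ x, 0 < al x) ∧ 0 < be ∧
    (∀ x, 1 < v1 x) ∧ (∀ x, v1 x < 2 + κ) ∧ (∀ x, 0 < v2 x) ∧ (∀ x, v2 x < 1) ∧
    (∀ x y, v1 x = v1 y → v2 x = v2 y → ∃ n : ℤ, y = x + n) := by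
  have hπ := Real.pi_pos
  have hπ4 : π < 4 := Real.pi_lt_four
  obtain ⟨η, hη0, hη1, hη2⟩ : ∃ η : ℝ, 0 < η ∧ η ≤ 1 / 8 ∧ 2 * η * (1 + κ) ≤ κ := by
    rcases le_total κ 1 with h | h
    · exact ⟨κ / 8, by positivity, by linarith, by nlinarith⟩
    · exact ⟨1 / 8, by norm_num, le_rfl, by linarith⟩
  set δ : ℝ := η / 2 with hδ
  have hδ0 : 0 < δ := by positivity
  set ρ : ℝ := (1 - η) / 2 with hρ
  have hρ0 : 0 < ρ := by rw [hρ]; linarith
  have hρ1 : ρ < 1 / 2 := by rw [hρ]; linarith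
  set I : ℝ := II δ with hI
  have hI1 : 2 / π - δ ≤ I := II_ge hδ0
  have hπI : 2 * (1 - η) ≤ π * I := by
    have h1 : π * (2 / π - δ) ≤ π * I := mul_le_mul_of_nonneg_left hI1 hπ.le
    have h2 : π * (2 / π - δ) = 2 - π * δ := by field_simp
    rw [h2, hδ] at h1
    nlinarith
  have hI0 : 0 < I := by
    by_contra hcon
    push Not at hcon
    nlinarith
  set be : ℝ := 2 * π * ρ with hbe
  have hbe0 : 0 < be := by positivity
  set w : ℝ := 1 / (be * I) with hw
  have hw0 : 0 < w := by positivity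
  have hw1 : w ≤ (1 + κ) / 2 := by
    rw [hw, div_le_iff₀ (by positivity), hbe, hρ]
    have h1 : (1 - 2 * η) ≤ (1 - η) * (1 - η) := by nlinarith
    have h2 : (1 - η) * (2 * (1 - η)) ≤ (1 - η) * (π * I) :=
      mul_le_mul_of_nonneg_left hπI (by linarith)
    have h3 : (1 + κ) / 2 * (2 * π * ((1 - η) / 2) * I) =
        (1 + κ) / 2 * ((1 - η) * (π * I)) := by ring
    rw [h3]
    have h4 : (1 + κ) / 2 * (2 * (1 - 2 * η)) ≤ (1 + κ) / 2 * ((1 - η) * (π * I)) :=
      mul_le_mul_of_nonneg_left (by linarith) (by linarith)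
    nlinarith
  have smc : ContDiff ℝ ∞ (sm δ) := sm_contDiff hδ0
  have smcc : Continuous (sm δ) := smc.continuous
  have e1 : ∀ x : ℝ, 2 * π * (x + 1) = 2 * π * x + 2 * π := fun x => by ring
  have hlin : ∀ x : ℝ, HasDerivAt (fun x : ℝ => 2 * π * x) (2 * π) x := fun x => by
    simpa using (hasDerivAt_id x).const_mul (2 * π)
  set v1 : ℝ → ℝ := fun x => (3 + κ) / 2 + w * sm δ (Real.sin (2 * π * x)) with hv1
  set v2 : ℝ → ℝ := fun x => 1 / 2 - ρ * Real.cos (2 * π * x) with hv2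
  set al : ℝ → ℝ := fun x => w * (δ ^ 2 / ((Real.sin (2 * π * x) ^ 2 + δ ^ 2) *
    Real.sqrt (Real.sin (2 * π * x) ^ 2 + δ ^ 2))) * (2 * π) with hal
  set f : ℝ → ℝ := fun x => v1 x * (be * Real.sin (2 * π * x)) with hf
  have sv1 : ContDiff ℝ ∞ v1 := by
    have : ContDiff ℝ ∞ (fun x => sm δ (Real.sin (2 * π * x))) := smc.comp (by fun_prop)
    exact contDiff_const.add (contDiff_const.mul this)
  have cf : Continuous f := by
    have := sv1.continuous
    simp only [hf]
    fun_prop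
  have pv1 : ∀ x, v1 (x + 1) = v1 x := fun x => by
    simp only [hv1, e1, Real.sin_add_two_pi]
  have pf : Function.Periodic f 1 := fun x => by
    simp only [hf, pv1, e1, Real.sin_add_two_pi]
  have tot : ∫ x in (0 : ℝ)..1, f x = 1 := by
    have h1 : ∀ x, f x = ((3 + κ) / 2 * be) * Real.sin (2 * π * x) +
        (w * be) * (Real.sin (2 * π * x) * sm δ (Real.sin (2 * π * x))) := fun x => by
      simp only [hf, hv1]; ring
    have h2 : ∫ x in (0 : ℝ)..1, f x = ∫ x in (0 : ℝ)..1,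
        (((3 + κ) / 2 * be) * Real.sin (2 * π * x) +
        (w * be) * (Real.sin (2 * π * x) * sm δ (Real.sin (2 * π * x)))) :=
      intervalIntegral.integral_congr fun x _ => h1 x
    rw [h2, intervalIntegral.integral_add, intervalIntegral.integral_const_mul,
      intervalIntegral.integral_const_mul, int_sin]
    · have h3 : (∫ x in (0 : ℝ)..1, Real.sin (2 * π * x) * sm δ (Real.sin (2 * π * x))) = I := rfl
      rw [h3, hw]
      simp only [mul_one, mul_zero, Real.cos_two_pi, Real.cos_zero, sub_self, zero_div, zero_add]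
      field_simp
    · exact (by fun_prop : Continuous fun x : ℝ =>
        ((3 + κ) / 2 * be) * Real.sin (2 * π * x)).intervalIntegrable _ _
    · exact (by fun_prop : Continuous fun x : ℝ =>
        (w * be) * (Real.sin (2 * π * x) * sm δ (Real.sin (2 * π * x)))).intervalIntegrable _ _
  refine ⟨v1, v2, al, be, fun x => ∫ s in (0 : ℝ)..x, f s, sv1, by fun_prop, ?_, ?_, ?_, ?_, pv1,
    ?_, ?_, ?_, ?_, hbe0, ?_, ?_, ?_, ?_, ?_⟩
  · have h0 : ∀ x : ℝ, (Real.sin (2 * π * x) ^ 2 + δ ^ 2) *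
        Real.sqrt (Real.sin (2 * π * x) ^ 2 + δ ^ 2) ≠ 0 := fun x =>
      (mul_pos (rad_pos hδ0 _) (Real.sqrt_pos.mpr (rad_pos hδ0 _))).ne'
    simp only [hal]
    exact (continuous_const.mul (continuous_const.div (by fun_prop) h0)).mul continuous_const
  · intro x
    have h1 := (((sm_hasDerivAt hδ0 (Real.sin (2 * π * x))).comp x (hlin x).sin).const_mul w).const_add
      ((3 + κ) / 2)
    refine h1.congr_deriv ?_
    simp only [hal]
    ring
  · intro x
    have h1 := ((hlin x).cos.const_mul ρ).const_sub (1 / 2)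
    refine h1.congr_deriv ?_
    rw [hbe]
    ring
  · intro x
    exact intervalIntegral.integral_hasDerivAt_right (cf.intervalIntegrable _ _)
      (cf.stronglyMeasurableAtFilter _ _) cf.continuousAt
  · intro x
    simp only [hv2, e1, Real.cos_add_two_pi]
  · intro x
    simp only [hal, e1, Real.sin_add_two_pi]
  · intro x
    have h1 := intervalIntegral.integral_add_adjacent_intervals
      (cf.intervalIntegrable (μ := MeasureTheory.volume) 0 x) (cf.intervalIntegrable x (x + 1))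
    have h2 : ∫ s in x..(x + 1), f s = 1 := by
      rw [pf.intervalIntegral_add_eq x 0, zero_add, tot]
    simp only
    rw [← h1, h2]
  · intro x
    have := sm_deriv_pos hδ0 (Real.sin (2 * π * x))
    simp only [hal]
    positivity
  · intro x
    have h1 := (abs_lt.mp (abs_sm_lt hδ0 (Real.sin (2 * π * x)))).1
    simp only [hv1]
    nlinarith
  · intro x
    have h1 := (abs_lt.mp (abs_sm_lt hδ0 (Real.sin (2 * π * x)))).2
    simp only [hv1]
    nlinarith
  · intro x
    have h1 := Real.cos_le_one (2 * π * x)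
    simp only [hv2]
    nlinarith
  · intro x
    have h1 := Real.neg_one_le_cos (2 * π * x)
    simp only [hv2]
    nlinarith
  · intro x y hxy1 hxy2
    have h1 : Real.sin (2 * π * x) = Real.sin (2 * π * y) := by
      apply (sm_strictMono hδ0).injective
      simp only [hv1] at hxy1
      have := mul_left_cancel₀ hw0.ne' (add_left_cancel hxy1)
      exact this
    have h2 : Real.cos (2 * π * x) = Real.cos (2 * π * y) := by
      simp only [hv2] at hxy2
      have : ρ * Real.cos (2 * π * x) = ρ * Real.cos (2 * π * y) := by linarith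
      exact mul_left_cancel₀ hρ0.ne' this
    have h3 : Complex.exp (((2 * π * y : ℝ) : ℂ) * Complex.I) =
        Complex.exp (((2 * π * x : ℝ) : ℂ) * Complex.I) := by
      rw [Complex.exp_mul_I, Complex.exp_mul_I, ← Complex.ofReal_cos, ← Complex.ofReal_sin,
        ← Complex.ofReal_cos, ← Complex.ofReal_sin, h1, h2]
    obtain ⟨n, hn⟩ := Complex.exp_eq_exp_iff_exists_int.mp h3
    refine ⟨n, ?_⟩
    have h4 := congrArg Complex.im hn
    simp at h4
    have h5 : 2 * π * y = 2 * π * (x + n) := by rw [h4]; ring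
    exact mul_left_cancel₀ (by positivity) h5

end MPe5ca60
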