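import Mathlib

/-!
# MP_e5ca60_gt: definitions

Lagrangian tori in `ℂ × ℂ`, integrality, Hamiltonian isotopies, and the two soft
invariants (area class and Maslov class) of a parametrised torus.
-/

namespace MPe5ca60

open scoped ContDiff Real

/-- The standard symplectic form `dx₁ ∧ dy₁ + dx₂ ∧ dy₂` on `ℂ²`. -/
def om (v w : ℂ × ℂ) : ℝ :=
  (v.1.re * w.1.im - v.1.im * w.1.re) + (v.2.re * w.2.im - v.2.im * w.2.re)

/-- The Liouville form `λ_z(v) = ω(z, v) / 2`, i.e. `½ Σ (x_j dy_j - y_j dx_j)`; `dλ = ω`. -/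
noncomputable def lam (z v : ℂ × ℂ) : ℝ := om z v / 2

/-- The open polydisk `P(a, b) = {π|z₁|² < a, π|z₂|² < b}`. -/
def polydisk (a b : ℝ) : Set (ℂ × ℂ) := {z | π * ‖z.1‖ ^ 2 < a ∧ π * ‖z.2‖ ^ 2 < b}

/-- The product torus `L_{k,l} = {π|z₁|² = k, π|z₂|² = l}`. -/
def prodTorus (k l : ℝ) : Set (ℂ × ℂ) := {z | π * ‖z.1‖ ^ 2 = k ∧ π * ‖z.2‖ ^ 2 = l}

/-- `e : ℝ² → ℂ²` is `ℤ²`-periodic and induces a smooth Lagrangian embedding of the torus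
`ℝ²/ℤ²`. -/
structure IsLagTorusParam (e : ℝ × ℝ → ℂ × ℂ) : Prop where
  smooth : ContDiff ℝ ∞ e
  per1 : ∀ x : ℝ × ℝ, e (x.1 + 1, x.2) = e x
  per2 : ∀ x : ℝ × ℝ, e (x.1, x.2 + 1) = e x
  inj : ∀ x y : ℝ × ℝ, e x = e y → ∃ m n : ℤ, y = (x.1 + m, x.2 + n)
  imm : ∀ x, Function.Injective (fderiv ℝ e x)
  lag : ∀ x v w, om (fderiv ℝ e x v) (fderiv ℝ e x w) = 0

/-- Embedded Lagrangian tori in `ℂ²`. -/
def IsLagTorus (L : Set (ℂ × ℂ)) : Prop := ∃ e, IsLagTorusParam e ∧ Set.range e = L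

/-- `L` is integral: `∫_γ λ` is an integer for every (`C¹`) loop `γ` in `L`. -/
def IsIntegral (L : Set (ℂ × ℂ)) : Prop :=
  ∀ γ : ℝ → ℂ × ℂ, ContDiff ℝ 1 γ → (∀ t, γ (t + 1) = γ t) → (∀ t, γ t ∈ L) →
    ∃ n : ℤ, ∫ t in (0 : ℝ)..1, lam (γ t) (deriv γ t) = n

/-- `φ` is the flow (for times `0 ≤ t ≤ 1`) of a smooth time-dependent Hamiltonian with compact
support in `W`. -/
structure IsHamFlow (W : Set (ℂ × ℂ)) (φ : ℝ → ℂ × ℂ → ℂ × ℂ) : Prop where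
  smooth : ContDiff ℝ ∞ (fun p : ℝ × (ℂ × ℂ) => φ p.1 p.2)
  zero : ∀ z, φ 0 z = z
  ham : ∃ H : ℝ → ℂ × ℂ → ℝ, ContDiff ℝ ∞ (fun p : ℝ × (ℂ × ℂ) => H p.1 p.2) ∧
    (∃ K : Set (ℂ × ℂ), IsCompact K ∧ K ⊆ W ∧ ∀ t z, z ∉ K → H t z = 0) ∧
    ∀ t ∈ Set.Icc (0 : ℝ) 1, ∀ z w : ℂ × ℂ,
      om (deriv (fun τ => φ τ z) t) w = fderiv ℝ (H t) (φ t z) w

/-- `L` and `L'` are Hamiltonian isotopic in `W`: one is the image of the other under the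
time-one map of a Hamiltonian flow with compact support in `W`. -/
def HamIsotopic (W : Set (ℂ × ℂ)) (L L' : Set (ℂ × ℂ)) : Prop :=
  ∃ φ, IsHamFlow W φ ∧ (φ 1 '' L = L' ∨ φ 1 '' L' = L)

/-! ### Auxiliary notions used in the proof -/

/-- Complex determinant of two vectors of `ℂ²`. -/
def dt (v w : ℂ × ℂ) : ℂ := v.1 * w.2 - v.2 * w.1

/-- Square of the complex determinant of the coordinate frame of a parametrised torus. -/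
noncomputable def Dsq (e : ℝ × ℝ → ℂ × ℂ) (x : ℝ × ℝ) : ℂ :=
  dt (fderiv ℝ e x (1, 0)) (fderiv ℝ e x (0, 1)) ^ 2

/-- `f : ℝ² → ℂ ∖ {0}` is periodic with winding numbers `w.1`, `w.2` along the two coordinate
loops: it has a continuous logarithm whose periods are `2πi w.1` and `2πi w.2`. -/
def HasIndex (f : ℝ × ℝ → ℂ) (w : ℤ × ℤ) : Prop :=
  ∃ l : ℝ × ℝ → ℂ, Continuous l ∧ (∀ x, Complex.exp (l x) = f x) ∧
    (∀ x : ℝ × ℝ, l (x.1 + 1, x.2) = l x + 2 * π * Complex.I * w.1) ∧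
    (∀ x : ℝ × ℝ, l (x.1, x.2 + 1) = l x + 2 * π * Complex.I * w.2)

/-- The pulled back Liouville form has a primitive on `ℝ²` with periods `a.1`, `a.2`. -/
def HasArea (e : ℝ × ℝ → ℂ × ℂ) (a : ℝ × ℝ) : Prop :=
  ∃ F : ℝ × ℝ → ℝ, Differentiable ℝ F ∧
    (∀ x v, fderiv ℝ F x v = lam (e x) (fderiv ℝ e x v)) ∧
    (∀ x : ℝ × ℝ, F (x.1 + 1, x.2) = F x + a.1) ∧ (∀ x : ℝ × ℝ, F (x.1, x.2 + 1) = F x + a.2)

/-- The point of `ℂ` with action `R = π|z|²` and angle `Y ∈ ℝ/ℤ`. -/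
noncomputable def pol (R Y : ℝ) : ℂ :=
  ((Real.sqrt (R / π) : ℝ) : ℂ) * Complex.exp (2 * π * Y * Complex.I)

end MPe5ca60
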