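import Pool.Agent.Lib.MP_e5ca60_gt.Defs

/-!
# MP_e5ca60_gt, module LiftD

The lift is differentiable.
-/

namespace MPe5ca60

open scoped ContDiff Real
open Set

/-- PROOF. Let `y = h x`, `D = fderiv ℝ e y : ℝ × ℝ →L[ℝ] ℂ × ℂ`, injective by `he.imm`. Finite
dimension: there is a continuous linear `P : ℂ × ℂ →L[ℝ] ℝ × ℝ` with `P ∘ D = id`
(`LinearMap.exists_leftInverse_of_injective`, `LinearMap.toContinuousLinearMap`). `k = P ∘ e` is
`C^∞` with strict derivative `id` at `y`, so `HasStrictFDerivAt.toOpenPartialHomeomorph` /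
`HasStrictFDerivAt.localInverse` gives `g` with derivative `id` at `k y` and `g (k z) = z` for `z`
near `y` (`HasStrictFDerivAt.eventually_left_inverse`, `HasStrictFDerivAt.to_localInverse`).
As `h` is continuous at `x`, `h x' = g (k (h x')) = g (P (e' x'))` for `x'` near `x`. So `h` is
differentiable at `x` (chain rule + congruence), and differentiating `e ∘ h = e'` gives the
formula. -/
theorem lift_diff {e : ℝ × ℝ → ℂ × ℂ} (he : IsLagTorusParam e) {e' : ℝ × ℝ → ℂ × ℂ}
    {h : ℝ × ℝ → ℝ × ℝ} (hc : Continuous h) (hh : ∀ x, e (h x) = e' x) {x : ℝ × ℝ}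
    (hd : DifferentiableAt ℝ e' x) :
    DifferentiableAt ℝ h x ∧ ∀ v, fderiv ℝ e (h x) (fderiv ℝ h x v) = fderiv ℝ e' x v := by
  set y := h x with hy
  have hk0 : LinearMap.ker (fderiv ℝ e y : ℝ × ℝ →ₗ[ℝ] ℂ × ℂ) = ⊥ :=
    LinearMap.ker_eq_bot.2 (he.imm y)
  obtain ⟨P0, hP0⟩ := LinearMap.exists_leftInverse_of_injective
    (fderiv ℝ e y : ℝ × ℝ →ₗ[ℝ] ℂ × ℂ) hk0
  have hPD : (LinearMap.toContinuousLinearMap P0) ∘L (fderiv ℝ e y) =
      ((ContinuousLinearEquiv.refl ℝ (ℝ × ℝ)) : ℝ × ℝ →L[ℝ] ℝ × ℝ) := by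
    refine ContinuousLinearMap.ext fun v => ?_
    exact LinearMap.congr_fun hP0 v
  have he1 : HasStrictFDerivAt e (fderiv ℝ e y) y :=
    (he.smooth.contDiffAt).hasStrictFDerivAt (by simp)
  have hk : HasStrictFDerivAt (fun z => LinearMap.toContinuousLinearMap P0 (e z))
      ((ContinuousLinearEquiv.refl ℝ (ℝ × ℝ)) : ℝ × ℝ →L[ℝ] ℝ × ℝ) y := by
    rw [← hPD]
    exact (LinearMap.toContinuousLinearMap P0).hasStrictFDerivAt.comp y he1
  have hleft := hk.eventually_left_inverse
  have hh' : h =ᶠ[nhds x] fun x' => hk.localInverse _ _ _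
      (LinearMap.toContinuousLinearMap P0 (e' x')) := by
    have h1 : Filter.Tendsto h (nhds x) (nhds y) := hc.continuousAt
    filter_upwards [h1.eventually hleft] with x' hx'
    rw [← hh x']
    exact hx'.symm
  have hdg : DifferentiableAt ℝ (hk.localInverse _ _ _)
      (LinearMap.toContinuousLinearMap P0 (e' x)) := by
    have := hk.to_localInverse.hasFDerivAt.differentiableAt
    rw [← hh x]
    exact this
  have hdh : DifferentiableAt ℝ h x := by
    refine DifferentiableAt.congr_of_eventuallyEq ?_ hh'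
    exact hdg.comp x ((LinearMap.toContinuousLinearMap P0).differentiableAt.comp x hd)
  refine ⟨hdh, fun v => ?_⟩
  have hcomp : e' = e ∘ h := by
    funext z
    exact (hh z).symm
  have hde : DifferentiableAt ℝ e (h x) := he1.hasFDerivAt.differentiableAt
  rw [hcomp, fderiv_comp x hde hdh]
  rfl

end MPe5ca60
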