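import Pool.Agent.Lib.MP_e5ca60_gt.Lift
import Pool.Agent.Lib.MP_e5ca60_gt.LiftD

/-!
# MP_e5ca60_gt, module Integral

Integrality (uses Lift, LiftD).
-/

namespace MPe5ca60

open scoped ContDiff Real
open Set

private theorem integral_shift {f : ℝ → ℝ} {a : ℝ} (hf : ∀ t, f (t + 1) = f t + a) (m : ℤ)
    (t : ℝ) : f (t + m) = f t + m * a := by
  have hper : Function.Periodic (fun t => f t - a * t) 1 := by
    intro t
    simp only
    rw [hf]
    ring
  have h := hper.int_mul m t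
  simp only [mul_one] at h
  linarith

private theorem integral_lam_cont {f g : ℝ → ℂ × ℂ} (hf : Continuous f) (hg : Continuous g) :
    Continuous fun t => lam (f t) (g t) := by
  unfold lam om
  fun_prop

/-- PROOF. Let `γ` be a `C¹` loop in `range e`, `e' x = γ x.1`. `exists_lift` gives `h` with
`e (h x) = γ x.1`; `g t = h (t, 0)` is continuous with `e (g t) = γ t`. By `lift_diff` `h` is
differentiable, so `g` has derivative `g' t = fderiv h (t,0) (1,0)` and
`fderiv e (g t) (g' t) = γ' t`. With the primitive `F` of `HasArea`, `(F ∘ g)' t =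
fderiv F (g t) (g' t) = lam (e (g t)) (fderiv e (g t) (g' t)) = lam (γ t) (γ' t)`, continuous. So
the integral is `F (g 1) - F (g 0)`. By `lift_period` (`T x = (x.1 + 1, x.2)`), `g 1 = g 0 + (m, n)`
with integers `m, n`, and `F (y + (m, n)) = F y + m a.1 + n a.2` (induction on integers). -/
theorem integral_of_area {e : ℝ × ℝ → ℂ × ℂ} (he : IsLagTorusParam e) {a : ℤ × ℤ}
    (ha : HasArea e ((a.1 : ℝ), (a.2 : ℝ))) : IsIntegral (range e) := by
  intro γ hγ hper hr
  have he' : Continuous fun x : ℝ × ℝ => γ x.1 := hγ.continuous.comp continuous_fst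
  obtain ⟨h, hc, hh⟩ := exists_lift he he' (fun x => hr x.1)
  obtain ⟨F, hF, hF1, hF2, hF3⟩ := ha
  have hγd : ∀ t, HasDerivAt γ (deriv γ t) t := fun t =>
    (hγ.differentiable (by norm_num) t).hasDerivAt
  have hed : ∀ x : ℝ × ℝ, HasFDerivAt (fun x : ℝ × ℝ => γ x.1)
      ((ContinuousLinearMap.toSpanSingleton ℝ (deriv γ x.1)).comp
        (ContinuousLinearMap.fst ℝ ℝ ℝ)) x := fun x =>
    HasFDerivAt.comp x (hγd x.1).hasFDerivAt hasFDerivAt_fst
  have hld := fun x : ℝ × ℝ => lift_diff he hc hh (hed x).differentiableAt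
  have hline : ∀ t : ℝ, HasDerivAt (fun s : ℝ => ((s, 0) : ℝ × ℝ)) (1, 0) t := fun t =>
    (hasDerivAt_id t).prodMk (hasDerivAt_const t 0)
  have hg : ∀ t : ℝ, HasDerivAt (fun s : ℝ => h (s, 0)) (fderiv ℝ h (t, 0) (1, 0)) t := fun t =>
    HasFDerivAt.comp_hasDerivAt (f := fun s : ℝ => ((s, 0) : ℝ × ℝ)) t
      (hld (t, 0)).1.hasFDerivAt (hline t)
  have hFg : ∀ t : ℝ, HasDerivAt (fun s : ℝ => F (h (s, 0))) (lam (γ t) (deriv γ t)) t := by
    intro t
    have h1 := HasFDerivAt.comp_hasDerivAt (f := fun s : ℝ => h (s, 0)) t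
      (hF (h (t, 0))).hasFDerivAt (hg t)
    refine h1.congr_deriv ?_
    rw [hF1, (hld (t, 0)).2, hh (t, 0), (hed (t, 0)).fderiv]
    simp
  have hcont : Continuous fun t => lam (γ t) (deriv γ t) :=
    integral_lam_cont hγ.continuous (hγ.continuous_deriv (by norm_num))
  have hint : ∫ t in (0 : ℝ)..1, lam (γ t) (deriv γ t) = F (h (1, 0)) - F (h (0, 0)) :=
    intervalIntegral.integral_eq_sub_of_hasDerivAt (fun t _ => hFg t)
      (hcont.intervalIntegrable 0 1)
  obtain ⟨m, hm⟩ := lift_period he (T := fun x => (x.1 + 1, x.2)) hc (by fun_prop)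
    (fun x => by rw [hh, hh]; exact hper x.1)
  have hm0 := hm (0, 0)
  simp only [zero_add] at hm0
  have hshift : ∀ y : ℝ × ℝ, F (y + ((m.1 : ℝ), (m.2 : ℝ))) = F y + m.1 * a.1 + m.2 * a.2 := by
    rintro ⟨y1, y2⟩
    have h1 := integral_shift (f := fun t => F (t, y2 + m.2)) (fun t => hF2 (t, y2 + m.2)) m.1 y1
    have h2 := integral_shift (f := fun t => F (y1, t)) (fun t => hF3 (y1, t)) m.2 y2
    simp only at h1 h2
    rw [Prod.mk_add_mk, h1, h2]
    ring
  refine ⟨m.1 * a.1 + m.2 * a.2, ?_⟩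
  rw [hint, hm0, hshift]
  push_cast
  ring

end MPe5ca60
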