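import Pool.Agent.Lib.MP_e5ca60_gt.Defs

/-!
# MP_e5ca60_gt, module Polar

Action-angle coordinates.
-/

namespace MPe5ca60

open scoped ContDiff Real
open Set

private theorem angle_eq (Y : ℝ) : (2 * π * Y * Complex.I : ℂ) = ((2 * π * Y : ℝ) : ℂ) * Complex.I := by
  push_cast; ring

private theorem norm_pol {R : ℝ} (Y : ℝ) : ‖pol R Y‖ = Real.sqrt (R / π) := by
  unfold pol
  rw [norm_mul, angle_eq, Complex.norm_exp_ofReal_mul_I, mul_one, Complex.norm_real,
    Real.norm_of_nonneg (Real.sqrt_nonneg _)]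

theorem pol_norm {R : ℝ} (hR : 0 ≤ R) (Y : ℝ) : π * ‖pol R Y‖ ^ 2 = R := by
  rw [norm_pol, Real.sq_sqrt (div_nonneg hR Real.pi_pos.le)]
  field_simp

theorem pol_add_int (R Y : ℝ) (n : ℤ) : pol R (Y + n) = pol R Y := by
  unfold pol
  congr 1
  rw [Complex.exp_eq_exp_iff_exists_int]
  exact ⟨n, by push_cast; ring⟩

theorem pol_inj {R R' Y Y' : ℝ} (hR : 0 < R) (hR' : 0 < R') (h : pol R Y = pol R' Y') :
    R = R' ∧ ∃ n : ℤ, Y' = Y + n := by
  have h1 : R = R' := by rw [← pol_norm hR.le Y, h, pol_norm hR'.le]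
  subst h1
  refine ⟨rfl, ?_⟩
  unfold pol at h
  have hs : ((Real.sqrt (R / π) : ℝ) : ℂ) ≠ 0 := by
    exact_mod_cast (Real.sqrt_pos.2 (div_pos hR Real.pi_pos)).ne'
  have h2 := mul_left_cancel₀ hs h
  rw [Complex.exp_eq_exp_iff_exists_int] at h2
  obtain ⟨n, hn⟩ := h2
  refine ⟨-n, ?_⟩
  have h3 : (2 * π * Complex.I : ℂ) ≠ 0 := Complex.two_pi_I_ne_zero
  have h4 : (2 * π * Complex.I : ℂ) * (Y : ℂ) = (2 * π * Complex.I : ℂ) * ((Y' : ℂ) + n) := by
    linear_combination hn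
  have h5 := mul_left_cancel₀ h3 h4
  have h6 : Y = Y' + n := by exact_mod_cast h5
  push_cast
  linarith

theorem exists_pol {z : ℂ} {R : ℝ} (hR : 0 < R) (h : π * ‖z‖ ^ 2 = R) : ∃ Y, z = pol R Y := by
  refine ⟨Complex.arg z / (2 * π), ?_⟩
  unfold pol
  have h1 : Real.sqrt (R / π) = ‖z‖ := by
    rw [← h, mul_comm, mul_div_assoc, div_self Real.pi_pos.ne', mul_one,
      Real.sqrt_sq (norm_nonneg z)]
  have h2 : (2 * π * ((Complex.arg z / (2 * π) : ℝ) : ℂ) * Complex.I) =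
      (Complex.arg z : ℂ) * Complex.I := by
    push_cast
    have : (π : ℂ) ≠ 0 := by exact_mod_cast Real.pi_pos.ne'
    field_simp
  rw [h1, h2, Complex.norm_mul_exp_arg_mul_I]

theorem pol_contDiff {R Y : ℝ × ℝ → ℝ} (hR : ContDiff ℝ ∞ R) (hY : ContDiff ℝ ∞ Y)
    (hp : ∀ x, 0 < R x) : ContDiff ℝ ∞ (fun x => pol (R x) (Y x)) := by
  unfold pol
  refine ContDiff.mul ?_ ?_
  · exact Complex.ofRealCLM.contDiff.comp
      ((hR.div_const π).sqrt fun x => (div_pos (hp x) Real.pi_pos).ne')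
  · refine ContDiff.cexp ?_
    exact (contDiff_const.mul (Complex.ofRealCLM.contDiff.comp hY)).mul contDiff_const

private theorem pol_alg {s p r : ℂ} (hs : s ≠ 0) (hp : p ≠ 0) (h : r = s ^ 2 * p) (D : ℂ) :
    1 / (2 * s) * (1 / p * D) = s * (D / (2 * r)) := by
  rw [h]
  field_simp

/-- PROOF. `pol R Y = sqrt (R/π) exp (2πiY)`; the derivative of `sqrt (R/π)` is
`sqrt (R/π) R' / (2 R)`. -/
theorem pol_fderiv {R Y : ℝ × ℝ → ℝ} {x v : ℝ × ℝ} (hR : DifferentiableAt ℝ R x)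
    (hY : DifferentiableAt ℝ Y x) (hp : 0 < R x) :
    fderiv ℝ (fun x => pol (R x) (Y x)) x v =
      pol (R x) (Y x) * ((fderiv ℝ R x v / (2 * R x) : ℝ) +
        2 * π * (fderiv ℝ Y x v : ℝ) * Complex.I) := by
  have hq : 0 < R x / π := div_pos hp Real.pi_pos
  have h1 : HasFDerivAt (fun y => R y / π) ((1 / π) • fderiv ℝ R x) x := by
    have := hR.hasFDerivAt.const_smul (1 / π)
    refine this.congr_of_eventuallyEq (Filter.Eventually.of_forall fun y => ?_)
    simp [div_eq_inv_mul]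
  have h2 := h1.sqrt hq.ne'
  have h3 := Complex.ofRealCLM.hasFDerivAt.comp x h2
  have h4 := Complex.ofRealCLM.hasFDerivAt.comp x hY.hasFDerivAt
  have h5 := ((h4.const_mul (2 * π : ℂ)).mul_const Complex.I).cexp
  have h6 := (h3.mul h5).fderiv
  have h7 : (fun x => pol (R x) (Y x)) = (⇑Complex.ofRealCLM ∘ fun y => √(R y / π)) *
      (fun x => Complex.exp (2 * π * (⇑Complex.ofRealCLM ∘ Y) x * Complex.I)) := by
    funext y
    simp [pol]
  rw [h7]
  erw [h6]
  simp only [pol, Complex.ofRealCLM_apply, Function.comp_apply]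
  have hs : ((√(R x / π) : ℝ) : ℂ) ≠ 0 := by exact_mod_cast (Real.sqrt_pos.2 hq).ne'
  have hsq : ((√(R x / π) : ℝ) : ℂ) ^ 2 = (R x : ℂ) / π := by
    have := Real.sq_sqrt hq.le
    exact_mod_cast congrArg (fun t : ℝ => (t : ℂ)) this
  have hpi : (π : ℂ) ≠ 0 := by exact_mod_cast Real.pi_pos.ne'
  have key : (1 / (2 * ((√(R x / π) : ℝ) : ℂ))) * ((1 / π) * ((fderiv ℝ R x v : ℝ) : ℂ)) =
      ((√(R x / π) : ℝ) : ℂ) * (((fderiv ℝ R x v : ℝ) : ℂ) / (2 * R x)) := by
    have h8 : (R x : ℂ) = ((√(R x / π) : ℝ) : ℂ) ^ 2 * π := by rw [hsq]; field_simp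
    exact pol_alg hs hpi h8 _
  simp only [add_apply, smul_apply,
    ContinuousLinearMap.comp_apply, smul_eq_mul, Complex.ofRealCLM_apply]
  push_cast
  linear_combination Complex.exp (2 * ↑π * ↑(Y x) * Complex.I) * key

/-- The symplectic form in action-angle coordinates. PROOF: `p.re * q.im - p.im * q.re =
im (conj p * q) = |z|² im (conj (a/2R + 2πi b) (c/2R + 2πi d)) = (R/π) (π/R) (a d - c b)`. -/
theorem om_pol {R Y : ℝ} (hR : 0 < R) (a b c d : ℝ) :
    let z := pol R Y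
    let p := z * ((a / (2 * R) : ℝ) + 2 * π * (b : ℝ) * Complex.I)
    let q := z * ((c / (2 * R) : ℝ) + 2 * π * (d : ℝ) * Complex.I)
    p.re * q.im - p.im * q.re = a * d - c * b := by
  intro z p q
  have hz : z.re * z.re + z.im * z.im = R / π := by
    have h1 := pol_norm hR.le Y
    have h2 : ‖z‖ ^ 2 = z.re * z.re + z.im * z.im := by
      rw [Complex.sq_norm, Complex.normSq_apply]
    rw [← h2, eq_div_iff Real.pi_pos.ne', mul_comm]
    exact h1
  have e : p.re * q.im - p.im * q.re =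
      (z.re * z.re + z.im * z.im) * (a / (2 * R) * (2 * π * d) - 2 * π * b * (c / (2 * R))) := by
    simp only [p, q, Complex.mul_re, Complex.mul_im, Complex.add_re, Complex.add_im,
      Complex.ofReal_re, Complex.ofReal_im, Complex.I_re, Complex.I_im, Complex.re_ofNat,
      Complex.im_ofNat]
    ring
  rw [e, hz]
  field_simp

theorem lam_pol {R Y : ℝ} (hR : 0 < R) (a b : ℝ) :
    let z := pol R Y
    let p := z * ((a / (2 * R) : ℝ) + 2 * π * (b : ℝ) * Complex.I)
    (z.re * p.im - z.im * p.re) / 2 = R * b := by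
  intro z p
  have hz : z.re * z.re + z.im * z.im = R / π := by
    have h1 := pol_norm hR.le Y
    have h2 : ‖z‖ ^ 2 = z.re * z.re + z.im * z.im := by
      rw [Complex.sq_norm, Complex.normSq_apply]
    rw [← h2, eq_div_iff Real.pi_pos.ne', mul_comm]
    exact h1
  have e : z.re * p.im - z.im * p.re = (z.re * z.re + z.im * z.im) * (2 * π * b) := by
    simp only [p, Complex.mul_re, Complex.mul_im, Complex.add_re, Complex.add_im,
      Complex.ofReal_re, Complex.ofReal_im, Complex.I_re, Complex.I_im, Complex.re_ofNat,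
      Complex.im_ofNat]
    ring
  rw [e, hz]
  field_simp

end MPe5ca60
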