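import Pool.Agent.Lib.MP_e5ca60_gt.Log

/-!
# MP_e5ca60_gt, module Index

Winding numbers of periodic maps `ℝ² → ℂ ∖ {0}` (uses module Log).
-/

namespace MPe5ca60

open scoped ContDiff Real
open Set

private theorem index_two_pi_I_ne : (2 * π * Complex.I : ℂ) ≠ 0 := by
  have h : (π : ℂ) ≠ 0 := by
    rw [Ne, Complex.ofReal_eq_zero]
    exact Real.pi_ne_zero
  exact mul_ne_zero (mul_ne_zero two_ne_zero h) Complex.I_ne_zero

private theorem index_exp_int (n : ℤ) : Complex.exp (2 * π * Complex.I * n) = 1 :=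
  Complex.exp_eq_one_iff.2 ⟨n, by ring⟩

/-- PROOF. If `l`, `l'` are the two logarithms, `exp (l - l') = 1`, so `l - l'` is constant
(`const_of_exp`); compare the values at `(0,0)` and `(1,0)`, resp. `(0,1)`. -/
theorem index_unique {f : ℝ × ℝ → ℂ} {w w' : ℤ × ℤ} (h : HasIndex f w) (h' : HasIndex f w') :
    w = w' := by
  obtain ⟨l, hl, he, h1, h2⟩ := h
  obtain ⟨l', hl', he', h1', h2'⟩ := h'
  have hexp : ∀ x, Complex.exp (l x - l' x) = 1 := by
    intro x
    rw [Complex.exp_sub, he, he']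
    exact div_self (by rw [← he x]; exact Complex.exp_ne_zero _)
  have hc : ∀ x y, l x - l' x = l y - l' y := const_of_exp (hl.sub hl') hexp
  have e1 := hc (0 + 1, 0) (0, 0)
  have e2 := hc (0, 0 + 1) (0, 0)
  have k1 := h1 (0, 0)
  have k1' := h1' (0, 0)
  have k2 := h2 (0, 0)
  have k2' := h2' (0, 0)
  simp only at k1 k1' k2 k2'
  rw [k1, k1'] at e1
  rw [k2, k2'] at e2
  have q1 : (2 * π * Complex.I : ℂ) * w.1 = 2 * π * Complex.I * w'.1 := by
    linear_combination e1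
  have q2 : (2 * π * Complex.I : ℂ) * w.2 = 2 * π * Complex.I * w'.2 := by
    linear_combination e2
  have r1 := mul_left_cancel₀ index_two_pi_I_ne q1
  have r2 := mul_left_cancel₀ index_two_pi_I_ne q2
  exact Prod.ext (by exact_mod_cast r1) (by exact_mod_cast r2)

/-- Homotopy invariance.
PROOF. Replace `f t` by `g (t, x) = f (projIcc 0 1 t) x`, continuous on `ℝ × (ℝ × ℝ)` without
zeros. `exists_log3` gives `L` with `exp L = g`. The functions `L (t, x + e₁) - L (t, x)` and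
`L (t, x + e₂) - L (t, x)` have exponential 1, so they are constants `c₁`, `c₂`
(`const_of_exp`). The function `L (0, ·) - l`, with `l` the logarithm from `hw`, has exponential
1, so it is constant; therefore `c_j = 2πi w_j`. Use `L (1, ·)`. -/
theorem index_homotopy (f : ℝ → ℝ × ℝ → ℂ)
    (hf : ContinuousOn (fun p : ℝ × (ℝ × ℝ) => f p.1 p.2) (Icc (0 : ℝ) 1 ×ˢ univ))
    (h0 : ∀ t ∈ Icc (0 : ℝ) 1, ∀ x, f t x ≠ 0)
    (p1 : ∀ t ∈ Icc (0 : ℝ) 1, ∀ x : ℝ × ℝ, f t (x.1 + 1, x.2) = f t x)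
    (p2 : ∀ t ∈ Icc (0 : ℝ) 1, ∀ x : ℝ × ℝ, f t (x.1, x.2 + 1) = f t x)
    {w : ℤ × ℤ} (hw : HasIndex (f 0) w) : HasIndex (f 1) w := by
  obtain ⟨l, hl, he, k1, k2⟩ := hw
  set c : ℝ → ℝ := fun t => (projIcc (0 : ℝ) 1 zero_le_one t : ℝ) with hc
  have hcI : ∀ t, c t ∈ Icc (0 : ℝ) 1 := fun t => (projIcc (0 : ℝ) 1 zero_le_one t).2
  have hcc : Continuous c := continuous_subtype_val.comp continuous_projIcc
  have c0 : c 0 = 0 := by
    simp only [hc]
    rw [projIcc_of_mem zero_le_one (left_mem_Icc.2 zero_le_one)]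
  have c1 : c 1 = 1 := by
    simp only [hc]
    rw [projIcc_of_mem zero_le_one (right_mem_Icc.2 zero_le_one)]
  set g : ℝ × (ℝ × ℝ) → ℂ := fun p => f (c p.1) p.2 with hg
  have hgc : Continuous g := by
    have h1 : Continuous (fun p : ℝ × (ℝ × ℝ) => (c p.1, p.2)) :=
      (hcc.comp continuous_fst).prodMk continuous_snd
    exact hf.comp_continuous h1 (fun p => ⟨hcI p.1, mem_univ _⟩)
  have hg0 : ∀ p, g p ≠ 0 := fun p => h0 _ (hcI p.1) p.2
  obtain ⟨L, hL, hLe⟩ := exists_log3 hgc hg0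
  have hs1 : Continuous (fun p : ℝ × (ℝ × ℝ) => (p.1, (p.2.1 + 1, p.2.2))) := by fun_prop
  have hs2 : Continuous (fun p : ℝ × (ℝ × ℝ) => (p.1, (p.2.1, p.2.2 + 1))) := by fun_prop
  have e1 : ∀ p : ℝ × (ℝ × ℝ), Complex.exp (L (p.1, (p.2.1 + 1, p.2.2)) - L p) = 1 := by
    intro p
    rw [Complex.exp_sub, hLe, hLe]
    have : g (p.1, (p.2.1 + 1, p.2.2)) = g p := p1 _ (hcI p.1) p.2
    rw [this]
    exact div_self (hg0 p)
  have e2 : ∀ p : ℝ × (ℝ × ℝ), Complex.exp (L (p.1, (p.2.1, p.2.2 + 1)) - L p) = 1 := by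
    intro p
    rw [Complex.exp_sub, hLe, hLe]
    have : g (p.1, (p.2.1, p.2.2 + 1)) = g p := p2 _ (hcI p.1) p.2
    rw [this]
    exact div_self (hg0 p)
  have q1 : ∀ x y : ℝ × (ℝ × ℝ), L (x.1, (x.2.1 + 1, x.2.2)) - L x =
      L (y.1, (y.2.1 + 1, y.2.2)) - L y := const_of_exp ((hL.comp hs1).sub hL) e1
  have q2 : ∀ x y : ℝ × (ℝ × ℝ), L (x.1, (x.2.1, x.2.2 + 1)) - L x =
      L (y.1, (y.2.1, y.2.2 + 1)) - L y := const_of_exp ((hL.comp hs2).sub hL) e2
  have e3 : ∀ x : ℝ × ℝ, Complex.exp (L (0, x) - l x) = 1 := by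
    intro x
    rw [Complex.exp_sub, hLe, he]
    have h3 : g (0, x) = f 0 x := by
      simp only [hg, c0]
    rw [h3]
    exact div_self (h0 0 (left_mem_Icc.2 zero_le_one) x)
  have hs3 : Continuous (fun x : ℝ × ℝ => ((0 : ℝ), x)) := by fun_prop
  have q3 : ∀ x y : ℝ × ℝ, L (0, x) - l x = L (0, y) - l y :=
    const_of_exp ((hL.comp hs3).sub hl) e3
  have v1 : ∀ p : ℝ × (ℝ × ℝ), L (p.1, (p.2.1 + 1, p.2.2)) = L p + 2 * π * Complex.I * w.1 := by
    intro p
    have a1 := q1 p (0, (0, 0))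
    have a2 := q3 (0 + 1, 0) (0, 0)
    have a3 := k1 (0, 0)
    simp only at a1 a2 a3
    linear_combination a1 + a2 + a3
  have v2 : ∀ p : ℝ × (ℝ × ℝ), L (p.1, (p.2.1, p.2.2 + 1)) = L p + 2 * π * Complex.I * w.2 := by
    intro p
    have a1 := q2 p (0, (0, 0))
    have a2 := q3 (0, 0 + 1) (0, 0)
    have a3 := k2 (0, 0)
    simp only at a1 a2 a3
    linear_combination a1 + a2 + a3
  refine ⟨fun x => L (1, x), hL.comp (by fun_prop), fun x => ?_, fun x => v1 (1, x),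
    fun x => v2 (1, x)⟩
  rw [hLe]
  simp only [hg, c1]

private theorem index_shift {l : ℝ × ℝ → ℂ} {w : ℤ × ℤ}
    (h1 : ∀ x : ℝ × ℝ, l (x.1 + 1, x.2) = l x + 2 * π * Complex.I * w.1)
    (h2 : ∀ x : ℝ × ℝ, l (x.1, x.2 + 1) = l x + 2 * π * Complex.I * w.2) (a b : ℤ)
    (x : ℝ × ℝ) :
    l (x + ((a : ℝ), (b : ℝ))) = l x + 2 * π * Complex.I * (w.1 * a + w.2 * b) := by
  have s1 : ∀ (a : ℤ) (x : ℝ × ℝ), l (x.1 + a, x.2) = l x + 2 * π * Complex.I * w.1 * a := by
    intro a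
    induction a using Int.induction_on with
    | zero => intro x; simp
    | succ n ih =>
      intro x
      have e := h1 (x.1 + (n : ℝ), x.2)
      simp only at e
      have e' := ih x
      push_cast at e' ⊢
      rw [← add_assoc, e, e']
      ring
    | pred n ih =>
      intro x
      have e := h1 (x.1 + (-(n : ℝ) - 1), x.2)
      simp only at e
      have e' := ih x
      push_cast at e' ⊢
      have e2 : x.1 + (-(n : ℝ) - 1) + 1 = x.1 + -(n : ℝ) := by ring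
      rw [e2] at e
      linear_combination e' - e
  have s2 : ∀ (b : ℤ) (x : ℝ × ℝ), l (x.1, x.2 + b) = l x + 2 * π * Complex.I * w.2 * b := by
    intro b
    induction b using Int.induction_on with
    | zero => intro x; simp
    | succ n ih =>
      intro x
      have e := h2 (x.1, x.2 + (n : ℝ))
      simp only at e
      have e' := ih x
      push_cast at e' ⊢
      rw [← add_assoc, e, e']
      ring
    | pred n ih =>
      intro x
      have e := h2 (x.1, x.2 + (-(n : ℝ) - 1))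
      simp only at e
      have e' := ih x
      push_cast at e' ⊢
      have e2 : x.2 + (-(n : ℝ) - 1) + 1 = x.2 + -(n : ℝ) := by ring
      rw [e2] at e
      linear_combination e' - e
  have e1 := s1 a (x.1, x.2 + b)
  have e2 := s2 b x
  simp only at e1
  have e3 : x + ((a : ℝ), (b : ℝ)) = (x.1 + a, x.2 + b) := rfl
  rw [e3, e1, e2]
  ring

/-- Reparametrisation.
PROOF. `l` = logarithm of `f`. First `l (x + (a, b)) = l x + 2πi (w.1 a + w.2 b)` for integers
`a, b` (induction, `Int.induction_on`). Necessarily `r x = ‖f' x‖ / ‖f (h x)‖`, which is continuous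
and periodic. Put `l' x = Real.log (r x) + l (h x)`; then `exp (l' x) = r x * f (h x) = f' x`,
`l'` is continuous and `l' (x + e₁) = l' x + 2πi (w.1 m.1 + w.2 m.2)` since `r (x + e₁) = r x`. -/
theorem index_comp {f : ℝ × ℝ → ℂ} {w : ℤ × ℤ} (hw : HasIndex f w) {h : ℝ × ℝ → ℝ × ℝ}
    (hc : Continuous h) {m n : ℤ × ℤ}
    (h1 : ∀ x : ℝ × ℝ, h (x.1 + 1, x.2) = h x + ((m.1 : ℝ), (m.2 : ℝ)))
    (h2 : ∀ x : ℝ × ℝ, h (x.1, x.2 + 1) = h x + ((n.1 : ℝ), (n.2 : ℝ)))
    {f' : ℝ × ℝ → ℂ} (hf' : Continuous f')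
    (p1 : ∀ x : ℝ × ℝ, f' (x.1 + 1, x.2) = f' x) (p2 : ∀ x : ℝ × ℝ, f' (x.1, x.2 + 1) = f' x)
    {r : ℝ × ℝ → ℝ} (hr : ∀ x, 0 < r x) (hfr : ∀ x, f' x = r x * f (h x)) :
    HasIndex f' (w.1 * m.1 + w.2 * m.2, w.1 * n.1 + w.2 * n.2) := by
  obtain ⟨l, hl, he, k1, k2⟩ := hw
  have hsh := index_shift k1 k2
  have hfc : Continuous f := by
    have : f = fun x => Complex.exp (l x) := funext fun x => (he x).symm
    rw [this]
    exact Complex.continuous_exp.comp hl
  have hf0 : ∀ x, f x ≠ 0 := fun x => by rw [← he x]; exact Complex.exp_ne_zero _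
  have hfsh : ∀ (a b : ℤ) (x : ℝ × ℝ), f (x + ((a : ℝ), (b : ℝ))) = f x := by
    intro a b x
    rw [← he, ← he x, hsh, Complex.exp_add]
    have := index_exp_int (w.1 * a + w.2 * b)
    push_cast at this
    rw [this, mul_one]
  have hre : ∀ x, r x = ‖f' x‖ / ‖f (h x)‖ := by
    intro x
    have hn : ‖f (h x)‖ ≠ 0 := norm_ne_zero_iff.2 (hf0 _)
    rw [hfr x, norm_mul, Complex.norm_real, Real.norm_eq_abs, abs_of_pos (hr x)]
    field_simp
  have hrc : Continuous r := by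
    have : r = fun x => ‖f' x‖ / ‖f (h x)‖ := funext hre
    rw [this]
    exact hf'.norm.div (hfc.comp hc).norm fun x => norm_ne_zero_iff.2 (hf0 _)
  have r1 : ∀ x : ℝ × ℝ, r (x.1 + 1, x.2) = r x := by
    intro x
    rw [hre, hre x, p1, h1, hfsh]
  have r2 : ∀ x : ℝ × ℝ, r (x.1, x.2 + 1) = r x := by
    intro x
    rw [hre, hre x, p2, h2, hfsh]
  refine ⟨fun x => ((Real.log (r x) : ℝ) : ℂ) + l (h x), ?_, fun x => ?_, fun x => ?_,
    fun x => ?_⟩
  · refine Continuous.add ?_ (hl.comp hc)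
    exact Complex.continuous_ofReal.comp (hrc.log fun x => (hr x).ne')
  · rw [Complex.exp_add, he, ← Complex.ofReal_exp, Real.exp_log (hr x), hfr x]
  · simp only
    rw [r1, h1, hsh]
    push_cast
    ring
  · simp only
    rw [r2, h2, hsh]
    push_cast
    ring

end MPe5ca60
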