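import Pool.Agent.Lib.MP_e5ca60_gt.Defs

/-!
# MP_e5ca60_gt, module Lin

Linear algebra of Lagrangian planes.
-/

namespace MPe5ca60

open scoped ContDiff Real
open Set

/-- PROOF. Suppose `dt v w = v.1 w.2 - v.2 w.1 = 0`. `v ≠ 0` by `hli 1 0`. Then `w = c v` for some
`c : ℂ` (if `v.1 ≠ 0` take `c = w.1 / v.1`, else `c = w.2 / v.2`), and
`om v w = im (conj v.1 * w.1 + conj v.2 * w.2) = c.im (|v.1|² + |v.2|²)`. So `c.im = 0`,
`w = c.re • v`, contradicting `hli (c.re) (-1)`. -/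
theorem dt_ne_zero {v w : ℂ × ℂ} (h : om v w = 0)
    (hli : ∀ a b : ℝ, a • v + b • w = 0 → a = 0 ∧ b = 0) : dt v w ≠ 0 := by
  intro hdt
  unfold dt at hdt
  have hv0 : v ≠ 0 := by
    intro h0
    have := hli 1 0 (by rw [h0]; simp)
    exact one_ne_zero this.1
  obtain ⟨c, hc1, hc2⟩ : ∃ c : ℂ, w.1 = c * v.1 ∧ w.2 = c * v.2 := by
    by_cases h1 : v.1 = 0
    · have h2 : v.2 ≠ 0 := by
        intro h2
        exact hv0 (Prod.ext h1 h2)
      refine ⟨w.2 / v.2, ?_, ?_⟩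
      · rw [h1, mul_zero]
        rw [h1, zero_mul, zero_sub, neg_eq_zero] at hdt
        exact (mul_eq_zero.1 hdt).resolve_left h2
      · field_simp
    · refine ⟨w.1 / v.1, ?_, ?_⟩
      · field_simp
      · field_simp
        linear_combination hdt
  have hcim : c.im = 0 := by
    have h3 : c.im * (v.1.re ^ 2 + v.1.im ^ 2 + v.2.re ^ 2 + v.2.im ^ 2) = 0 := by
      rw [← h]
      unfold om
      rw [hc1, hc2]
      simp only [Complex.mul_re, Complex.mul_im]
      ring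
    rcases mul_eq_zero.1 h3 with h4 | h4
    · exact h4
    · exfalso
      apply hv0
      have e1 : v.1.re = 0 := by nlinarith [sq_nonneg v.1.re, sq_nonneg v.1.im, sq_nonneg v.2.re, sq_nonneg v.2.im]
      have e2 : v.1.im = 0 := by nlinarith [sq_nonneg v.1.re, sq_nonneg v.1.im, sq_nonneg v.2.re, sq_nonneg v.2.im]
      have e3 : v.2.re = 0 := by nlinarith [sq_nonneg v.1.re, sq_nonneg v.1.im, sq_nonneg v.2.re, sq_nonneg v.2.im]
      have e4 : v.2.im = 0 := by nlinarith [sq_nonneg v.1.re, sq_nonneg v.1.im, sq_nonneg v.2.re, sq_nonneg v.2.im]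
      exact Prod.ext (Complex.ext e1 e2) (Complex.ext e3 e4)
  have hcc : c = (c.re : ℂ) := Complex.ext rfl (by simp [hcim])
  have h5 := hli c.re (-1) (by
    refine Prod.ext ?_ ?_
    · change (c.re : ℝ) • v.1 + (-1 : ℝ) • w.1 = 0
      rw [hc1, Complex.real_smul, ← hcc]
      simp
    · change (c.re : ℝ) • v.2 + (-1 : ℝ) • w.2 = 0
      rw [hc2, Complex.real_smul, ← hcc]
      simp)
  have := h5.2
  norm_num at this

theorem Dsq_ne_zero {e : ℝ × ℝ → ℂ × ℂ} {x : ℝ × ℝ} (hi : Function.Injective (fderiv ℝ e x))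
    (hl : ∀ v w, om (fderiv ℝ e x v) (fderiv ℝ e x w) = 0) : Dsq e x ≠ 0 := by
  unfold Dsq
  refine pow_ne_zero 2 (dt_ne_zero (hl _ _) ?_)
  intro a b hab
  have h1 : fderiv ℝ e x (a, b) = 0 := by
    rw [← hab, ← map_smul, ← map_smul, ← map_add]
    congr 1
    simp
  have h2 : ((a, b) : ℝ × ℝ) = 0 := hi (by rw [h1, map_zero])
  exact ⟨congrArg Prod.fst h2, congrArg Prod.snd h2⟩

/-- PROOF. Write `fderiv h x (1,0) = (a,b)`, `fderiv h x (0,1) = (c,d)` and `p, q` for the partial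
derivatives of `e` at `h x`. Then the partial derivatives of `e'` at `x` are `a p + b q` and
`c p + d q`, and `dt (a p + b q) (c p + d q) = (a d - b c) dt p q`; `r = (a d - b c)^2`. It is
positive: if `a d = b c` then `fderiv e' x` is not injective (a nonzero vector `(s, t)` with
`s (a,b) + t (c,d) = 0`). -/
theorem Dsq_lift {e e' : ℝ × ℝ → ℂ × ℂ} {h : ℝ × ℝ → ℝ × ℝ} {x : ℝ × ℝ}
    (hi : Function.Injective (fderiv ℝ e' x))
    (hv : ∀ v, fderiv ℝ e (h x) (fderiv ℝ h x v) = fderiv ℝ e' x v) :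
    ∃ r : ℝ, 0 < r ∧ Dsq e' x = r * Dsq e (h x) := by
  set a := (fderiv ℝ h x (1, 0)).1 with ha
  set b := (fderiv ℝ h x (1, 0)).2 with hb
  set c := (fderiv ℝ h x (0, 1)).1 with hc
  set d := (fderiv ℝ h x (0, 1)).2 with hd
  have hlin : ∀ (L : ℝ × ℝ →L[ℝ] ℂ × ℂ) (s t : ℝ), L (s, t) = s • L (1, 0) + t • L (0, 1) := by
    intro L s t
    rw [← map_smul, ← map_smul, ← map_add]
    congr 1
    simp
  have hlin2 : ∀ (s t : ℝ), fderiv ℝ h x (s, t) = (s * a + t * c, s * b + t * d) := by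
    intro s t
    have : ((s, t) : ℝ × ℝ) = s • (1, 0) + t • (0, 1) := by simp
    rw [this, map_add, map_smul, map_smul]
    refine Prod.ext ?_ ?_
    · simp [ha, hc]
    · simp [hb, hd]
  have e1 : fderiv ℝ e' x (1, 0) = a • fderiv ℝ e (h x) (1, 0) + b • fderiv ℝ e (h x) (0, 1) := by
    rw [← hv, ← hlin]
  have e2 : fderiv ℝ e' x (0, 1) = c • fderiv ℝ e (h x) (1, 0) + d • fderiv ℝ e (h x) (0, 1) := by
    rw [← hv, ← hlin]
  refine ⟨(a * d - b * c) ^ 2, ?_, ?_⟩
  · have hne : a * d - b * c ≠ 0 := by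
      intro h0
      have hker : ∀ s t : ℝ, s * a + t * c = 0 → s * b + t * d = 0 → s = 0 ∧ t = 0 := by
        intro s t h1 h2
        have h3 : fderiv ℝ e' x (s, t) = 0 := by
          rw [← hv, hlin2, h1, h2]
          exact map_zero _
        have h4 : ((s, t) : ℝ × ℝ) = 0 := hi (by rw [h3, map_zero])
        exact ⟨congrArg Prod.fst h4, congrArg Prod.snd h4⟩
      have k1 := hker c (-a) (by ring) (by linarith)
      have k2 := hker d (-b) (by linarith) (by ring)
      have k3 := hker 1 0 (by rw [neg_eq_zero.1 k1.2]; ring) (by rw [neg_eq_zero.1 k2.2]; ring)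
      exact one_ne_zero k3.1
    positivity
  · unfold Dsq
    rw [e1, e2]
    unfold dt
    simp only [Prod.fst_add, Prod.snd_add, Prod.smul_fst, Prod.smul_snd, Complex.real_smul]
    push_cast
    ring

/-- PROOF. `u x = (h x).1` is continuous and `ℤ²`-periodic, so it attains its maximum over the
plane (it equals its maximum over the compact square `[0,1]²`, reduce with `Int.fract`). At the
maximum `fderiv u = 0` (`IsLocalMax.fderiv_eq_zero`), i.e. `(fderiv h x v).1 = 0` for all `v`, so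
`fderiv h x` maps `ℝ²` to `{0} × ℝ` and is not injective (two vectors `(1,0)`, `(0,1)` have
proportional images). -/
theorem no_zero_row {h : ℝ × ℝ → ℝ × ℝ} (hd : Differentiable ℝ h)
    (hi : ∀ x, Function.Injective (fderiv ℝ h x)) (h1 : ∀ x : ℝ × ℝ, (h (x.1 + 1, x.2)).1 = (h x).1)
    (h2 : ∀ x : ℝ × ℝ, (h (x.1, x.2 + 1)).1 = (h x).1) : False := by
  set u : ℝ × ℝ → ℝ := fun x => (h x).1 with hu
  have huc : Continuous u := continuous_fst.comp hd.continuous
  have hint1 : ∀ (k : ℤ) (x : ℝ × ℝ), u (x.1 + k, x.2) = u x := by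
    intro k x
    have hp : Function.Periodic (fun s => u (s, x.2)) 1 := fun s => h1 (s, x.2)
    have := hp.int_mul k x.1
    simpa using this
  have hint2 : ∀ (k : ℤ) (x : ℝ × ℝ), u (x.1, x.2 + k) = u x := by
    intro k x
    have hp : Function.Periodic (fun s => u (x.1, s)) 1 := fun s => h2 (x.1, s)
    have := hp.int_mul k x.2
    simpa using this
  obtain ⟨x0, -, hx0⟩ := (isCompact_Icc (a := (0 : ℝ)) (b := 1)).prod
    (isCompact_Icc (a := (0 : ℝ)) (b := 1)) |>.exists_isMaxOn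
    ⟨(0, 0), by simp⟩ huc.continuousOn
  have hmax : ∀ x, u x ≤ u x0 := by
    intro x
    have e1 : u x = u (Int.fract x.1, Int.fract x.2) := by
      have a1 := hint1 (-⌊x.1⌋) x
      have a2 := hint2 (-⌊x.2⌋) (x.1 + ((-⌊x.1⌋ : ℤ) : ℝ), x.2)
      simp only at a2
      rw [← a1, ← a2]
      congr 1
      refine Prod.ext ?_ ?_
      · simp only [Int.cast_neg, Int.fract]
        ring
      · simp only [Int.cast_neg, Int.fract]
        ring
    rw [e1]
    exact hx0 ⟨⟨Int.fract_nonneg _, (Int.fract_lt_one _).le⟩,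
      ⟨Int.fract_nonneg _, (Int.fract_lt_one _).le⟩⟩
  have hloc : IsLocalMax u x0 := Filter.Eventually.of_forall hmax
  have hz : fderiv ℝ u x0 = 0 := hloc.fderiv_eq_zero
  have hfst : ∀ v, (fderiv ℝ h x0 v).1 = 0 := by
    intro v
    have h3 : HasFDerivAt u ((ContinuousLinearMap.fst ℝ ℝ ℝ).comp (fderiv ℝ h x0)) x0 :=
      (ContinuousLinearMap.fst ℝ ℝ ℝ).hasFDerivAt.comp x0 (hd x0).hasFDerivAt
    have h4 := h3.fderiv
    rw [hz] at h4
    have h5 := congrArg (fun L : ℝ × ℝ →L[ℝ] ℝ => L v) h4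
    simpa using h5.symm
  have hli : ∀ s t : ℝ, s * (fderiv ℝ h x0 (1, 0)).2 + t * (fderiv ℝ h x0 (0, 1)).2 = 0 →
      s = 0 ∧ t = 0 := by
    intro s t hst
    have h6 : fderiv ℝ h x0 (s, t) = 0 := by
      have : ((s, t) : ℝ × ℝ) = s • (1, 0) + t • (0, 1) := by simp
      refine Prod.ext (hfst _) ?_
      rw [this, map_add, map_smul, map_smul]
      simpa using hst
    have h7 : ((s, t) : ℝ × ℝ) = 0 := hi x0 (by rw [h6, map_zero])
    exact ⟨congrArg Prod.fst h7, congrArg Prod.snd h7⟩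
  have k1 := hli (fderiv ℝ h x0 (0, 1)).2 (-(fderiv ℝ h x0 (1, 0)).2) (by ring)
  have k2 := hli 1 0 (by rw [neg_eq_zero.1 k1.2]; ring)
  exact one_ne_zero k2.1

end MPe5ca60
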