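import Pool.Agent.Lib.MP_e5ca60_gt.TorP
import Pool.Agent.Lib.MP_e5ca60_gt.Index
import Pool.Agent.Lib.MP_e5ca60_gt.Lin

/-!
# MP_e5ca60_gt, module TorI

Maslov class of the tori (uses TorP, TorD, Polar, Index, Lin).
-/

namespace MPe5ca60

open scoped ContDiff Real
open Set

namespace TorData

/-- The data with the perturbation multiplied by a number in `[0, 1]`. -/
private noncomputable def TorIscale (D : TorData) (σ : Icc (0 : ℝ) 1) : TorData where
  t := σ * D.t
  G0 := fun x => σ * D.G0 x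
  G1 := fun x => σ * D.G1 x
  G2 := fun x => σ * D.G2 x
  g0 := fun x => σ * D.g0 x
  g1 := fun x => σ * D.g1 x
  g2 := fun x => σ * D.g2 x
  v1 := D.v1
  v2 := D.v2
  al := D.al
  be := D.be
  N := D.N
  sG0 := contDiff_const.mul D.sG0
  sG1 := contDiff_const.mul D.sG1
  sG2 := contDiff_const.mul D.sG2
  sg0 := contDiff_const.mul D.sg0
  sg1 := contDiff_const.mul D.sg1
  sg2 := contDiff_const.mul D.sg2
  sv1 := D.sv1
  sv2 := D.sv2
  cal := D.cal
  dG0 := fun x => (D.dG0 x).const_mul _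
  dG1 := fun x => (D.dG1 x).const_mul _
  dg0 := fun x => (D.dg0 x).const_mul _
  dg1 := fun x => (D.dg1 x).const_mul _
  dv1 := D.dv1
  dv2 := D.dv2
  dN := D.dN
  pG0 := fun x => by rw [D.pG0]
  pG1 := fun x => by rw [D.pG1]
  pG2 := fun x => by rw [D.pG2]
  pg0 := fun x => by rw [D.pg0]
  pg1 := fun x => by rw [D.pg1]
  pg2 := fun x => by rw [D.pg2]
  pv1 := D.pv1
  pv2 := D.pv2
  pal := D.pal
  pN := D.pN
  ht0 := mul_nonneg σ.2.1 D.ht0
  ht1 := mul_le_one₀ σ.2.2 D.ht0 D.ht1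
  hG1 := fun x => by
    rw [abs_mul, abs_of_nonneg σ.2.1]
    have h1 := D.hG1 x
    have h2 := abs_nonneg (D.G1 x)
    nlinarith [σ.2.1, σ.2.2]
  hg1 := fun x => by
    rw [abs_mul, abs_of_nonneg σ.2.1]
    have h1 := D.hg1 x
    have h2 := abs_nonneg (D.g1 x)
    nlinarith [σ.2.1, σ.2.2]
  hal := D.hal
  hbe := D.hbe
  hv1 := D.hv1
  hv1' := D.hv1'
  hv2 := D.hv2
  hv2' := D.hv2'
  hinj := D.hinj

private lemma TorI_Dsq (D : TorData) (x : ℝ × ℝ) : Dsq D.e x =
    ((pol (D.R1 x) (D.Y1 x) * ((D.dR1 x (1, 0) / (2 * D.R1 x) : ℝ) +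
        2 * π * (D.dY1 x (1, 0) : ℝ) * Complex.I)) *
     (pol (D.R2 x) (D.Y2 x) * ((D.dR2 x (0, 1) / (2 * D.R2 x) : ℝ) +
        2 * π * (D.dY2 x (0, 1) : ℝ) * Complex.I)) -
     (pol (D.R2 x) (D.Y2 x) * ((D.dR2 x (1, 0) / (2 * D.R2 x) : ℝ) +
        2 * π * (D.dY2 x (1, 0) : ℝ) * Complex.I)) *
     (pol (D.R1 x) (D.Y1 x) * ((D.dR1 x (0, 1) / (2 * D.R1 x) : ℝ) +
        2 * π * (D.dY1 x (0, 1) : ℝ) * Complex.I))) ^ 2 := by
  rw [Dsq, fderiv_e, fderiv_e, dt]

private lemma TorI_continuous (D : TorData) {X : Type} [TopologicalSpace X]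
    (σ : X → Icc (0 : ℝ) 1) (x : X → ℝ × ℝ) (hσ : Continuous σ) (hx : Continuous x) :
    Continuous (fun p => Dsq (TorIscale D (σ p)).e (x p)) := by
  have hσ' : Continuous (fun p => ((σ p : Icc (0 : ℝ) 1) : ℝ)) := continuous_subtype_val.comp hσ
  have hG1 : Continuous D.G1 := D.sG1.continuous
  have hG2 : Continuous D.G2 := D.sG2.continuous
  have hg0 : Continuous D.g0 := D.sg0.continuous
  have hg1 : Continuous D.g1 := D.sg1.continuous
  have hg2 : Continuous D.g2 := D.sg2.continuous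
  have hv1 : Continuous D.v1 := D.sv1.continuous
  have hv2 : Continuous D.v2 := D.sv2.continuous
  have hal : Continuous D.al := D.cal
  have cY1 : Continuous (fun p => (TorIscale D (σ p)).Y1 (x p)) := by
    simp only [Y1, TorIscale]
    fun_prop
  have cR2 : Continuous (fun p => (TorIscale D (σ p)).R2 (x p)) := by
    simp only [R2, TorIscale]
    fun_prop
  have cR1 : Continuous (fun p => (TorIscale D (σ p)).R1 (x p)) := by
    have h1 : (fun p => (TorIscale D (σ p)).R1 (x p)) = fun p => 2 + (σ p : ℝ) * D.G1 (x p).1 -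
      ((TorIscale D (σ p)).R2 (x p) - 1) * ((σ p : ℝ) * D.g1 ((TorIscale D (σ p)).Y1 (x p))) := rfl
    rw [h1]
    fun_prop
  have cY2 : Continuous (fun p => (TorIscale D (σ p)).Y2 (x p)) := by
    have h1 : (fun p => (TorIscale D (σ p)).Y2 (x p)) = fun p => D.v2 (x p).2 +
      ((σ p : ℝ) * D.g0 ((TorIscale D (σ p)).Y1 (x p))) := rfl
    rw [h1]
    fun_prop
  have cdY1 : ∀ v, Continuous (fun p => (TorIscale D (σ p)).dY1 (x p) v) := by
    intro v
    simp only [dY1, TorIscale]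
    fun_prop
  have cdR2 : ∀ v, Continuous (fun p => (TorIscale D (σ p)).dR2 (x p) v) := by
    intro v
    simp only [dR2, TorIscale]
    fun_prop
  have cdR1 : ∀ v, Continuous (fun p => (TorIscale D (σ p)).dR1 (x p) v) := by
    intro v
    have h2 := cdR2 v
    have h3 := cdY1 v
    have h1 : (fun p => (TorIscale D (σ p)).dR1 (x p) v) = fun p =>
      (σ p : ℝ) * D.G2 (x p).1 * v.1 - ((TorIscale D (σ p)).dR2 (x p) v *
        ((σ p : ℝ) * D.g1 ((TorIscale D (σ p)).Y1 (x p))) +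
        ((TorIscale D (σ p)).R2 (x p) - 1) * ((σ p : ℝ) * D.g2 ((TorIscale D (σ p)).Y1 (x p)) *
          (TorIscale D (σ p)).dY1 (x p) v)) := rfl
    rw [h1]
    fun_prop
  have cdY2 : ∀ v, Continuous (fun p => (TorIscale D (σ p)).dY2 (x p) v) := by
    intro v
    have h3 := cdY1 v
    have h1 : (fun p => (TorIscale D (σ p)).dY2 (x p) v) = fun p =>
      D.be * Real.sin (2 * π * (x p).2) * v.2 +
        ((σ p : ℝ) * D.g1 ((TorIscale D (σ p)).Y1 (x p))) *
          (TorIscale D (σ p)).dY1 (x p) v := rfl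
    rw [h1]
    fun_prop
  have cpol : ∀ R Y : X → ℝ, Continuous R → Continuous Y → Continuous (fun p => pol (R p) (Y p)) := by
    intro R Y hR hY
    simp only [pol]
    fun_prop
  have cdiv : ∀ a R : X → ℝ, Continuous a → Continuous R → (∀ p, 0 < R p) →
      Continuous (fun p => (((a p / (2 * R p) : ℝ)) : ℂ)) := by
    intro a R ha hR hpos
    refine Complex.continuous_ofReal.comp (ha.div (continuous_const.mul hR) (fun p => ?_))
    have := hpos p
    positivity
  have hlin : ∀ b : X → ℝ, Continuous b →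
      Continuous (fun p => 2 * (π : ℂ) * ((b p : ℝ) : ℂ) * Complex.I) := by
    intro b hb
    fun_prop
  have hp1 : ∀ p, 0 < (TorIscale D (σ p)).R1 (x p) := fun p => R1_pos _ _
  have hp2 : ∀ p, 0 < (TorIscale D (σ p)).R2 (x p) := fun p => R2_pos _ _
  simp only [TorI_Dsq]
  refine Continuous.pow (Continuous.sub (Continuous.mul (Continuous.mul ?_ (Continuous.add ?_ ?_))
    (Continuous.mul ?_ (Continuous.add ?_ ?_))) (Continuous.mul
      (Continuous.mul ?_ (Continuous.add ?_ ?_)) (Continuous.mul ?_ (Continuous.add ?_ ?_)))) 2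
  · exact cpol _ _ cR1 cY1
  · exact cdiv _ _ (cdR1 _) cR1 hp1
  · exact hlin _ (cdY1 _)
  · exact cpol _ _ cR2 cY2
  · exact cdiv _ _ (cdR2 _) cR2 hp2
  · exact hlin _ (cdY2 _)
  · exact cpol _ _ cR2 cY2
  · exact cdiv _ _ (cdR2 _) cR2 hp2
  · exact hlin _ (cdY2 _)
  · exact cpol _ _ cR1 cY1
  · exact cdiv _ _ (cdR1 _) cR1 hp1
  · exact hlin _ (cdY1 _)

private lemma TorI_per1 {e : ℝ × ℝ → ℂ × ℂ} (h : ∀ x : ℝ × ℝ, e (x.1 + 1, x.2) = e x)
    (x : ℝ × ℝ) : Dsq e (x.1 + 1, x.2) = Dsq e x := by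
  have h1 : (fun y => e (y + (1, 0))) = e := by
    funext y
    rw [← h y]
    congr 1
    ext <;> simp
  have h2 : fderiv ℝ e (x.1 + 1, x.2) = fderiv ℝ e x := by
    have h3 := fderiv_comp_add_right (𝕜 := ℝ) (f := e) (x := x) ((1, 0) : ℝ × ℝ)
    rw [h1] at h3
    rw [h3]
    congr 1
    ext <;> simp
  rw [Dsq, Dsq, h2]

private lemma TorI_per2 {e : ℝ × ℝ → ℂ × ℂ} (h : ∀ x : ℝ × ℝ, e (x.1, x.2 + 1) = e x)
    (x : ℝ × ℝ) : Dsq e (x.1, x.2 + 1) = Dsq e x := by
  have h1 : (fun y => e (y + (0, 1))) = e := by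
    funext y
    rw [← h y]
    congr 1
    ext <;> simp
  have h2 : fderiv ℝ e (x.1, x.2 + 1) = fderiv ℝ e x := by
    have h3 := fderiv_comp_add_right (𝕜 := ℝ) (f := e) (x := x) ((0, 1) : ℝ × ℝ)
    rw [h1] at h3
    rw [h3]
    congr 1
    ext <;> simp
  rw [Dsq, Dsq, h2]

private lemma TorI_pol_sq {R : ℝ} (hR : 0 < R) (Y : ℝ) :
    pol R Y ^ 2 = ((R / π : ℝ) : ℂ) * Complex.exp (4 * π * Y * Complex.I) := by
  rw [pol, mul_pow, ← Complex.exp_nat_mul, ← Complex.ofReal_pow,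
    Real.sq_sqrt (by positivity)]
  congr 2
  push_cast
  ring

private lemma TorI_zero (D : TorData) : HasIndex (Dsq (TorIscale D ⟨0, by simp⟩).e) (2, 2) := by
  have hv1 : Continuous D.v1 := D.sv1.continuous
  have hv2 : Continuous D.v2 := D.sv2.continuous
  have hal : Continuous D.al := D.cal
  have hv1pos : ∀ y, 0 < D.v1 y := fun y => zero_lt_one.trans (D.hv1 y)
  let Y : ℝ → ℂ := fun y => ((D.al y / (2 * D.v1 y) * Real.cos (2 * π * y) ^ 2 +
    2 * π * D.be * Real.sin (2 * π * y) ^ 2 : ℝ) : ℂ) +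
    ((2 * π * D.be - D.al y / (2 * D.v1 y)) * Real.sin (2 * π * y) * Real.cos (2 * π * y) : ℝ) *
      Complex.I
  have hYc : Continuous Y := by
    have h1 : Continuous fun y => D.al y / (2 * D.v1 y) :=
      hal.div (continuous_const.mul hv1) (fun y => by have := hv1pos y; positivity)
    simp only [Y]
    fun_prop
  have hYp : ∀ y, Y (y + 1) = Y y := by
    intro y
    have h1 : 2 * π * (y + 1) = 2 * π * y + 2 * π := by ring
    simp only [Y, D.pal, D.pv1, h1, Real.cos_add_two_pi, Real.sin_add_two_pi]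
  have hYre : ∀ y, 0 < (Y y).re := by
    intro y
    have h0 : (Y y).re = D.al y / (2 * D.v1 y) * Real.cos (2 * π * y) ^ 2 +
      2 * π * D.be * Real.sin (2 * π * y) ^ 2 := by
      simp only [Y, Complex.add_re, Complex.ofReal_re, Complex.mul_re, Complex.I_re,
        Complex.I_im, Complex.ofReal_im]
      ring
    rw [h0]
    have h1 := Real.sin_sq_add_cos_sq (2 * π * y)
    have h2 : 0 < D.al y / (2 * D.v1 y) := by
      have := hv1pos y
      have := D.hal y
      positivity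
    have h3 : 0 < 2 * π * D.be := by
      have := D.hbe
      positivity
    by_cases hs : Real.sin (2 * π * y) = 0
    · rw [hs] at h1 ⊢
      have h4 : Real.cos (2 * π * y) ^ 2 = 1 := by linarith
      rw [h4]
      simpa using h2
    · have h5 : 0 < Real.sin (2 * π * y) ^ 2 := by positivity
      have h6 : 0 ≤ D.al y / (2 * D.v1 y) * Real.cos (2 * π * y) ^ 2 := by positivity
      have h7 : 0 < 2 * π * D.be * Real.sin (2 * π * y) ^ 2 := by positivity
      linarith
  have hYsl : ∀ y, Y y ∈ Complex.slitPlane := fun y => Or.inl (hYre y)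
  have hY0 : ∀ y, Y y ≠ 0 := fun y => Complex.slitPlane_ne_zero (hYsl y)
  have hYe : ∀ y, ((D.al y * Real.cos (2 * π * y) / (2 * D.v1 y) : ℝ) : ℂ) +
      2 * π * ((D.be * Real.sin (2 * π * y) : ℝ) : ℂ) * Complex.I =
      Complex.exp (2 * π * y * Complex.I) * Y y := by
    intro y
    have h1 : Complex.exp (2 * π * y * Complex.I) =
        ((Real.cos (2 * π * y) : ℝ) : ℂ) + ((Real.sin (2 * π * y) : ℝ) : ℂ) * Complex.I := by
      have h2 : (2 * π * y * Complex.I : ℂ) = ((2 * π * y : ℝ) : ℂ) * Complex.I := by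
        push_cast
        ring
      rw [h2, Complex.exp_mul_I, ← Complex.ofReal_cos, ← Complex.ofReal_sin]
    rw [h1]
    have h3 := Real.sin_sq_add_cos_sq (2 * π * y)
    set c := Real.cos (2 * π * y) with hc
    set s := Real.sin (2 * π * y) with hs
    have h4 : ((s : ℂ)) ^ 2 + (c : ℂ) ^ 2 = 1 := by exact_mod_cast h3
    have hI : Complex.I ^ 2 = -1 := Complex.I_sq
    simp only [Y, ← hc, ← hs]
    push_cast
    set p : ℂ := (D.al y : ℂ) / (2 * (D.v1 y : ℂ)) with hp
    have h5 : (D.al y : ℂ) * (c : ℂ) / (2 * (D.v1 y : ℂ)) = p * c := by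
      rw [hp]
      ring
    rw [h5]
    have h6 : (p * (c : ℂ) + 2 * (π : ℂ) * ((D.be : ℂ) * (s : ℂ)) * Complex.I) =
        (p * (c : ℂ) + 2 * (π : ℂ) * ((D.be : ℂ) * (s : ℂ)) * Complex.I) *
          ((s : ℂ) ^ 2 + (c : ℂ) ^ 2) := by rw [h4, mul_one]
    rw [h6]
    linear_combination ((-(c : ℂ) * (s : ℂ) ^ 2 * (2 * (π : ℂ) * (D.be : ℂ) - p))) * hI
  refine ⟨fun x => ((Real.log (8 * D.v1 x.2) : ℝ) : ℂ) + π * Complex.I +
    4 * π * (x.1 + D.v2 x.2 : ℝ) * Complex.I + 4 * π * (x.2 : ℝ) * Complex.I +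
    2 * Complex.log (Y x.2), ?_, ?_, ?_, ?_⟩
  · have h1 : Continuous fun x : ℝ × ℝ => ((Real.log (8 * D.v1 x.2) : ℝ) : ℂ) :=
      Complex.continuous_ofReal.comp (Continuous.log (by fun_prop) (fun x => by
        have := hv1pos x.2
        positivity))
    have h2 : Continuous fun x : ℝ × ℝ => Complex.log (Y x.2) :=
      Continuous.clog (hYc.comp continuous_snd) (fun x => hYsl x.2)
    fun_prop
  · intro x
    rw [TorI_Dsq]
    have hR1 : (TorIscale D ⟨0, by simp⟩).R1 x = 2 := by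
      simp [R1, TorIscale]
    have hR2 : (TorIscale D ⟨0, by simp⟩).R2 x = D.v1 x.2 := by
      simp [R2, TorIscale]
    have hY1 : (TorIscale D ⟨0, by simp⟩).Y1 x = x.1 := by
      simp [Y1, TorIscale]
    have hY2 : (TorIscale D ⟨0, by simp⟩).Y2 x = D.v2 x.2 := by
      simp [Y2, TorIscale]
    have hdR1 : ∀ v, (TorIscale D ⟨0, by simp⟩).dR1 x v = 0 := by
      intro v
      simp [dR1, TorIscale]
    have hdY1 : ∀ v, (TorIscale D ⟨0, by simp⟩).dY1 x v = v.1 := by
      intro v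
      simp [dY1, TorIscale]
    have hdR2 : ∀ v, (TorIscale D ⟨0, by simp⟩).dR2 x v =
        D.al x.2 * Real.cos (2 * π * x.2) * v.2 := by
      intro v
      simp [dR2, TorIscale]
    have hdY2 : ∀ v, (TorIscale D ⟨0, by simp⟩).dY2 x v =
        D.be * Real.sin (2 * π * x.2) * v.2 := by
      intro v
      simp [dY2, TorIscale]
    rw [hR1, hR2, hY1, hY2, hdR1, hdR1, hdY1, hdY1, hdR2, hdR2, hdY2, hdY2]
    simp only [mul_zero, zero_div, Complex.ofReal_zero, mul_one, zero_mul, add_zero, sub_zero,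
      Complex.ofReal_one, zero_add]
    have h1 := hYe x.2
    rw [h1]
    have hpos : (0 : ℝ) < 8 * D.v1 x.2 := by
      have := hv1pos x.2
      positivity
    have h2 := TorI_pol_sq (R := 2) (by norm_num) x.1
    have h3 := TorI_pol_sq (hv1pos x.2) (D.v2 x.2)
    have e1 : Complex.exp ((Real.log (8 * D.v1 x.2) : ℝ) : ℂ) = 8 * D.v1 x.2 := by
      rw [← Complex.ofReal_exp, Real.exp_log hpos]
      push_cast
      ring
    have e2 : Complex.exp (2 * Complex.log (Y x.2)) = Y x.2 ^ 2 := by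
      have h4 : (2 : ℂ) * Complex.log (Y x.2) = ((2 : ℕ) : ℂ) * Complex.log (Y x.2) := by
        push_cast
        ring
      rw [h4, Complex.exp_nat_mul, Complex.exp_log (hY0 x.2)]
    have e3 : Complex.exp (4 * π * (x.1 + D.v2 x.2 : ℝ) * Complex.I) =
        Complex.exp (4 * π * x.1 * Complex.I) * Complex.exp (4 * π * D.v2 x.2 * Complex.I) := by
      rw [← Complex.exp_add]
      congr 1
      push_cast
      ring
    have e4 : Complex.exp (4 * π * (x.2 : ℝ) * Complex.I) =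
        Complex.exp (2 * π * x.2 * Complex.I) ^ 2 := by
      rw [← Complex.exp_nat_mul]
      congr 1
      push_cast
      ring
    have hπ : (π : ℂ) ≠ 0 := Complex.ofReal_ne_zero.2 Real.pi_ne_zero
    rw [Complex.exp_add, Complex.exp_add, Complex.exp_add, Complex.exp_add, e1, e2, e3, e4,
      Complex.exp_pi_mul_I]
    have h5 : (pol 2 x.1 * (2 * (π : ℂ) * Complex.I) *
        (pol (D.v1 x.2) (D.v2 x.2) * (Complex.exp (2 * π * x.2 * Complex.I) * Y x.2))) ^ 2 =
        pol 2 x.1 ^ 2 * pol (D.v1 x.2) (D.v2 x.2) ^ 2 * (4 * (π : ℂ) ^ 2 * Complex.I ^ 2) *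
          (Complex.exp (2 * π * x.2 * Complex.I) ^ 2 * Y x.2 ^ 2) := by ring
    rw [h5, h2, h3, Complex.I_sq]
    push_cast
    field_simp
    ring
  · intro x
    simp only
    push_cast
    ring
  · intro x
    simp only [hYp, D.pv1, D.pv2]
    push_cast
    ring

/-- PROOF. For `σ ∈ [0,1]` let `D_σ` be the data with `t, G0, G1, G2, g0, g1, g2` multiplied by
`σ` (same `v1, v2, al, be, N`); `D_1 = D`. `f σ x = Dsq (D_σ).e x` is nonzero by `param_e` and
`Dsq_ne_zero`, periodic (the derivative of a periodic function is periodic, or from the explicit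
formula), and continuous in `(σ, x)` by the explicit formula of `fderiv_e`. Index of `f 0`: there
`R1 = 2, Y1 = x.1, R2 = v1, Y2 = v2`, so `De (1,0) = (2πi z₁, 0)`,
`De (0,1) = (0, z₂ (p cos + i q sin))` with `p = al / (2 v1) > 0`, `q = 2π be > 0`, `cos, sin` of
`2πx.2`. Hence `Dsq = (2πi)² z₁² z₂² (p cos + i q sin)²`, `z₁² z₂² = (2 v1/π²) exp (4πi (x.1 + v2))`.
Write `p cos + i q sin = exp (2πi x.2) Y`, `Y = p cos² + q sin² + i (q - p) sin cos`, `re Y > 0`,
so `Complex.log Y` is continuous and periodic. Logarithm of `f 0`: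
`l x = Real.log (8 v1) + πi + 4πi (x.1 + v2 x.2) + 4πi x.2 + 2 log (Y x.2)`, periods `4πi, 4πi`.
Conclude with `index_homotopy`. -/
theorem index_e (D : TorData) : HasIndex (Dsq D.e) (2, 2) := by
  have h1 : (TorIscale D ⟨1, by simp⟩).e = D.e := by
    have hR2 : (TorIscale D ⟨1, by simp⟩).R2 = D.R2 := by
      funext x
      simp [R2, TorIscale]
    have hY1 : (TorIscale D ⟨1, by simp⟩).Y1 = D.Y1 := by
      funext x
      simp [Y1, TorIscale]
    have hR1 : (TorIscale D ⟨1, by simp⟩).R1 = D.R1 := by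
      funext x
      rw [R1, R1, hR2, hY1]
      simp [TorIscale]
    have hY2 : (TorIscale D ⟨1, by simp⟩).Y2 = D.Y2 := by
      funext x
      rw [Y2, Y2, hY1]
      simp [TorIscale]
    funext x
    rw [e, e, hR1, hR2, hY1, hY2]
  have p0 : projIcc (0 : ℝ) 1 zero_le_one 0 = ⟨0, by simp⟩ := projIcc_left _
  have p1 : projIcc (0 : ℝ) 1 zero_le_one 1 = ⟨1, by simp⟩ := projIcc_right _
  have h2 := index_homotopy
    (fun σ x => Dsq (TorIscale D (projIcc (0 : ℝ) 1 zero_le_one σ)).e x)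
    (TorI_continuous D (X := ℝ × (ℝ × ℝ)) (fun p => projIcc (0 : ℝ) 1 zero_le_one p.1)
      (fun p => p.2) (continuous_projIcc.comp continuous_fst) continuous_snd).continuousOn
    (fun σ _ x => Dsq_ne_zero ((param_e _).imm x) ((param_e _).lag x))
    (fun σ _ x => TorI_per1 (param_e _).per1 x)
    (fun σ _ x => TorI_per2 (param_e _).per2 x) (w := (2, 2))
    (by
      simp only [p0]
      exact TorI_zero D)
  simp only [p1] at h2
  rw [h1] at h2
  exact h2

end TorData

end MPe5ca60
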