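import Pool.Agent.Lib.MP_e5ca60_gt.TorD

/-!
# MP_e5ca60_gt, module TorP

The tori are embedded, Lagrangian, with area class (2,1) (uses TorD, Polar).
-/

namespace MPe5ca60

open scoped ContDiff Real
open Set

namespace TorData

private lemma TorP_int {f : ℝ → ℝ} (h : ∀ x, f (x + 1) = f x) (x : ℝ) (n : ℤ) :
    f (x + n) = f x := by
  have h1 : Function.Periodic f 1 := h
  have h2 := h1.int_mul n x
  simp only [mul_one] at h2
  exact h2

private lemma TorP_om (z w z' w' : ℂ) : om (z, w) (z', w')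
    = (z.re * z'.im - z.im * z'.re) + (w.re * w'.im - w.im * w'.re) := rfl

private lemma TorP_pol_ne {R : ℝ} (hR : 0 < R) (Y : ℝ) : pol R Y ≠ 0 := by
  unfold pol
  apply mul_ne_zero
  · have h1 : 0 < Real.sqrt (R / π) := Real.sqrt_pos.mpr (div_pos hR Real.pi_pos)
    exact_mod_cast h1.ne'
  · exact Complex.exp_ne_zero _

private lemma TorP_zero {R : ℝ} (hR : 0 < R) (Y a b : ℝ)
    (h : pol R Y * ((a / (2 * R) : ℝ) + 2 * π * (b : ℝ) * Complex.I) = 0) : a = 0 ∧ b = 0 := by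
  have h1 := (mul_eq_zero.mp h).resolve_left (TorP_pol_ne hR Y)
  have hre := congrArg Complex.re h1
  have him := congrArg Complex.im h1
  have h2 : (2 * π * (b : ℝ) * Complex.I : ℂ) = ((2 * π * b : ℝ) : ℂ) * Complex.I := by
    push_cast
    ring
  rw [h2] at hre him
  simp only [Complex.add_re, Complex.ofReal_re, Complex.re_ofReal_mul, Complex.I_re, mul_zero,
    add_zero, Complex.zero_re] at hre
  simp only [Complex.add_im, Complex.ofReal_im, Complex.im_ofReal_mul, Complex.I_im, mul_one,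
    zero_add, Complex.zero_im] at him
  have hpi := Real.pi_pos
  constructor
  · rcases div_eq_zero_iff.mp hre with h3 | h3
    · exact h3
    · exact absurd h3 (by positivity)
  · rcases mul_eq_zero.mp him with h3 | h3
    · exact absurd h3 (by positivity)
    · exact h3

/-- PROOF. Smoothness: `smooth_e`. Periodicity: `Y1 (x + e₁) = Y1 x + 1`, `g0, g1, G1` periodic,
`pol_add_int`; `Y1 (x + e₂) = Y1 x`.
Injectivity: if `e x = e y` then by `pol_inj` `R1, R2` agree and `Y1, Y2` agree mod `ℤ`. As `g0` is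
periodic, `v2 x.2 - v2 y.2 ∈ ℤ`, and both are in `(0,1)`, so `v2 x.2 = v2 y.2`. Then
`x.1 - y.1 ∈ ℤ`, so `G1 x.1 = G1 y.1` and `v1 x.2 = R2 x + t G1 x.1 = v1 y.2`. `D.hinj`:
`y.2 - x.2 ∈ ℤ`.
Lagrangian: by `fderiv_e` and `om_pol`,
`om (De v) (De w) = dR1 v dY1 w - dR1 w dY1 v + dR2 v dY2 w - dR2 w dY2 v`, which vanishes
identically after unfolding (`ring`: the terms with `g1`, `g2` cancel, and
`G2 v.1 (t v2' w.2) - G2 w.1 (t v2' v.2) - t G2 v.1 v2' w.2 + t G2 w.1 v2' v.2 = 0`).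
Immersion: if `De v = 0` then `dR1 = dY1 = dR2 = dY2 = 0` at `(x, v)` (`pol ≠ 0`, real and
imaginary parts); `dY2 - g1 dY1 = be sin(2πx.2) v.2 = 0`, so `v.1 = dY1 - t (be sin) v.2 = 0`, then
`dR2 = al cos(2πx.2) v.2 = 0`; as `al, be > 0` and `sin² + cos² = 1`, `v.2 = 0`. -/
theorem param_e (D : TorData) : IsLagTorusParam D.e where
  smooth := smooth_e D
  per1 := by
    intro x
    have hY1 : D.Y1 (x.1 + 1, x.2) = D.Y1 x + 1 := by
      unfold Y1
      ring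
    have hR2 : D.R2 (x.1 + 1, x.2) = D.R2 x := by
      unfold R2
      rw [D.pG1]
    have hR1 : D.R1 (x.1 + 1, x.2) = D.R1 x := by
      unfold R1
      rw [D.pG1, hR2, hY1, D.pg1]
    have hY2 : D.Y2 (x.1 + 1, x.2) = D.Y2 x := by
      unfold Y2
      rw [hY1, D.pg0]
    have h1 := pol_add_int (D.R1 x) (D.Y1 x) 1
    rw [Int.cast_one] at h1
    unfold e
    rw [hR1, hY1, hR2, hY2, h1]
  per2 := by
    intro x
    have hY1 : D.Y1 (x.1, x.2 + 1) = D.Y1 x := by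
      unfold Y1
      rw [D.pv2]
    have hR2 : D.R2 (x.1, x.2 + 1) = D.R2 x := by
      unfold R2
      rw [D.pv1]
    have hR1 : D.R1 (x.1, x.2 + 1) = D.R1 x := by
      unfold R1
      rw [hR2, hY1]
    have hY2 : D.Y2 (x.1, x.2 + 1) = D.Y2 x := by
      unfold Y2
      rw [hY1, D.pv2]
    unfold e
    rw [hR1, hY1, hR2, hY2]
  inj := by
    intro x y hxy
    have h1 : pol (D.R1 x) (D.Y1 x) = pol (D.R1 y) (D.Y1 y) := congrArg Prod.fst hxy
    have h2 : pol (D.R2 x) (D.Y2 x) = pol (D.R2 y) (D.Y2 y) := congrArg Prod.snd hxy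
    obtain ⟨-, n, hn⟩ := pol_inj (D.R1_pos x) (D.R1_pos y) h1
    obtain ⟨hR, m, hm⟩ := pol_inj (D.R2_pos x) (D.R2_pos y) h2
    have h3 : D.g0 (D.Y1 y) = D.g0 (D.Y1 x) := by
      rw [hn]
      exact TorP_int D.pg0 _ n
    unfold Y2 at hm
    rw [h3] at hm
    have h4 : D.v2 y.2 = D.v2 x.2 + m := by linarith
    have h5 := D.hv2 x.2
    have h6 := D.hv2' x.2
    have h7 := D.hv2 y.2
    have h8 := D.hv2' y.2
    have hm0 : m = 0 := by
      have h9 : (m : ℝ) < 1 := by linarith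
      have h10 : (-1 : ℝ) < m := by linarith
      have h11 : m < 1 := by exact_mod_cast h9
      have h12 : -1 < m := by exact_mod_cast h10
      omega
    rw [hm0, Int.cast_zero, add_zero] at h4
    unfold Y1 at hn
    rw [h4] at hn
    have h13 : y.1 = x.1 + n := by linarith
    unfold R2 at hR
    have h14 : D.G1 y.1 = D.G1 x.1 := by
      rw [h13]
      exact TorP_int D.pG1 _ n
    rw [h14] at hR
    have h15 : D.v1 x.2 = D.v1 y.2 := by linarith
    obtain ⟨k, hk⟩ := D.hinj x.2 y.2 h15 h4.symm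
    exact ⟨n, k, Prod.ext h13 hk⟩
  imm := by
    intro x
    rw [injective_iff_map_eq_zero]
    intro v hv
    rw [fderiv_e, Prod.mk_eq_zero] at hv
    obtain ⟨-, hY1⟩ := TorP_zero (D.R1_pos x) _ _ _ hv.1
    obtain ⟨hR2, hY2⟩ := TorP_zero (D.R2_pos x) _ _ _ hv.2
    unfold dY2 at hY2
    rw [hY1, mul_zero, add_zero] at hY2
    unfold dY1 at hY1
    have h1 : v.1 = 0 := by
      have : D.t * (D.be * Real.sin (2 * π * x.2)) * v.2
          = D.t * (D.be * Real.sin (2 * π * x.2) * v.2) := by ring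
      rw [this, hY2, mul_zero, add_zero] at hY1
      exact hY1
    unfold dR2 at hR2
    rw [h1, mul_zero, sub_zero] at hR2
    have h2 : Real.sin (2 * π * x.2) * v.2 = 0 := by
      rw [mul_assoc] at hY2
      exact (mul_eq_zero.mp hY2).resolve_left D.hbe.ne'
    have h3 : Real.cos (2 * π * x.2) * v.2 = 0 := by
      rw [mul_assoc] at hR2
      exact (mul_eq_zero.mp hR2).resolve_left (D.hal x.2).ne'
    have h4 : v.2 = 0 := by
      have h5 := Real.sin_sq_add_cos_sq (2 * π * x.2)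
      calc v.2 = (Real.sin (2 * π * x.2) ^ 2 + Real.cos (2 * π * x.2) ^ 2) * v.2 := by
            rw [h5, one_mul]
        _ = Real.sin (2 * π * x.2) * (Real.sin (2 * π * x.2) * v.2)
            + Real.cos (2 * π * x.2) * (Real.cos (2 * π * x.2) * v.2) := by ring
        _ = 0 := by rw [h2, h3]; ring
    exact Prod.ext h1 h4
  lag := by
    intro x v w
    rw [fderiv_e, fderiv_e, TorP_om]
    have h1 := om_pol (D.R1_pos x) (Y := D.Y1 x) (D.dR1 x v) (D.dY1 x v) (D.dR1 x w) (D.dY1 x w)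
    have h2 := om_pol (D.R2_pos x) (Y := D.Y2 x) (D.dR2 x v) (D.dY2 x v) (D.dR2 x w) (D.dY2 x w)
    simp only at h1 h2
    rw [h1, h2]
    unfold dR1 dY2 dR2 dY1
    ring

/-- PROOF. By `fderiv_e` and `lam_pol`, `lam (e x) (De v) = R1 dY1 + R2 dY2`. Primitive:
`F x = 2 x.1 + G0 x.1 + g0 (Y1 x) + N x.2 + 2 t v2 x.2`: indeed
`R1 dY1 + R2 dY2 = (2 + G1 - (R2 - 1) g1) dY1 + R2 (v2' + g1 dY1)
= (2 + G1 + g1) dY1 + R2 v2' v.2 = (2 + G1) (v.1 + t v2' v.2) + g1 dY1 + (v1 - t G1) v2' v.2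
= (2 + G1) v.1 + g1 dY1 + (v1 + 2 t) v2' v.2`, where `v2' = be sin(2πx.2)`. -/
theorem area_e (D : TorData) : HasArea D.e (2, 1) := by
  have hY1d : ∀ x : ℝ × ℝ, HasFDerivAt D.Y1 (ContinuousLinearMap.fst ℝ ℝ ℝ
      + D.t • (D.be * Real.sin (2 * π * x.2)) • ContinuousLinearMap.snd ℝ ℝ ℝ) x := by
    intro x
    have h1 : HasFDerivAt (fun x : ℝ × ℝ => D.v2 x.2)
        ((D.be * Real.sin (2 * π * x.2)) • ContinuousLinearMap.snd ℝ ℝ ℝ) x :=
      (D.dv2 x.2).comp_hasFDerivAt x hasFDerivAt_snd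
    exact hasFDerivAt_fst.add (h1.const_mul D.t)
  have hd : ∀ x : ℝ × ℝ, HasFDerivAt
      (fun x : ℝ × ℝ => 2 * x.1 + D.G0 x.1 + D.g0 (D.Y1 x) + D.N x.2 + 2 * D.t * D.v2 x.2)
      ((2 : ℝ) • ContinuousLinearMap.fst ℝ ℝ ℝ + D.G1 x.1 • ContinuousLinearMap.fst ℝ ℝ ℝ
        + D.g1 (D.Y1 x) • (ContinuousLinearMap.fst ℝ ℝ ℝ
          + D.t • (D.be * Real.sin (2 * π * x.2)) • ContinuousLinearMap.snd ℝ ℝ ℝ)
        + (D.v1 x.2 * (D.be * Real.sin (2 * π * x.2))) • ContinuousLinearMap.snd ℝ ℝ ℝ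
        + (2 * D.t) • (D.be * Real.sin (2 * π * x.2)) • ContinuousLinearMap.snd ℝ ℝ ℝ) x := by
    intro x
    have h0 : HasFDerivAt (fun x : ℝ × ℝ => 2 * x.1)
        ((2 : ℝ) • ContinuousLinearMap.fst ℝ ℝ ℝ) x := hasFDerivAt_fst.const_mul 2
    have h1 : HasFDerivAt (fun x : ℝ × ℝ => D.G0 x.1)
        (D.G1 x.1 • ContinuousLinearMap.fst ℝ ℝ ℝ) x :=
      (D.dG0 x.1).comp_hasFDerivAt x hasFDerivAt_fst
    have h2 : HasFDerivAt (fun x : ℝ × ℝ => D.g0 (D.Y1 x))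
        (D.g1 (D.Y1 x) • (ContinuousLinearMap.fst ℝ ℝ ℝ
          + D.t • (D.be * Real.sin (2 * π * x.2)) • ContinuousLinearMap.snd ℝ ℝ ℝ)) x :=
      (D.dg0 (D.Y1 x)).comp_hasFDerivAt x (hY1d x)
    have h3 : HasFDerivAt (fun x : ℝ × ℝ => D.N x.2)
        ((D.v1 x.2 * (D.be * Real.sin (2 * π * x.2))) • ContinuousLinearMap.snd ℝ ℝ ℝ) x :=
      (D.dN x.2).comp_hasFDerivAt x hasFDerivAt_snd
    have h4 : HasFDerivAt (fun x : ℝ × ℝ => D.v2 x.2)
        ((D.be * Real.sin (2 * π * x.2)) • ContinuousLinearMap.snd ℝ ℝ ℝ) x :=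
      (D.dv2 x.2).comp_hasFDerivAt x hasFDerivAt_snd
    exact (((h0.add h1).add h2).add h3).add (h4.const_mul (2 * D.t))
  refine ⟨fun x => 2 * x.1 + D.G0 x.1 + D.g0 (D.Y1 x) + D.N x.2 + 2 * D.t * D.v2 x.2,
    fun x => (hd x).differentiableAt, ?_, ?_, ?_⟩
  · intro x v
    rw [(hd x).fderiv, fderiv_e]
    have h1 := lam_pol (D.R1_pos x) (Y := D.Y1 x) (D.dR1 x v) (D.dY1 x v)
    have h2 := lam_pol (D.R2_pos x) (Y := D.Y2 x) (D.dR2 x v) (D.dY2 x v)
    simp only at h1 h2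
    unfold lam
    have h3 : D.e x = (pol (D.R1 x) (D.Y1 x), pol (D.R2 x) (D.Y2 x)) := rfl
    rw [h3, TorP_om, add_div, h1, h2]
    simp only [ContinuousLinearMap.add_apply, ContinuousLinearMap.smul_apply,
      ContinuousLinearMap.coe_fst', ContinuousLinearMap.coe_snd', smul_eq_mul]
    unfold R1 dY2 R2 dY1
    ring
  · intro x
    have hY1 : D.Y1 (x.1 + 1, x.2) = D.Y1 x + 1 := by
      unfold Y1
      ring
    show 2 * (x.1 + 1) + D.G0 (x.1 + 1) + D.g0 (D.Y1 (x.1 + 1, x.2)) + D.N x.2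
      + 2 * D.t * D.v2 x.2 = _
    rw [hY1, D.pG0, D.pg0]
    ring
  · intro x
    have hY1 : D.Y1 (x.1, x.2 + 1) = D.Y1 x := by
      unfold Y1
      rw [D.pv2]
    show 2 * x.1 + D.G0 x.1 + D.g0 (D.Y1 (x.1, x.2 + 1)) + D.N (x.2 + 1)
      + 2 * D.t * D.v2 (x.2 + 1) = _
    rw [hY1, D.pN, D.pv2]
    ring

end TorData

end MPe5ca60
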