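import Pool.Agent.Lib.MP_e5ca60_gt.Defs

/-!
# MP_e5ca60_gt, module Trig

The trigonometric inequality.
-/

namespace MPe5ca60

open scoped ContDiff Real
open Set

/-- `G' = A (cos 2πx + ½ cos 4πx)` and `g' = (2A/5) cos 2π(x - 1/32)`: at every `x, y` with
`x ≤ y ≤ x + 1/16` where `G' x = g' y`, the common value is at least `A * (3/50)`. -/
theorem trig_ineq {A x y : ℝ} (hA : 0 < A) (h1 : x ≤ y) (h2 : y ≤ x + 1 / 16)
    (h : A * (Real.cos (2 * π * x) + Real.cos (4 * π * x) / 2) =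
      2 * A / 5 * Real.cos (2 * π * (y - 1 / 32))) :
    3 / 50 * A ≤ A * (Real.cos (2 * π * x) + Real.cos (4 * π * x) / 2) := by
  have hπ : π < 3.15 := Real.pi_lt_d2
  have hπ0 := Real.pi_pos
  set C := Real.cos (2 * π * x) with hC
  set S := Real.sin (2 * π * x) with hS
  set d : ℝ := 2 * π * (y - 1 / 32 - x) with hd
  have e1 : Real.cos (4 * π * x) = 2 * C ^ 2 - 1 := by
    rw [hC, ← Real.cos_two_mul]; ring_nf
  have e2 : Real.cos (2 * π * (y - 1 / 32)) = C * Real.cos d - S * Real.sin d := by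
    rw [hC, hS, ← Real.cos_add]; congr 1; rw [hd]; ring
  have hd1 : |d| ≤ 1 / 5 := by
    rw [hd, abs_le]
    constructor <;> nlinarith
  have hd2 : |Real.sin d| ≤ 1 / 5 := (Real.abs_sin_le_abs).trans hd1
  have hd3 : 49 / 50 ≤ Real.cos d := by
    have k1 := Real.one_sub_sq_div_two_le_cos (x := d)
    have k2 : d ^ 2 ≤ (1 / 5) ^ 2 := by
      rw [← sq_abs]; gcongr
    nlinarith
  have hd4 := Real.cos_le_one d
  have hC1 := Real.cos_le_one (2 * π * x)
  have hC0 := Real.neg_one_le_cos (2 * π * x)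
  have hS1 : |S| ≤ 1 := Real.abs_sin_le_one _
  rw [e1, e2] at h
  rw [e1]
  have h' : C + (2 * C ^ 2 - 1) / 2 = 2 / 5 * (C * Real.cos d - S * Real.sin d) := by
    have : A * (C + (2 * C ^ 2 - 1) / 2) = A * (2 / 5 * (C * Real.cos d - S * Real.sin d)) := by
      rw [h]; ring
    exact mul_left_cancel₀ hA.ne' this
  have hSd : |S * Real.sin d| ≤ 1 / 5 := by
    rw [abs_mul]
    calc |S| * |Real.sin d| ≤ 1 * (1 / 5) := mul_le_mul hS1 hd2 (abs_nonneg _) (by norm_num)
      _ = 1 / 5 := by norm_num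
  have hSd' := abs_le.mp hSd
  by_cases hc : 2 / 5 < C
  · have k0 : 3 / 50 ≤ C + (2 * C ^ 2 - 1) / 2 := by nlinarith
    have k1 := mul_le_mul_of_nonneg_left k0 hA.le
    linarith
  push Not at hc
  exfalso
  by_cases hc0 : C ≤ 0
  · have k1 : C + (2 * C ^ 2 - 1) / 2 ≤ -1 / 2 := by nlinarith
    have k2 : -1 ≤ C * Real.cos d - S * Real.sin d := by
      rw [← e2]; exact Real.neg_one_le_cos _
    linarith
  · push Not at hc0
    have k1 : 49 / 50 * C ≤ C * Real.cos d := by nlinarith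
    nlinarith [hSd'.2, mul_nonneg hc0.le (sub_nonneg.mpr hc)]

end MPe5ca60
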