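import Pool.Agent.Lib.MP_e5ca60_gt.Soft
import Pool.Agent.Lib.MP_e5ca60_gt.Integral
import Pool.Agent.Lib.MP_e5ca60_gt.Polar
import Pool.Agent.Lib.MP_e5ca60_gt.TorP
import Pool.Agent.Lib.MP_e5ca60_gt.TorI
import Pool.Agent.Lib.MP_e5ca60_gt.Curve
import Pool.Agent.Lib.MP_e5ca60_gt.Trig

/-!
# MP_e5ca60_gt: the torus
-/

namespace MPe5ca60

open scoped ContDiff Real
open Set

theorem abs_G1 {A : ℝ} (hA : 0 < A) (x : ℝ) :
    |A * (Real.cos (2 * π * x) + Real.cos (4 * π * x) / 2)| ≤ 3 / 2 * A := by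
  have h1 := Real.cos_le_one (2 * π * x)
  have h2 := Real.neg_one_le_cos (2 * π * x)
  have h3 := Real.cos_le_one (4 * π * x)
  have h4 := Real.neg_one_le_cos (4 * π * x)
  rw [abs_le]
  constructor <;> nlinarith

theorem abs_g1 {A : ℝ} (hA : 0 < A) (x : ℝ) :
    |2 * A / 5 * Real.cos (2 * π * (x - 1 / 32))| ≤ 2 / 5 * A := by
  have h1 := Real.cos_le_one (2 * π * (x - 1 / 32))
  have h2 := Real.neg_one_le_cos (2 * π * (x - 1 / 32))
  rw [abs_le]
  constructor <;> nlinarith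

/-- The data of the torus with amplitude `A`. -/
theorem exists_data {A : ℝ} (hA : 0 < A) (hA' : A ≤ 1 / 20) : ∃ D : TorData, D.t = 1 / 16 ∧
    (∀ x, D.G1 x = A * (Real.cos (2 * π * x) + Real.cos (4 * π * x) / 2)) ∧
    (∀ x, D.g1 x = 2 * A / 5 * Real.cos (2 * π * (x - 1 / 32))) ∧
    (∀ x, D.v1 x < 2 + 3 / 800 * A) := by
  obtain ⟨v1, v2, al, be, N, sv1, sv2, cal, dv1, dv2, dN, pv1, pv2, pal, pN, hal, hbe, hv1, hv1',
    hv2, hv2', hinj⟩ := exists_curve (κ := 3 / 800 * A) (by positivity)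
  have e1 : ∀ x : ℝ, 2 * π * (x + 1) = 2 * π * x + 2 * π := fun x => by ring
  have e2 : ∀ x : ℝ, 4 * π * (x + 1) = 4 * π * x + 2 * π + 2 * π := fun x => by ring
  have e3 : ∀ x : ℝ, 2 * π * (x + 1 - 1 / 32) = 2 * π * (x - 1 / 32) + 2 * π := fun x => by ring
  have hπ := Real.pi_pos
  refine ⟨{
    t := 1 / 16
    G0 := fun x => A * (Real.sin (2 * π * x) / (2 * π) + Real.sin (4 * π * x) / (8 * π))
    G1 := fun x => A * (Real.cos (2 * π * x) + Real.cos (4 * π * x) / 2)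
    G2 := fun x => A * (-(2 * π * Real.sin (2 * π * x)) - 2 * π * Real.sin (4 * π * x))
    g0 := fun x => 2 * A / 5 * (Real.sin (2 * π * (x - 1 / 32)) / (2 * π))
    g1 := fun x => 2 * A / 5 * Real.cos (2 * π * (x - 1 / 32))
    g2 := fun x => 2 * A / 5 * (-(2 * π * Real.sin (2 * π * (x - 1 / 32))))
    v1 := v1, v2 := v2, al := al, be := be, N := N
    sG0 := by fun_prop
    sG1 := by fun_prop
    sG2 := by fun_prop
    sg0 := by fun_prop
    sg1 := by fun_prop
    sg2 := by fun_prop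
    sv1 := sv1, sv2 := sv2, cal := cal
    dG0 := fun x => ?_
    dG1 := fun x => ?_
    dg0 := fun x => ?_
    dg1 := fun x => ?_
    dv1 := dv1, dv2 := dv2, dN := dN
    pG0 := fun x => by simp only [e1, e2, Real.sin_add_two_pi]
    pG1 := fun x => by simp only [e1, e2, Real.cos_add_two_pi]
    pG2 := fun x => by simp only [e1, e2, Real.sin_add_two_pi]
    pg0 := fun x => by simp only [e3, Real.sin_add_two_pi]
    pg1 := fun x => by simp only [e3, Real.cos_add_two_pi]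
    pg2 := fun x => by simp only [e3, Real.sin_add_two_pi]
    pv1 := pv1, pv2 := pv2, pal := pal, pN := pN
    ht0 := by norm_num
    ht1 := by norm_num
    hG1 := fun x => (abs_G1 hA x).trans (by linarith)
    hg1 := fun x => (abs_g1 hA x).trans (by linarith)
    hal := hal, hbe := hbe, hv1 := hv1, hv1' := fun x => (hv1' x).trans (by linarith)
    hv2 := hv2, hv2' := hv2', hinj := hinj }, rfl, fun x => rfl, fun x => rfl, hv1'⟩
  · have h1 : HasDerivAt (fun x : ℝ => 2 * π * x) (2 * π) x := by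
      simpa using (hasDerivAt_id x).const_mul (2 * π)
    have h2 : HasDerivAt (fun x : ℝ => 4 * π * x) (4 * π) x := by
      simpa using (hasDerivAt_id x).const_mul (4 * π)
    have h3 := (((h1.sin).div_const (2 * π)).add ((h2.sin).div_const (8 * π))).const_mul A
    refine h3.congr_deriv ?_
    field_simp
    ring
  · have h1 : HasDerivAt (fun x : ℝ => 2 * π * x) (2 * π) x := by
      simpa using (hasDerivAt_id x).const_mul (2 * π)
    have h2 : HasDerivAt (fun x : ℝ => 4 * π * x) (4 * π) x := by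
      simpa using (hasDerivAt_id x).const_mul (4 * π)
    have h3 := ((h1.cos).add ((h2.cos).div_const 2)).const_mul A
    refine h3.congr_deriv ?_
    ring
  · have h1 : HasDerivAt (fun x : ℝ => 2 * π * (x - 1 / 32)) (2 * π) x := by
      have h0 := ((hasDerivAt_id x).sub_const (1 / 32)).const_mul (2 * π)
      rw [mul_one] at h0
      exact h0
    have h3 := ((h1.sin).div_const (2 * π)).const_mul (2 * A / 5)
    refine h3.congr_deriv ?_
    field_simp
  · have h1 : HasDerivAt (fun x : ℝ => 2 * π * (x - 1 / 32)) (2 * π) x := by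
      have h0 := ((hasDerivAt_id x).sub_const (1 / 32)).const_mul (2 * π)
      rw [mul_one] at h0
      exact h0
    have h3 := (h1.cos).const_mul (2 * A / 5)
    refine h3.congr_deriv ?_
    ring

/-- For every `ε > 0` the polydisk `P(2+ε, 2+ε)` contains an integral Lagrangian torus which is
disjoint from the four product tori and is not Hamiltonian isotopic to `L_{1,1}`. -/
theorem main {ε : ℝ} (hε : 0 < ε) : ∃ L : Set (ℂ × ℂ), IsLagTorus L ∧ IsIntegral L ∧
    L ⊆ polydisk (2 + ε) (2 + ε) ∧ Disjoint L (prodTorus 1 1) ∧ Disjoint L (prodTorus 1 2) ∧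
    Disjoint L (prodTorus 2 1) ∧ Disjoint L (prodTorus 2 2) ∧
    (∀ W : Set (ℂ × ℂ), ¬ HamIsotopic W (prodTorus 1 1) L) ∧
    ∃ e : ℝ × ℝ → ℂ × ℂ, IsLagTorusParam e ∧ Set.range e = L ∧ HasArea e (2, 1) ∧
      HasIndex (Dsq e) (2, 2) := by
  set A : ℝ := min (ε / 4) (1 / 20) with hAdef
  have hA : 0 < A := lt_min (by linarith) (by norm_num)
  have hA1 : A ≤ 1 / 20 := min_le_right _ _
  have hA2 : A ≤ ε / 4 := min_le_left _ _
  obtain ⟨D, ht, hG, hg, hv⟩ := exists_data hA hA1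
  have bG : ∀ x, |D.G1 x| ≤ 3 / 2 * A := fun x => by rw [hG]; exact abs_G1 hA x
  have bg : ∀ x, |D.g1 x| ≤ 2 / 5 * A := fun x => by rw [hg]; exact abs_g1 hA x
  have n1 : ∀ x, π * ‖(D.e x).1‖ ^ 2 = D.R1 x := fun x => pol_norm (D.R1_pos x).le _
  have n2 : ∀ x, π * ‖(D.e x).2‖ ^ 2 = D.R2 x := fun x => pol_norm (D.R2_pos x).le _
  have b2 : ∀ x : ℝ × ℝ, 1 - A / 8 < D.R2 x ∧ D.R2 x < 2 + A / 8 := fun x => by
    have h1 := abs_le.mp (bG x.1)
    have h2 := hv x.2
    have h3 := D.hv1 x.2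
    simp only [TorData.R2, ht]
    constructor <;> linarith [h1.1, h1.2]
  have b1 : ∀ x : ℝ × ℝ, 2 - 3 * A < D.R1 x ∧ D.R1 x < 2 + 3 * A := fun x => by
    have h1 := abs_le.mp (bG x.1)
    have h2 := b2 x
    have h3 := bg (D.Y1 x)
    have h4 : |(D.R2 x - 1) * D.g1 (D.Y1 x)| ≤ 2 * (2 / 5 * A) := by
      rw [abs_mul]
      refine mul_le_mul (abs_le.mpr ⟨by linarith [h2.1], by linarith [h2.2]⟩) h3 (abs_nonneg _)
        (by norm_num)
    have h5 := abs_le.mp h4
    simp only [TorData.R1]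
    constructor <;> linarith [h1.1, h1.2, h5.1, h5.2]
  refine ⟨range D.e, ⟨D.e, D.param_e, rfl⟩, integral_of_area (a := (2, 1)) D.param_e
    (by simpa using D.area_e), ?_, ?_, ?_, ?_, ?_,
    fun W => soft D.param_e D.area_e D.index_e, D.e, D.param_e, rfl, D.area_e, D.index_e⟩
  · rintro _ ⟨x, rfl⟩
    refine ⟨?_, ?_⟩
    · rw [n1]; linarith [(b1 x).2]
    · rw [n2]; linarith [(b2 x).2]
  · rw [Set.disjoint_left]
    rintro _ ⟨x, rfl⟩ ⟨h1, h2⟩
    rw [n1] at h1
    linarith [(b1 x).1]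
  · rw [Set.disjoint_left]
    rintro _ ⟨x, rfl⟩ ⟨h1, h2⟩
    rw [n1] at h1
    linarith [(b1 x).1]
  · rw [Set.disjoint_left]
    rintro _ ⟨x, rfl⟩ ⟨h1, h2⟩
    rw [n1] at h1
    rw [n2] at h2
    have h3 : D.G1 x.1 = 0 := by
      simp only [TorData.R1, h2] at h1
      linarith
    simp only [TorData.R2, h3] at h2
    linarith [D.hv1 x.2]
  · rw [Set.disjoint_left]
    rintro _ ⟨x, rfl⟩ ⟨h1, h2⟩
    rw [n1] at h1
    rw [n2] at h2
    have h3 : D.G1 x.1 = D.g1 (D.Y1 x) := by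
      simp only [TorData.R1, h2] at h1
      linarith
    have hy : D.Y1 x = x.1 + 1 / 16 * D.v2 x.2 := by simp only [TorData.Y1, ht]
    have h4 := trig_ineq (x := x.1) (y := D.Y1 x) hA (by rw [hy]; linarith [D.hv2 x.2])
      (by rw [hy]; linarith [D.hv2' x.2]) (by rw [← hG, ← hg, h3])
    rw [← hG] at h4
    simp only [TorData.R2, ht] at h2
    linarith [hv x.2]

end MPe5ca60
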