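import Pool.Agent.Lib.MP_e5ca60_gt.Defs

/-!
# MP_e5ca60_gt, module HamA

Hamiltonian flows preserve the action of loops.
-/

namespace MPe5ca60

open scoped ContDiff Real
open Set

/-- `om` as a continuous bilinear map -/
private noncomputable def hamA_omL : (ℂ × ℂ) →L[ℝ] (ℂ × ℂ) →L[ℝ] ℝ :=
  LinearMap.toContinuousLinearMap
    ((LinearMap.toContinuousLinearMap : ((ℂ × ℂ) →ₗ[ℝ] ℝ) ≃ₗ[ℝ] ((ℂ × ℂ) →L[ℝ] ℝ)).toLinearMap ∘ₗ
      LinearMap.mk₂ ℝ om
        (by intro a b c; simp only [om, Prod.fst_add, Prod.snd_add, Complex.add_re,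
              Complex.add_im]; ring)
        (by intro r a b; simp only [om, Prod.smul_fst, Prod.smul_snd, Complex.smul_re,
              Complex.smul_im, smul_eq_mul]; ring)
        (by intro a b c; simp only [om, Prod.fst_add, Prod.snd_add, Complex.add_re,
              Complex.add_im]; ring)
        (by intro r a b; simp only [om, Prod.smul_fst, Prod.smul_snd, Complex.smul_re,
              Complex.smul_im, smul_eq_mul]; ring))

private lemma hamA_omL_apply (v w : ℂ × ℂ) : hamA_omL v w = om v w := rfl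

private lemma hamA_om_antisymm (v w : ℂ × ℂ) : om v w = - om w v := by
  simp only [om]; ring

private lemma hamA_om_deriv {A B : ℝ × ℝ → ℂ × ℂ} {A' B' : ℝ × ℝ →L[ℝ] ℂ × ℂ} {x : ℝ × ℝ}
    (hA : HasFDerivAt A A' x) (hB : HasFDerivAt B B' x) :
    ∃ L : ℝ × ℝ →L[ℝ] ℝ, HasFDerivAt (fun y => om (A y) (B y)) L x ∧
      ∀ v, L v = om (A x) (B' v) + om (A' v) (B x) := by
  refine ⟨_, hamA_omL.hasFDerivAt_of_bilinear hA hB, fun v => ?_⟩
  simp [ContinuousLinearMap.precompR_apply, ContinuousLinearMap.precompL_apply,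
    hamA_omL_apply]

/-- PROOF. Let `P (t, s) = φ t (γ s)`, smooth on `ℝ²`, `q (t, s) = lam P P_s = om P P_s / 2`.
Then `q_t = om P_t P_s / 2 + om P P_{st} / 2 = om P_t P_s + (om P P_t / 2)_s`
(since `(om P P_t)_s = om P_s P_t + om P P_{ts}`, `om` antisymmetric, `P_{ts} = P_{st}`), and for
`t ∈ [0,1]` `om P_t P_s = fderiv (H t) P P_s = (H t (P))_s` (chain rule, `P_t = deriv (φ · (γ s)) t`).
So `q_t = K_s` with `K (t, s) = H t (P (t,s)) + om P P_t / 2`, and `K (t, 1) = K (t, 0)` because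
`γ 1 = γ 0`. Hence `∫_0^1 q (1, s) ds - ∫_0^1 q (0, s) ds = ∫_0^1 ∫_0^1 q_t dt ds =
∫_0^1 ∫_0^1 K_s ds dt = 0` (Fubini for continuous functions:
`MeasureTheory.integral_integral_swap` / `intervalIntegral_integral_interchange`-type lemma), and
`P (0, s) = γ s`. -/
theorem ham_area {W : Set (ℂ × ℂ)} {φ : ℝ → ℂ × ℂ → ℂ × ℂ} (hφ : IsHamFlow W φ)
    {γ : ℝ → ℂ × ℂ} (hγ : ContDiff ℝ ∞ γ) (hp : ∀ s, γ (s + 1) = γ s) :
    ∫ s in (0 : ℝ)..1, lam (φ 1 (γ s)) (deriv (fun s => φ 1 (γ s)) s) =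
      ∫ s in (0 : ℝ)..1, lam (γ s) (deriv γ s) := by
  obtain ⟨H, hHs, -, hham⟩ := hφ.ham
  -- the map P
  set P : ℝ × ℝ → ℂ × ℂ := fun x => φ x.1 (γ x.2) with hPdef
  have hPc : ContDiff ℝ ∞ P := by
    have : ContDiff ℝ ∞ (fun x : ℝ × ℝ => ((x.1, γ x.2) : ℝ × (ℂ × ℂ))) :=
      contDiff_fst.prodMk (hγ.comp contDiff_snd)
    exact hφ.smooth.comp this
  have hPd : ∀ x, HasFDerivAt P (fderiv ℝ P x) x := fun x =>
    (hPc.differentiable (by simp) x).hasFDerivAt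
  have hP'c : ContDiff ℝ ∞ (fderiv ℝ P) := hPc.fderiv_right (by simp)
  have hP'd : ∀ x, HasFDerivAt (fderiv ℝ P) (fderiv ℝ (fderiv ℝ P) x) x := fun x =>
    (hP'c.differentiable (by simp) x).hasFDerivAt
  have hsym : ∀ x v w, fderiv ℝ (fderiv ℝ P) x v w = fderiv ℝ (fderiv ℝ P) x w v :=
    fun x v w => second_derivative_symmetric hPd (hP'd x) v w
  have hPe : ∀ (e : ℝ × ℝ) (x : ℝ × ℝ), HasFDerivAt (fun y => fderiv ℝ P y e)
      ((fderiv ℝ (fderiv ℝ P) x).flip e) x := by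
    intro e x
    have := (hP'd x).clm_apply (hasFDerivAt_const e x)
    simpa using this
  have hPec : ∀ e : ℝ × ℝ, ContDiff ℝ ∞ (fun y => fderiv ℝ P y e) := fun e =>
    hP'c.clm_apply contDiff_const
  -- the two derivatives of P
  have hPt : ∀ t s, HasDerivAt (fun τ => φ τ (γ s)) (fderiv ℝ P (t, s) (1, 0)) t := by
    intro t s
    have h1 : HasDerivAt (fun τ : ℝ => ((τ, s) : ℝ × ℝ)) ((1, 0) : ℝ × ℝ) t :=
      (hasDerivAt_id t).prodMk (hasDerivAt_const t s)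
    exact (hPd (t, s)).comp_hasDerivAt t h1
  have hPs : ∀ t s, HasDerivAt (fun σ => φ t (γ σ)) (fderiv ℝ P (t, s) (0, 1)) s := by
    intro t s
    have h1 : HasDerivAt (fun σ : ℝ => ((t, σ) : ℝ × ℝ)) ((0, 1) : ℝ × ℝ) s :=
      (hasDerivAt_const s t).prodMk (hasDerivAt_id s)
    exact (hPd (t, s)).comp_hasDerivAt s h1
  -- the Hamiltonian along P
  set HP : ℝ × ℝ → ℝ := fun x => H x.1 (P x) with hHPdef
  have hHPc : ContDiff ℝ ∞ HP := by
    have : ContDiff ℝ ∞ (fun x : ℝ × ℝ => ((x.1, P x) : ℝ × (ℂ × ℂ))) :=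
      contDiff_fst.prodMk hPc
    exact hHs.comp this
  have hHPd : ∀ x, HasFDerivAt HP (fderiv ℝ HP x) x := fun x =>
    (hHPc.differentiable (by simp) x).hasFDerivAt
  have hHt : ∀ t z, HasFDerivAt (H t) (fderiv ℝ (H t) z) z := by
    intro t z
    have : ContDiff ℝ ∞ (H t) := by
      have h2 : ContDiff ℝ ∞ (fun z : ℂ × ℂ => ((t, z) : ℝ × (ℂ × ℂ))) :=
        contDiff_const.prodMk contDiff_id
      exact hHs.comp h2
    exact (this.differentiable (by simp) z).hasFDerivAt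
  have hHPs : ∀ t ∈ Icc (0 : ℝ) 1, ∀ s, fderiv ℝ HP (t, s) (0, 1) =
      om (fderiv ℝ P (t, s) (1, 0)) (fderiv ℝ P (t, s) (0, 1)) := by
    intro t ht s
    have h1 : HasDerivAt (fun σ : ℝ => ((t, σ) : ℝ × ℝ)) ((0, 1) : ℝ × ℝ) s :=
      (hasDerivAt_const s t).prodMk (hasDerivAt_id s)
    have h2 : HasDerivAt (fun σ => H t (φ t (γ σ))) (fderiv ℝ HP (t, s) (0, 1)) s :=
      (hHPd (t, s)).comp_hasDerivAt s h1
    have h3 : HasDerivAt (fun σ => H t (φ t (γ σ)))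
        (fderiv ℝ (H t) (φ t (γ s)) (fderiv ℝ P (t, s) (0, 1))) s :=
      (hHt t (φ t (γ s))).comp_hasDerivAt s (hPs t s)
    rw [h2.unique h3, ← hham t ht, (hPt t s).deriv]
  -- q and K
  have hq : ∀ x : ℝ × ℝ, ∃ L : ℝ × ℝ →L[ℝ] ℝ,
      HasFDerivAt (fun y => om (P y) (fderiv ℝ P y (0, 1)) / 2) L x ∧
      L (1, 0) = (om (P x) (fderiv ℝ (fderiv ℝ P) x (1, 0) (0, 1))
        + om (fderiv ℝ P x (1, 0)) (fderiv ℝ P x (0, 1))) / 2 := by
    intro x
    obtain ⟨L, hL, hLv⟩ := hamA_om_deriv (hPd x) (hPe (0, 1) x)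
    refine ⟨(1 / 2 : ℝ) • L, ?_, ?_⟩
    · have := hL.const_smul (1 / 2 : ℝ)
      refine this.congr_of_eventuallyEq (Filter.Eventually.of_forall fun y => ?_)
      simp only [Pi.smul_apply, smul_eq_mul]; ring
    · simp only [smul_apply, hLv, smul_eq_mul,
        ContinuousLinearMap.flip_apply]
      ring
  have hK : ∀ x : ℝ × ℝ, ∃ L : ℝ × ℝ →L[ℝ] ℝ,
      HasFDerivAt (fun y => -(HP y + om (P y) (fderiv ℝ P y (1, 0)) / 2)) L x ∧
      L (0, 1) = -(fderiv ℝ HP x (0, 1) + (om (P x) (fderiv ℝ (fderiv ℝ P) x (0, 1) (1, 0))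
        + om (fderiv ℝ P x (0, 1)) (fderiv ℝ P x (1, 0))) / 2) := by
    intro x
    obtain ⟨L, hL, hLv⟩ := hamA_om_deriv (hPd x) (hPe (1, 0) x)
    refine ⟨-(fderiv ℝ HP x + (1 / 2 : ℝ) • L), ?_, ?_⟩
    · have := ((hHPd x).add (hL.const_smul (1 / 2 : ℝ))).neg
      refine this.congr_of_eventuallyEq (Filter.Eventually.of_forall fun y => ?_)
      simp only [Pi.neg_apply, Pi.add_apply, Pi.smul_apply, smul_eq_mul]; ring
    · simp only [neg_apply, add_apply,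
        smul_apply, hLv, smul_eq_mul, ContinuousLinearMap.flip_apply]
      ring
  choose q' hq1 hq2 using hq
  choose K' hK1 hK2 using hK
  have hzero : ∀ x ∈ Icc (0 : ℝ) 1 ×ˢ Icc (0 : ℝ) 1, q' x (1, 0) + K' x (0, 1) = 0 := by
    rintro ⟨t, s⟩ ⟨ht, hs⟩
    rw [hq2, hK2, hHPs t ht s, hsym (t, s) (0, 1) (1, 0),
      hamA_om_antisymm (fderiv ℝ P (t, s) (0, 1)) (fderiv ℝ P (t, s) (1, 0))]
    ring
  have hdiv := MeasureTheory.integral2_divergence_prod_of_hasFDerivAt_off_countable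
    (fun y : ℝ × ℝ => om (P y) (fderiv ℝ P y (0, 1)) / 2)
    (fun y : ℝ × ℝ => -(HP y + om (P y) (fderiv ℝ P y (1, 0)) / 2)) q' K' 0 0 1 1 ∅
    countable_empty
    (fun x _ => (hq1 x).continuousAt.continuousWithinAt)
    (fun x _ => (hK1 x).continuousAt.continuousWithinAt)
    (fun x _ => hq1 x) (fun x _ => hK1 x) ?_
  · have hLHS : (∫ x in (0 : ℝ)..1, ∫ y in (0 : ℝ)..1, q' (x, y) (1, 0) + K' (x, y) (0, 1))
        = 0 := by
      rw [intervalIntegral.integral_congr (g := fun _ => (0 : ℝ))]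
      · simp
      · intro x hx
        rw [uIcc_of_le zero_le_one] at hx
        simp only
        rw [intervalIntegral.integral_congr (g := fun _ => (0 : ℝ))]
        · simp
        · intro y hy
          rw [uIcc_of_le zero_le_one] at hy
          exact hzero (x, y) ⟨hx, hy⟩
    rw [hLHS] at hdiv
    have hγ1 : γ 1 = γ 0 := by have := hp 0; simpa using this
    have hK01 : ∀ x : ℝ, -(HP (x, 1) + om (P (x, 1)) (fderiv ℝ P (x, 1) (1, 0)) / 2)
        = -(HP (x, 0) + om (P (x, 0)) (fderiv ℝ P (x, 0) (1, 0)) / 2) := by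
      intro x
      have e1 : P (x, 1) = P (x, 0) := by simp only [hPdef]; rw [hγ1]
      have e2 : fderiv ℝ P (x, 1) (1, 0) = fderiv ℝ P (x, 0) (1, 0) := by
        rw [← (hPt x 1).deriv, ← (hPt x 0).deriv, hγ1]
      have e3 : HP (x, 1) = HP (x, 0) := by simp only [hHPdef]; rw [e1]
      rw [e1, e2, e3]
    simp only [hK01] at hdiv
    have e1 : ∀ y : ℝ, om (P (1, y)) (fderiv ℝ P (1, y) (0, 1)) / 2
        = lam (φ 1 (γ y)) (deriv (fun s => φ 1 (γ s)) y) := by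
      intro y
      rw [(hPs 1 y).deriv]; rfl
    have e0 : ∀ y : ℝ, om (P (0, y)) (fderiv ℝ P (0, y) (0, 1)) / 2
        = lam (γ y) (deriv γ y) := by
      intro y
      have h1 : deriv γ y = fderiv ℝ P (0, y) (0, 1) := by
        rw [← (hPs 0 y).deriv]
        congr 1
        funext s
        exact (hφ.zero (γ s)).symm
      have h2 : P (0, y) = γ y := hφ.zero (γ y)
      rw [h1, h2]; rfl
    simp only [e1, e0] at hdiv
    linarith
  · have hz : MeasureTheory.IntegrableOn (fun _ : ℝ × ℝ => (0 : ℝ)) (uIcc (0 : ℝ) 1 ×ˢ uIcc (0 : ℝ) 1) :=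
      MeasureTheory.integrableOn_zero
    refine hz.congr_fun ?_ (measurableSet_uIcc.prod measurableSet_uIcc)
    rintro x hx
    rw [uIcc_of_le zero_le_one] at hx
    exact (hzero x hx).symm

end MPe5ca60
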