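import Pool.Agent.Lib.MP_e5ca60_gt.HamS
import Pool.Agent.Lib.MP_e5ca60_gt.Lin
import Pool.Agent.Lib.MP_e5ca60_gt.Index

/-!
# MP_e5ca60_gt, module HamI

Hamiltonian flows preserve the Maslov class (uses HamS, Lin, Index).
-/

namespace MPe5ca60

open scoped ContDiff Real
open Set

private lemma HamI_om_inj {v : ℂ × ℂ} (h : ∀ w, om v w = 0) : v = 0 := by
  have h1 := h (1, 0)
  have h2 := h (Complex.I, 0)
  have h3 := h (0, 1)
  have h4 := h (0, Complex.I)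
  simp only [om, Complex.one_re, Complex.one_im, Complex.zero_re, Complex.zero_im, Complex.I_re,
    Complex.I_im, mul_zero, mul_one, zero_sub, sub_zero, add_zero, zero_add, neg_eq_zero]
    at h1 h2 h3 h4
  apply Prod.ext
  · exact Complex.ext h2 h1
  · exact Complex.ext h4 h3

private lemma HamI_slice {φ : ℝ → ℂ × ℂ → ℂ × ℂ}
    (hφ : ContDiff ℝ ∞ (fun p : ℝ × (ℂ × ℂ) => φ p.1 p.2)) (t : ℝ) (z : ℂ × ℂ) :
    HasFDerivAt (φ t) ((fderiv ℝ (fun p : ℝ × (ℂ × ℂ) => φ p.1 p.2) (t, z)).comp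
      (ContinuousLinearMap.inr ℝ ℝ (ℂ × ℂ))) z := by
  have h1 : HasFDerivAt (fun p : ℝ × (ℂ × ℂ) => φ p.1 p.2)
      (fderiv ℝ (fun p : ℝ × (ℂ × ℂ) => φ p.1 p.2) (t, z)) (t, z) :=
    ((hφ.differentiable (by simp)) (t, z)).hasFDerivAt
  have h2 : HasFDerivAt (fun z : ℂ × ℂ => ((t, z) : ℝ × (ℂ × ℂ)))
      (ContinuousLinearMap.inr ℝ ℝ (ℂ × ℂ)) z := hasFDerivAt_prodMk_right t z
  exact h1.comp z h2

private lemma HamI_fderiv {φ : ℝ → ℂ × ℂ → ℂ × ℂ}
    (hφ : ContDiff ℝ ∞ (fun p : ℝ × (ℂ × ℂ) => φ p.1 p.2)) {e : ℝ × ℝ → ℂ × ℂ}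
    (he : ContDiff ℝ ∞ e) (t : ℝ) (x : ℝ × ℝ) :
    HasFDerivAt (fun x => φ t (e x)) ((fderiv ℝ (φ t) (e x)).comp (fderiv ℝ e x)) x := by
  have h1 := HamI_slice hφ t (e x)
  have h2 : HasFDerivAt e (fderiv ℝ e x) x := ((he.differentiable (by simp)) x).hasFDerivAt
  rw [h1.fderiv]
  exact h1.comp x h2

private lemma HamI_per {f : ℝ × ℝ → ℂ × ℂ} (a : ℝ × ℝ) (h : ∀ x, f (x + a) = f x) (x : ℝ × ℝ) :
    Dsq f (x + a) = Dsq f x := by
  have h1 : fderiv ℝ f (x + a) = fderiv ℝ f x := by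
    rw [← fderiv_comp_add_right]
    congr 1
    funext y
    exact h y
  rw [Dsq, Dsq, h1]

/-- PROOF. For `t ∈ [0,1]` let `e_t x = φ t (e x)`; `fderiv e_t x v = fderiv (φ t) (e x)
(fderiv e x v)`. By `ham_symp`, `fderiv (φ t) z` is injective (if `fderiv (φ t) z v = 0` then
`om v w = 0` for all `w`, so `v = 0`: take `w = (I v.1, I v.2)`) and
`om (fderiv e_t x v) (fderiv e_t x w) = om (fderiv e x v) (fderiv e x w) = 0`. So `Dsq e_t x ≠ 0`
by `Dsq_ne_zero`. `f t x = Dsq e_t x` is continuous on `ℝ × ℝ²`: with `Φ (t,z) = φ t z`,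
`fderiv (φ t) (e x) u = fderiv Φ (t, e x) (0, u)`. It is periodic in `x`. For `t = 0`, `e_0 = e`.
Apply `index_homotopy`. -/
theorem ham_index {W : Set (ℂ × ℂ)} {φ : ℝ → ℂ × ℂ → ℂ × ℂ} (hφ : IsHamFlow W φ)
    {e : ℝ × ℝ → ℂ × ℂ} (he : IsLagTorusParam e) {w : ℤ × ℤ} (hw : HasIndex (Dsq e) w) :
    (∀ x, Function.Injective (fderiv ℝ (fun x => φ 1 (e x)) x)) ∧
      HasIndex (Dsq (fun x => φ 1 (e x))) w := by
  have hd : ∀ (t : ℝ) (x v : ℝ × ℝ), fderiv ℝ (fun x => φ t (e x)) x v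
      = fderiv ℝ (φ t) (e x) (fderiv ℝ e x v) := by
    intro t x v
    rw [(HamI_fderiv hφ.smooth he.smooth t x).fderiv]
    rfl
  have hinj : ∀ t ∈ Icc (0 : ℝ) 1, ∀ x, Function.Injective (fderiv ℝ (fun x => φ t (e x)) x) := by
    intro t ht x
    rw [injective_iff_map_eq_zero]
    intro v hv
    rw [hd] at hv
    have h1 : fderiv ℝ e x v = 0 := by
      apply HamI_om_inj
      intro w
      rw [← ham_symp hφ ht (e x), hv]
      simp [om]
    exact (injective_iff_map_eq_zero _).mp (he.imm x) v h1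
  have hlag : ∀ t ∈ Icc (0 : ℝ) 1, ∀ x v w, om (fderiv ℝ (fun x => φ t (e x)) x v)
      (fderiv ℝ (fun x => φ t (e x)) x w) = 0 := by
    intro t ht x v w
    rw [hd, hd, ham_symp hφ ht (e x)]
    exact he.lag x v w
  refine ⟨hinj 1 ⟨zero_le_one, le_rfl⟩, ?_⟩
  have hcont : Continuous (fun p : ℝ × (ℝ × ℝ) => Dsq (fun x => φ p.1 (e x)) p.2) := by
    have hΦ : Continuous (fderiv ℝ (fun p : ℝ × (ℂ × ℂ) => φ p.1 p.2)) :=
      hφ.smooth.continuous_fderiv (by simp)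
    have hE : Continuous (fderiv ℝ e) := he.smooth.continuous_fderiv (by simp)
    have hcol : ∀ u : ℝ × ℝ, Continuous (fun p : ℝ × (ℝ × ℝ) =>
        fderiv ℝ (fun x => φ p.1 (e x)) p.2 u) := by
      intro u
      have h1 : (fun p : ℝ × (ℝ × ℝ) => fderiv ℝ (fun x => φ p.1 (e x)) p.2 u)
          = fun p : ℝ × (ℝ × ℝ) => fderiv ℝ (fun p : ℝ × (ℂ × ℂ) => φ p.1 p.2) (p.1, e p.2)
            ((0 : ℝ), fderiv ℝ e p.2 u) := by
        funext p
        rw [hd, (HamI_slice hφ.smooth p.1 (e p.2)).fderiv]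
        rfl
      rw [h1]
      have h2 : Continuous (fun p : ℝ × (ℝ × ℝ) => ((p.1, e p.2) : ℝ × (ℂ × ℂ))) :=
        continuous_fst.prodMk (he.smooth.continuous.comp continuous_snd)
      have h3 : Continuous (fun p : ℝ × (ℝ × ℝ) => (((0 : ℝ), fderiv ℝ e p.2 u) : ℝ × (ℂ × ℂ))) :=
        continuous_const.prodMk ((hE.comp continuous_snd).clm_apply continuous_const)
      exact (hΦ.comp h2).clm_apply h3
    have h1 := hcol (1, 0)
    have h2 := hcol (0, 1)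
    unfold Dsq dt
    exact (((continuous_fst.comp h1).mul (continuous_snd.comp h2)).sub
      ((continuous_snd.comp h1).mul (continuous_fst.comp h2))).pow 2
  refine index_homotopy (fun t x => Dsq (fun x => φ t (e x)) x) hcont.continuousOn ?_ ?_ ?_ ?_
  · intro t ht x
    exact Dsq_ne_zero (hinj t ht x) (hlag t ht x)
  · intro t _ x
    have h1 := HamI_per (f := fun x => φ t (e x)) (1, 0) (fun y => by
      have : y + ((1 : ℝ), (0 : ℝ)) = (y.1 + 1, y.2) := by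
        ext <;> simp
      rw [this, he.per1]) x
    have h2 : x + ((1 : ℝ), (0 : ℝ)) = (x.1 + 1, x.2) := by
      ext <;> simp
    rw [h2] at h1
    exact h1
  · intro t _ x
    have h1 := HamI_per (f := fun x => φ t (e x)) (0, 1) (fun y => by
      have : y + ((0 : ℝ), (1 : ℝ)) = (y.1, y.2 + 1) := by
        ext <;> simp
      rw [this, he.per2]) x
    have h2 : x + ((0 : ℝ), (1 : ℝ)) = (x.1, x.2 + 1) := by
      ext <;> simp
    rw [h2] at h1
    exact h1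
  · have h1 : (fun x => φ 0 (e x)) = e := by
      funext x
      exact hφ.zero _
    show HasIndex (Dsq (fun x => φ 0 (e x))) w
    rw [h1]
    exact hw

end MPe5ca60
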