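import Pool.Agent.Lib.MP_e5ca60_gt.Defs

/-!
# MP_e5ca60_gt, module HamS

Hamiltonian flows are symplectic.
-/

namespace MPe5ca60

open scoped ContDiff Real
open Set

/-- The symplectic form is differentiable along curves. -/
private theorem hamS_om_hasDerivAt {a b : ℝ → ℂ × ℂ} {a' b' : ℂ × ℂ} {t : ℝ}
    (ha : HasDerivAt a a' t) (hb : HasDerivAt b b' t) :
    HasDerivAt (fun s => om (a s) (b s)) (om a' (b t) + om (a t) b') t := by
  have key : ∀ (L : (ℂ × ℂ) →L[ℝ] ℝ) {c : ℝ → ℂ × ℂ} {c' : ℂ × ℂ}, HasDerivAt c c' t →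
      HasDerivAt (fun s => L (c s)) (L c') t := fun L c c' hc =>
    L.hasFDerivAt.comp_hasDerivAt t hc
  let x1 : (ℂ × ℂ) →L[ℝ] ℝ := Complex.reCLM.comp (ContinuousLinearMap.fst ℝ ℂ ℂ)
  let y1 : (ℂ × ℂ) →L[ℝ] ℝ := Complex.imCLM.comp (ContinuousLinearMap.fst ℝ ℂ ℂ)
  let x2 : (ℂ × ℂ) →L[ℝ] ℝ := Complex.reCLM.comp (ContinuousLinearMap.snd ℝ ℂ ℂ)
  let y2 : (ℂ × ℂ) →L[ℝ] ℝ := Complex.imCLM.comp (ContinuousLinearMap.snd ℝ ℂ ℂ)
  have h := (((key x1 ha).mul (key y1 hb)).sub ((key y1 ha).mul (key x1 hb))).add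
    (((key x2 ha).mul (key y2 hb)).sub ((key y2 ha).mul (key x2 hb)))
  refine h.congr_deriv ?_
  change (a'.1.re * (b t).1.im + (a t).1.re * b'.1.im
      - (a'.1.im * (b t).1.re + (a t).1.im * b'.1.re))
    + (a'.2.re * (b t).2.im + (a t).2.re * b'.2.im
      - (a'.2.im * (b t).2.re + (a t).2.im * b'.2.re)) = om a' (b t) + om (a t) b'
  unfold om
  ring

private theorem hamS_two_le : (2 : WithTop ℕ∞) ≤ ∞ := WithTop.coe_le_coe.2 le_top

private theorem hamS_om_swap (v w : ℂ × ℂ) : om v w = - om w v := by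
  unfold om
  ring

/-- PROOF. Let `Φ (t, z) = φ t z` (smooth), `ψ (t, z) = deriv (fun τ => φ τ z) t
= fderiv Φ (t,z) (1, 0)` (smooth), `A t v = fderiv ℝ (φ t) z v = fderiv Φ (t,z) (0, v)`. By symmetry
of second derivatives (`ContDiffAt.isSymmSndFDerivAt`), `d/dt (A t v) = fderiv ℝ (ψ (t, ·)) z v`.
Differentiating the equation `om (ψ (t, z)) w = fderiv (H t) (φ t z) w` in `z` in the direction `v`
(for `t ∈ [0,1]`, fixed `w`): `om (D_z ψ v) w = D²H_t(φ t z) (A t v, w)`. Hence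
`d/dt om (A t v) (A t w) = om (D_z ψ v) (A t w) + om (A t v) (D_z ψ w)
 = om (D_z ψ v) (A t w) - om (D_z ψ w) (A t v) = D²H(A t v, A t w) - D²H(A t w, A t v) = 0`
by symmetry of `D²H_t`. At `t = 0` the value is `om v w` since `φ 0 = id`. Conclude with
`constant_of_derivWithin_zero` or `is_const_of_deriv_eq_zero`-type lemma on `[0,1]`. -/
theorem ham_symp {W : Set (ℂ × ℂ)} {φ : ℝ → ℂ × ℂ → ℂ × ℂ} (hφ : IsHamFlow W φ) {t : ℝ}
    (ht : t ∈ Icc (0 : ℝ) 1) (z v w : ℂ × ℂ) :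
    om (fderiv ℝ (φ t) z v) (fderiv ℝ (φ t) z w) = om v w := by
  obtain ⟨H, hH, -, hham⟩ := hφ.ham
  set Φ : ℝ × (ℂ × ℂ) → ℂ × ℂ := fun p => φ p.1 p.2 with hΦ
  have hΦs : ContDiff ℝ ∞ Φ := hφ.smooth
  have hΦd : Differentiable ℝ Φ := hΦs.differentiable (by simp)
  have hDΦs : ContDiff ℝ ∞ (fderiv ℝ Φ) := hΦs.fderiv_right (by simp)
  have hDΦd : Differentiable ℝ (fderiv ℝ Φ) := hDΦs.differentiable (by simp)
  have hsym : ∀ p a b, fderiv ℝ (fderiv ℝ Φ) p a b = fderiv ℝ (fderiv ℝ Φ) p b a := by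
    intro p a b
    exact (hΦs.contDiffAt.isSymmSndFDerivAt (by simpa using hamS_two_le)).eq a b
  -- curves
  have hct : ∀ (s : ℝ) (z : ℂ × ℂ), HasDerivAt (fun τ : ℝ => ((τ, z) : ℝ × (ℂ × ℂ)))
      ((1, 0) : ℝ × (ℂ × ℂ)) s := by
    intro s z
    exact (hasDerivAt_id s).prodMk (hasDerivAt_const s z)
  have hcz : ∀ (s : ℝ) (z v : ℂ × ℂ), HasDerivAt (fun σ : ℝ => ((s, z + σ • v) : ℝ × (ℂ × ℂ)))
      ((0, v) : ℝ × (ℂ × ℂ)) 0 := by
    intro s z v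
    refine (hasDerivAt_const (0 : ℝ) s).prodMk ?_
    have h := ((hasDerivAt_id (0 : ℝ)).smul_const v).const_add z
    simpa using h
  -- the derivative in time
  have hψ : ∀ (s : ℝ) (z : ℂ × ℂ), deriv (fun τ => φ τ z) s = fderiv ℝ Φ (s, z) (1, 0) := by
    intro s z
    exact ((hΦd (s, z)).hasFDerivAt.comp_hasDerivAt s (hct s z)).deriv
  have hA : ∀ (s : ℝ) (z v : ℂ × ℂ), fderiv ℝ (φ s) z v = fderiv ℝ Φ (s, z) (0, v) := by
    intro s z v
    have h1 : HasFDerivAt (fun z : ℂ × ℂ => ((s, z) : ℝ × (ℂ × ℂ)))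
        (ContinuousLinearMap.inr ℝ ℝ (ℂ × ℂ)) z := by
      have := (hasFDerivAt_const s z).prodMk (hasFDerivAt_id (𝕜 := ℝ) z)
      exact this
    have h2 := ((hΦd (s, z)).hasFDerivAt.comp z h1).fderiv
    change fderiv ℝ (φ s) z = _ at h2
    rw [h2]
    rfl
  -- second derivatives
  have hsnd : ∀ (s : ℝ) (z v : ℂ × ℂ), HasDerivAt (fun τ => fderiv ℝ Φ (τ, z) (0, v))
      (fderiv ℝ (fderiv ℝ Φ) (s, z) (0, v) (1, 0)) s := by
    intro s z v
    have h1 := (hDΦd (s, z)).hasFDerivAt.comp_hasDerivAt s (hct s z)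
    have h2 := h1.clm_apply (hasDerivAt_const s ((0, v) : ℝ × (ℂ × ℂ)))
    rw [map_zero, add_zero, hsym] at h2
    exact h2
  -- the differentiated equation
  have heq : ∀ s ∈ Icc (0 : ℝ) 1, ∀ z v w : ℂ × ℂ,
      om (fderiv ℝ (fderiv ℝ Φ) (s, z) (0, v) (1, 0)) w
        = fderiv ℝ (fderiv ℝ (H s)) (φ s z) (fderiv ℝ Φ (s, z) (0, v)) w := by
    intro s hs z v w
    have hHs : ContDiff ℝ ∞ (H s) := by
      have h1 : ContDiff ℝ ∞ (fun z : ℂ × ℂ => ((s, z) : ℝ × (ℂ × ℂ))) :=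
        contDiff_const.prodMk contDiff_id
      exact hH.comp h1
    have hDHs : ContDiff ℝ ∞ (fderiv ℝ (H s)) := hHs.fderiv_right (by simp)
    have hDHd : Differentiable ℝ (fderiv ℝ (H s)) := hDHs.differentiable (by simp)
    have hz0 : z + (0 : ℝ) • v = z := by rw [zero_smul, add_zero]
    have h1 : HasDerivAt (fun σ : ℝ => fderiv ℝ Φ (s, z + σ • v) (1, 0))
        (fderiv ℝ (fderiv ℝ Φ) (s, z) (0, v) (1, 0)) 0 := by
      have h2 : HasFDerivAt (fderiv ℝ Φ) (fderiv ℝ (fderiv ℝ Φ) (s, z)) (s, z + (0 : ℝ) • v) := by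
        rw [hz0]
        exact (hDΦd (s, z)).hasFDerivAt
      have h3 := h2.comp_hasDerivAt (0 : ℝ) (hcz s z v)
      have h4 := h3.clm_apply (hasDerivAt_const (0 : ℝ) ((1, 0) : ℝ × (ℂ × ℂ)))
      rw [map_zero, add_zero] at h4
      exact h4
    have h5 := hamS_om_hasDerivAt h1 (hasDerivAt_const (0 : ℝ) w)
    have h6 : om (fderiv ℝ Φ (s, z + (0 : ℝ) • v) (1, 0)) 0 = 0 := by
      simp [om]
    rw [h6, add_zero] at h5
    have h7 : (fun σ : ℝ => om (fderiv ℝ Φ (s, z + σ • v) (1, 0)) w)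
        = fun σ : ℝ => fderiv ℝ (H s) (Φ (s, z + σ • v)) w := by
      funext σ
      rw [← hψ]
      exact hham s hs (z + σ • v) w
    rw [h7] at h5
    have h8 : HasDerivAt (fun σ : ℝ => Φ (s, z + σ • v)) (fderiv ℝ Φ (s, z) (0, v)) 0 := by
      have h2 : HasFDerivAt Φ (fderiv ℝ Φ (s, z)) (s, z + (0 : ℝ) • v) := by
        rw [hz0]
        exact (hΦd (s, z)).hasFDerivAt
      exact h2.comp_hasDerivAt (0 : ℝ) (hcz s z v)
    have h9 : HasDerivAt (fun σ : ℝ => fderiv ℝ (H s) (Φ (s, z + σ • v)) w)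
        (fderiv ℝ (fderiv ℝ (H s)) (φ s z) (fderiv ℝ Φ (s, z) (0, v)) w) 0 := by
      have h2 : HasFDerivAt (fderiv ℝ (H s)) (fderiv ℝ (fderiv ℝ (H s)) (φ s z))
          (Φ (s, z + (0 : ℝ) • v)) := by
        rw [hz0]
        exact (hDHd (φ s z)).hasFDerivAt
      have h3 := h2.comp_hasDerivAt (0 : ℝ) h8
      have h4 := h3.clm_apply (hasDerivAt_const (0 : ℝ) w)
      rw [map_zero, add_zero] at h4
      exact h4
    exact h5.unique h9
  -- the derivative of the pulled back form vanishes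
  have hder : ∀ s ∈ Icc (0 : ℝ) 1, HasDerivAt
      (fun τ => om (fderiv ℝ Φ (τ, z) (0, v)) (fderiv ℝ Φ (τ, z) (0, w))) 0 s := by
    intro s hs
    have h1 := hamS_om_hasDerivAt (hsnd s z v) (hsnd s z w)
    refine h1.congr_deriv ?_
    have hHs : ContDiff ℝ ∞ (H s) := by
      have h1 : ContDiff ℝ ∞ (fun z : ℂ × ℂ => ((s, z) : ℝ × (ℂ × ℂ))) :=
        contDiff_const.prodMk contDiff_id
      exact hH.comp h1
    have h2 : ∀ a b, fderiv ℝ (fderiv ℝ (H s)) (φ s z) a b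
        = fderiv ℝ (fderiv ℝ (H s)) (φ s z) b a := by
      intro a b
      exact (hHs.contDiffAt.isSymmSndFDerivAt (by simpa using hamS_two_le)).eq a b
    rw [hamS_om_swap (fderiv ℝ Φ (s, z) (0, v)), heq s hs, heq s hs, h2]
    ring
  have hconst := constant_of_has_deriv_right_zero
    (f := fun τ => om (fderiv ℝ Φ (τ, z) (0, v)) (fderiv ℝ Φ (τ, z) (0, w))) (a := 0) (b := 1)
    (fun s hs => (hder s hs).continuousAt.continuousWithinAt)
    (fun s hs => (hder s ⟨hs.1, hs.2.le⟩).hasDerivWithinAt) t ht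
  rw [hA, hA]
  refine hconst.trans ?_
  rw [← hA, ← hA]
  have h0 : φ 0 = id := by
    funext z
    exact hφ.zero z
  rw [h0]
  simp

end MPe5ca60
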