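import Pool.Agent.Lib.MP_e5ca60_gt.Log

/-!
# MP_e5ca60_gt, module Lift

Lifting maps into the torus (uses module Log).
-/

namespace MPe5ca60

open scoped ContDiff Real
open Set

private lemma Lift_per {e : ℝ × ℝ → ℂ × ℂ} (he : IsLagTorusParam e) (m n : ℤ) (a b : ℝ) :
    e (a + m, b + n) = e (a, b) := by
  have h1 : ∀ b : ℝ, Function.Periodic (fun a => e (a, b)) 1 := fun b a => he.per1 (a, b)
  have h2 : ∀ a : ℝ, Function.Periodic (fun b => e (a, b)) 1 := fun a b => he.per2 (a, b)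
  have h3 := (h1 (b + n)).int_mul m a
  have h4 := (h2 a).int_mul n b
  simp only [mul_one] at h3 h4
  rw [h3, h4]

private lemma Lift_exp_int (a : ℝ) (m : ℤ) :
    Complex.exp (2 * π * Complex.I * ((a + m : ℝ) : ℂ)) = Complex.exp (2 * π * Complex.I * (a : ℂ)) := by
  rw [Complex.exp_eq_exp_iff_exists_int]
  refine ⟨m, ?_⟩
  push_cast
  ring

private lemma Lift_exp_eq (a b : ℝ)
    (h : Complex.exp (2 * π * Complex.I * (a : ℂ)) = Complex.exp (2 * π * Complex.I * (b : ℂ))) :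
    ∃ m : ℤ, a = b + m := by
  rw [Complex.exp_eq_exp_iff_exists_int] at h
  obtain ⟨m, hm⟩ := h
  refine ⟨m, ?_⟩
  have h1 : (2 * π * Complex.I : ℂ) ≠ 0 := Complex.two_pi_I_ne_zero
  have h2 : (2 * π * Complex.I : ℂ) * (a : ℂ) = (2 * π * Complex.I : ℂ) * ((b : ℂ) + m) := by
    rw [hm]
    ring
  have h3 := mul_left_cancel₀ h1 h2
  exact_mod_cast h3

/-- A continuous real function with the given circle-valued exponential. -/
private lemma Lift_real {c : ℝ × ℝ → ℂ} (hc : Continuous c) {y : ℝ × ℝ → ℝ}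
    (hy : ∀ x, c x = Complex.exp (2 * π * Complex.I * (y x : ℂ))) :
    ∃ h : ℝ × ℝ → ℝ, Continuous h ∧ ∀ x, ∃ m : ℤ, h x = y x + m := by
  obtain ⟨l, hl, hle⟩ := exists_log hc (fun x => by rw [hy]; exact Complex.exp_ne_zero _)
  refine ⟨fun x => (l x).im / (2 * π), (Complex.continuous_im.comp hl).div_const _, fun x => ?_⟩
  apply Lift_exp_eq
  rw [← hy x, ← hle x]
  congr 1
  have h1 : ‖Complex.exp (l x)‖ = 1 := by
    rw [hle x, hy x, Complex.norm_exp]
    simp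
  rw [Complex.norm_exp, Real.exp_eq_one_iff] at h1
  have hpi : (π : ℂ) ≠ 0 := by exact_mod_cast Real.pi_ne_zero
  have h2 : l x = ((l x).im : ℂ) * Complex.I := by
    conv_lhs => rw [← Complex.re_add_im (l x)]
    rw [h1]
    simp
  push_cast
  conv_rhs => rw [h2]
  field_simp

private lemma Lift_cont {e : ℝ × ℝ → ℂ × ℂ} (he : IsLagTorusParam e) {e' : ℝ × ℝ → ℂ × ℂ}
    (hc : Continuous e') (y : ℝ × ℝ → ℝ × ℝ)
    (hyK : ∀ x, y x ∈ Icc (0 : ℝ) 1 ×ˢ Icc (0 : ℝ) 1) (hye : ∀ x, e (y x) = e' x)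
    (F : ℝ × ℝ → ℂ) (hF : Continuous F)
    (hFi : ∀ x z, e z = e' x → F z = F (y x)) : Continuous (fun x => F (y x)) := by
  have hec : Continuous e := he.smooth.continuous
  have hK : CompactSpace (Icc (0 : ℝ) 1 ×ˢ Icc (0 : ℝ) 1 : Set (ℝ × ℝ)) :=
    isCompact_iff_compactSpace.mp (isCompact_Icc.prod isCompact_Icc)
  rw [continuous_iff_isClosed]
  intro C hC
  have h1 : (fun x => F (y x)) ⁻¹' C
      = (Prod.fst : (ℝ × ℝ) × (Icc (0 : ℝ) 1 ×ˢ Icc (0 : ℝ) 1 : Set (ℝ × ℝ)) → ℝ × ℝ) ''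
        {q | e q.2.1 = e' q.1 ∧ F q.2.1 ∈ C} := by
    ext x
    constructor
    · intro hx
      exact ⟨(x, ⟨y x, hyK x⟩), ⟨hye x, hx⟩, rfl⟩
    · rintro ⟨q, ⟨hq1, hq2⟩, rfl⟩
      show F (y q.1) ∈ C
      rw [← hFi q.1 q.2.1 hq1]
      exact hq2
  rw [h1]
  apply isClosedMap_fst_of_compactSpace
  apply IsClosed.inter
  · exact isClosed_eq (hec.comp (continuous_subtype_val.comp continuous_snd))
      (hc.comp continuous_fst)
  · exact hC.preimage (hF.comp (continuous_subtype_val.comp continuous_snd))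

/-- PROOF. For `j = 1, 2` choose, for every `x`, a point `y x` with `e (y x) = e' x`; by
periodicity (`per1`, `per2`, with `Int.fract`, `Int.floor`) one can take `y x ∈ [0,1]²`. Put
`c_j x = exp (2πi (y x)_j)`. By `he.inj`, `c_j x = exp (2πi z_j)` for every `z` with `e z = e' x`.
`c_j` is continuous: for `C ⊆ ℂ` closed,
`c_j ⁻¹' C = {x | ∃ z ∈ [0,1]², e z = e' x ∧ exp (2πi z_j) ∈ C}` is the projection along the
compact factor `[0,1]²` of a closed set, hence closed (`isClosedMap_snd_of_compactSpace` or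
`IsCompact` tube lemma). `exists_log` gives continuous `l_j` with `exp l_j = c_j`; as `‖c_j‖ = 1`,
`l_j = 2πi h_j` with `h_j = (l_j).im / (2π)` continuous real. Then `h x - y x ∈ ℤ²`
(`Complex.exp_eq_exp_iff_exists_int`), so `e (h x) = e (y x) = e' x` by periodicity. -/
theorem exists_lift {e : ℝ × ℝ → ℂ × ℂ} (he : IsLagTorusParam e) {e' : ℝ × ℝ → ℂ × ℂ}
    (hc : Continuous e') (hr : ∀ x, e' x ∈ range e) :
    ∃ h : ℝ × ℝ → ℝ × ℝ, Continuous h ∧ ∀ x, e (h x) = e' x := by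
  have hy : ∀ x, ∃ y : ℝ × ℝ, y ∈ Icc (0 : ℝ) 1 ×ˢ Icc (0 : ℝ) 1 ∧ e y = e' x := by
    intro x
    obtain ⟨z, hz⟩ := hr x
    refine ⟨(Int.fract z.1, Int.fract z.2), ⟨⟨Int.fract_nonneg _, (Int.fract_lt_one _).le⟩,
      ⟨Int.fract_nonneg _, (Int.fract_lt_one _).le⟩⟩, ?_⟩
    have h1 := Lift_per he ⌊z.1⌋ ⌊z.2⌋ (Int.fract z.1) (Int.fract z.2)
    rw [Int.fract_add_floor, Int.fract_add_floor] at h1
    rw [← h1, ← hz]
  choose y hyK hye using hy
  have hinv : ∀ x z, e z = e' x → ∃ m n : ℤ, z = ((y x).1 + m, (y x).2 + n) := by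
    intro x z hz
    exact he.inj (y x) z (by rw [hye, hz])
  have hc1 : Continuous (fun x => Complex.exp (2 * π * Complex.I * ((y x).1 : ℂ))) := by
    refine Lift_cont he hc y hyK hye (fun z => Complex.exp (2 * π * Complex.I * (z.1 : ℂ)))
      (by fun_prop) ?_
    intro x z hz
    obtain ⟨m, n, rfl⟩ := hinv x z hz
    exact Lift_exp_int _ m
  have hc2 : Continuous (fun x => Complex.exp (2 * π * Complex.I * ((y x).2 : ℂ))) := by
    refine Lift_cont he hc y hyK hye (fun z => Complex.exp (2 * π * Complex.I * (z.2 : ℂ)))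
      (by fun_prop) ?_
    intro x z hz
    obtain ⟨m, n, rfl⟩ := hinv x z hz
    exact Lift_exp_int _ n
  obtain ⟨h1, hh1, hm1⟩ := Lift_real hc1 (y := fun x => (y x).1) (fun x => rfl)
  obtain ⟨h2, hh2, hm2⟩ := Lift_real hc2 (y := fun x => (y x).2) (fun x => rfl)
  refine ⟨fun x => (h1 x, h2 x), hh1.prodMk hh2, fun x => ?_⟩
  obtain ⟨m, hm⟩ := hm1 x
  obtain ⟨n, hn⟩ := hm2 x
  show e (h1 x, h2 x) = e' x
  rw [hm, hn, Lift_per he]
  exact hye x

/-- PROOF. By `he.inj (h x) (h (T x))`, `h (T x) - h x` is an integer vector for every `x`; it is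
continuous, so each component is constant (apply `const_of_exp` to `2πi (h (T x) - h x)_j`). -/
theorem lift_period {e : ℝ × ℝ → ℂ × ℂ} (he : IsLagTorusParam e) {h T : ℝ × ℝ → ℝ × ℝ}
    (hc : Continuous h) (hT : Continuous T) (hper : ∀ x, e (h (T x)) = e (h x)) :
    ∃ m : ℤ × ℤ, ∀ x, h (T x) = h x + ((m.1 : ℝ), (m.2 : ℝ)) := by
  have hint : ∀ x, ∃ m n : ℤ, h (T x) = ((h x).1 + m, (h x).2 + n) :=
    fun x => he.inj (h x) (h (T x)) (hper x).symm
  have key : ∀ (g : ℝ × ℝ → ℝ), Continuous g → (∀ x, ∃ m : ℤ, g x = m) → ∀ x, g x = g 0 := by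
    intro g hg hgm x
    have h1 := const_of_exp (g := fun x => 2 * π * Complex.I * (g x : ℂ)) (by fun_prop)
      (fun x => by
        obtain ⟨m, hm⟩ := hgm x
        rw [hm, Complex.exp_eq_one_iff]
        refine ⟨m, ?_⟩
        push_cast
        ring) x 0
    have h2 := mul_left_cancel₀ Complex.two_pi_I_ne_zero h1
    exact_mod_cast h2
  obtain ⟨m, n, hmn⟩ := hint 0
  have hg1 := key (fun x => (h (T x)).1 - (h x).1)
    ((continuous_fst.comp (hc.comp hT)).sub (continuous_fst.comp hc)) (fun x => by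
      obtain ⟨m, n, h1⟩ := hint x
      exact ⟨m, by rw [h1]; ring⟩)
  have hg2 := key (fun x => (h (T x)).2 - (h x).2)
    ((continuous_snd.comp (hc.comp hT)).sub (continuous_snd.comp hc)) (fun x => by
      obtain ⟨m, n, h1⟩ := hint x
      exact ⟨n, by rw [h1]; ring⟩)
  refine ⟨(m, n), fun x => ?_⟩
  have h1 := hg1 x
  have h2 := hg2 x
  simp only [hmn] at h1 h2
  apply Prod.ext
  · rw [Prod.fst_add]
    show (h (T x)).1 = (h x).1 + m
    linarith
  · rw [Prod.snd_add]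
    show (h (T x)).2 = (h x).2 + n
    linarith

end MPe5ca60
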