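import Pool.Agent.Lib.MP_e5ca60_gt.Defs

/-!
# MP_e5ca60_gt, module Log

Continuous logarithms.
-/

namespace MPe5ca60

open scoped ContDiff Real
open Set

/-- A continuous function with `exp ∘ g = 1` on a preconnected space is constant. -/
theorem const_of_exp {X : Type*} [TopologicalSpace X] [PreconnectedSpace X] {g : X → ℂ}
    (hg : Continuous g) (h : ∀ x, Complex.exp (g x) = 1) (x y : X) : g x = g y := by
  have hn : ∀ z, ∃ n : ℤ, g z = n * (2 * π * Complex.I) := fun z => Complex.exp_eq_one_iff.1 (h z)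
  choose n hn using hn
  have him : ∀ z, (g z).im / (2 * π) = n z := by
    intro z
    rw [hn z]
    have h2 : ((n z : ℂ) * (2 * π * Complex.I)).im = n z * (2 * π) := by
      simp
    rw [h2, mul_div_assoc, div_self (by positivity), mul_one]
  have hcont : Continuous fun z => (g z).im / (2 * π) := by fun_prop
  -- the values `n z` are constant
  have key : ∀ a b : X, n a < n b → False := by
    intro a b hab
    have h1 : ((n a : ℝ) + 1 / 2) ∈ range fun z => (g z).im / (2 * π) := by
      refine mem_range_of_exists_le_of_exists_ge hcont ⟨a, ?_⟩ ⟨b, ?_⟩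
      · rw [him a]; linarith
      · rw [him b]
        have : (n a : ℝ) + 1 ≤ n b := by exact_mod_cast hab
        linarith
    obtain ⟨z, hz⟩ := h1
    simp only [him z] at hz
    have h3 : (2 * n z : ℝ) = 2 * n a + 1 := by linarith
    have h4 : 2 * n z = 2 * n a + 1 := by exact_mod_cast h3
    omega
  have hxy : n x = n y := by
    rcases lt_trichotomy (n x) (n y) with h1 | h1 | h1
    · exact (key x y h1).elim
    · exact h1
    · exact (key y x h1).elim
  rw [hn x, hn y, hxy]

private theorem exists_log_aux {E : Type} [NormedAddCommGroup E] [NormedSpace ℝ E] {f : E → ℂ}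
    (hf : Continuous f) (h0 : ∀ x, f x ≠ 0) :
    ∃ l : E → ℂ, Continuous l ∧ ∀ x, Complex.exp (l x) = f x := by
  have h1 : ContractibleSpace (univ : Set E) := convex_univ.contractibleSpace univ_nonempty
  have h2 : IsSimplyConnected (univ : Set E) := by
    unfold IsSimplyConnected
    infer_instance
  obtain ⟨l, hl, he⟩ := Complex.exists_continuousOn_eqOn_exp_comp h2 isOpen_univ hf.continuousOn
    (by rintro ⟨x, -, hx⟩; exact h0 x hx)
  exact ⟨l, continuousOn_univ.1 hl, fun x => he (mem_univ x)⟩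

/-- Continuous logarithms on `ℝ × ℝ`. -/
theorem exists_log {f : ℝ × ℝ → ℂ} (hf : Continuous f) (h0 : ∀ x, f x ≠ 0) :
    ∃ l : ℝ × ℝ → ℂ, Continuous l ∧ ∀ x, Complex.exp (l x) = f x :=
  exists_log_aux hf h0

/-- Same for `ℝ × (ℝ × ℝ)`. -/
theorem exists_log3 {f : ℝ × (ℝ × ℝ) → ℂ} (hf : Continuous f) (h0 : ∀ x, f x ≠ 0) :
    ∃ l : ℝ × (ℝ × ℝ) → ℂ, Continuous l ∧ ∀ x, Complex.exp (l x) = f x :=
  exists_log_aux hf h0

end MPe5ca60
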