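import Pool.Agent.Lib.MP_e5ca60_gt.Polar
import Pool.Agent.Lib.MP_e5ca60_gt.Lin

/-!
# MP_e5ca60_gt, module Std

The standard torus `L_{1,1}` (uses Polar, Lin).
-/

namespace MPe5ca60

open scoped ContDiff Real
open Set

/-- the standard parametrisation of `L_{1,1}` -/
noncomputable def e0 (x : ℝ × ℝ) : ℂ × ℂ := (pol 1 x.1, pol 1 x.2)

private theorem std_smooth : ContDiff ℝ ∞ e0 :=
  (pol_contDiff contDiff_const contDiff_fst (fun _ => one_pos)).prodMk
    (pol_contDiff contDiff_const contDiff_snd (fun _ => one_pos))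

private theorem std_fderiv (x v : ℝ × ℝ) : fderiv ℝ e0 x v =
    (pol 1 x.1 * (((0 : ℝ) / (2 * 1) : ℝ) + 2 * π * (v.1 : ℝ) * Complex.I),
      pol 1 x.2 * (((0 : ℝ) / (2 * 1) : ℝ) + 2 * π * (v.2 : ℝ) * Complex.I)) := by
  have h1 : DifferentiableAt ℝ (fun x : ℝ × ℝ => pol 1 x.1) x :=
    ((pol_contDiff contDiff_const contDiff_fst (fun _ => one_pos)).differentiable (by simp)) x
  have h2 : DifferentiableAt ℝ (fun x : ℝ × ℝ => pol 1 x.2) x :=
    ((pol_contDiff contDiff_const contDiff_snd (fun _ => one_pos)).differentiable (by simp)) x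
  have h3 : fderiv ℝ e0 x = (fderiv ℝ (fun x : ℝ × ℝ => pol 1 x.1) x).prod
      (fderiv ℝ (fun x : ℝ × ℝ => pol 1 x.2) x) := h1.fderiv_prodMk h2
  rw [h3]
  have h4 := pol_fderiv (R := fun _ => 1) (Y := Prod.fst) (x := x) (v := v)
    (differentiableAt_const 1) differentiableAt_fst one_pos
  have h5 := pol_fderiv (R := fun _ => 1) (Y := Prod.snd) (x := x) (v := v)
    (differentiableAt_const 1) differentiableAt_snd one_pos
  have e1 : fderiv ℝ (fun _ : ℝ × ℝ => (1 : ℝ)) x v = 0 := by simp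
  have e2 : fderiv ℝ (Prod.fst : ℝ × ℝ → ℝ) x v = v.1 := by
    rw [fderiv_fst]; rfl
  have e3 : fderiv ℝ (Prod.snd : ℝ × ℝ → ℝ) x v = v.2 := by
    rw [fderiv_snd]; rfl
  rw [e1, e2] at h4
  rw [e1, e3] at h5
  rw [ContinuousLinearMap.prod_apply, h4, h5]

private theorem std_pol_ne (Y : ℝ) : pol 1 Y ≠ 0 := by
  intro h
  have := pol_norm (zero_le_one (α := ℝ)) Y
  rw [h] at this
  simp at this

/-- PROOF. By `pol_fderiv`, `fderiv e0 x v = (2πi v.1 z₁, 2πi v.2 z₂)`; `om = 0` by `om_pol` with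
`a = c = 0`. -/
theorem e0_param : IsLagTorusParam e0 where
  smooth := std_smooth
  per1 := by
    intro x
    have := pol_add_int 1 x.1 1
    simp only [Int.cast_one] at this
    simp [e0, this]
  per2 := by
    intro x
    have := pol_add_int 1 x.2 1
    simp only [Int.cast_one] at this
    simp [e0, this]
  inj := by
    intro x y h
    have h1 : pol 1 x.1 = pol 1 y.1 := congrArg Prod.fst h
    have h2 : pol 1 x.2 = pol 1 y.2 := congrArg Prod.snd h
    obtain ⟨_, m, hm⟩ := pol_inj one_pos one_pos h1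
    obtain ⟨_, n, hn⟩ := pol_inj one_pos one_pos h2
    exact ⟨m, n, Prod.ext hm hn⟩
  imm := by
    intro x v w h
    rw [std_fderiv, std_fderiv] at h
    have h1 := congrArg Prod.fst h
    have h2 := congrArg Prod.snd h
    simp only at h1 h2
    have hpi : (π : ℂ) ≠ 0 := by exact_mod_cast Real.pi_ne_zero
    have k : ∀ a b : ℝ, ∀ z : ℂ, z ≠ 0 →
        z * (((0 : ℝ) / (2 * 1) : ℝ) + 2 * π * (a : ℝ) * Complex.I)
          = z * (((0 : ℝ) / (2 * 1) : ℝ) + 2 * π * (b : ℝ) * Complex.I) → a = b := by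
      intro a b z hz hab
      have h3 := mul_left_cancel₀ hz hab
      have h4 := add_left_cancel h3
      have h5 := mul_right_cancel₀ Complex.I_ne_zero h4
      have h6 := mul_left_cancel₀ (mul_ne_zero two_ne_zero hpi) h5
      exact_mod_cast h6
    exact Prod.ext (k _ _ _ (std_pol_ne _) h1) (k _ _ _ (std_pol_ne _) h2)
  lag := by
    intro x v w
    rw [std_fderiv, std_fderiv]
    unfold om
    have h1 := om_pol (R := 1) (Y := x.1) one_pos 0 v.1 0 w.1
    have h2 := om_pol (R := 1) (Y := x.2) one_pos 0 v.2 0 w.2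
    simp only at h1 h2
    simp only
    rw [h1, h2]
    ring

theorem e0_range : range e0 = prodTorus 1 1 := by
  ext z
  constructor
  · rintro ⟨x, rfl⟩
    exact ⟨pol_norm zero_le_one _, pol_norm zero_le_one _⟩
  · rintro ⟨h1, h2⟩
    obtain ⟨y1, hy1⟩ := exists_pol one_pos h1
    obtain ⟨y2, hy2⟩ := exists_pol one_pos h2
    exact ⟨(y1, y2), (Prod.ext hy1 hy2).symm⟩

/-- PROOF. `F x = x.1 + x.2` (`lam_pol`). -/
theorem e0_area : HasArea e0 (1, 1) := by
  refine ⟨fun x => x.1 + x.2, differentiable_fst.add differentiable_snd, ?_, ?_, ?_⟩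
  · intro x v
    rw [std_fderiv]
    have h0 : fderiv ℝ (fun x : ℝ × ℝ => x.1 + x.2) x v = v.1 + v.2 := by
      have h := ((hasFDerivAt_fst (𝕜 := ℝ) (p := x) (E := ℝ) (F := ℝ)).add
        (hasFDerivAt_snd (𝕜 := ℝ) (p := x) (E := ℝ) (F := ℝ))).fderiv
      have h' : fderiv ℝ (fun x : ℝ × ℝ => x.1 + x.2) x =
        ContinuousLinearMap.fst ℝ ℝ ℝ + ContinuousLinearMap.snd ℝ ℝ ℝ := h
      rw [h']
      rfl
    rw [h0]
    have h1 := lam_pol (R := 1) (Y := x.1) one_pos 0 v.1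
    have h2 := lam_pol (R := 1) (Y := x.2) one_pos 0 v.2
    simp only at h1 h2
    unfold lam om e0
    simp only
    rw [add_div, h1, h2]
    ring
  · intro x
    simp only
    ring
  · intro x
    simp only
    ring

/-- PROOF. `Dsq e0 x = ((2πi)² z₁ z₂)² = 16 π² exp (4πi (x.1 + x.2))`, with
`z_j = pol 1 x_j`, `z₁ z₂ = (1/π) exp (2πi (x.1 + x.2))`. So
`l x = Real.log (16 π²) + 4πi (x.1 + x.2)`. -/
theorem e0_index : HasIndex (Dsq e0) (2, 2) := by
  have hpi : (π : ℂ) ≠ 0 := by exact_mod_cast Real.pi_ne_zero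
  refine ⟨fun x => (Real.log (16 * π ^ 2) : ℝ) + 4 * π * Complex.I * ((x.1 : ℝ) + (x.2 : ℝ)),
    by fun_prop, ?_, ?_, ?_⟩
  · intro x
    have hlog : Complex.exp ((Real.log (16 * π ^ 2) : ℝ) : ℂ) = 16 * (π : ℂ) ^ 2 := by
      rw [← Complex.ofReal_exp, Real.exp_log (by positivity)]
      push_cast
      ring
    have hsq : (((Real.sqrt (1 / π) : ℝ) : ℂ)) ^ 2 = 1 / π := by
      rw [← Complex.ofReal_pow, Real.sq_sqrt (by positivity)]
      push_cast
      ring
    have hprod : pol 1 x.1 * pol 1 x.2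
        = 1 / π * Complex.exp (2 * π * Complex.I * ((x.1 : ℝ) + (x.2 : ℝ))) := by
      unfold pol
      rw [← hsq]
      have : Complex.exp (2 * π * Complex.I * ((x.1 : ℝ) + (x.2 : ℝ)))
          = Complex.exp (2 * π * (x.1 : ℝ) * Complex.I)
            * Complex.exp (2 * π * (x.2 : ℝ) * Complex.I) := by
        rw [← Complex.exp_add]
        congr 1
        ring
      rw [this]
      ring
    have hdt : dt (fderiv ℝ e0 x (1, 0)) (fderiv ℝ e0 x (0, 1))
        = -4 * π * Complex.exp (2 * π * Complex.I * ((x.1 : ℝ) + (x.2 : ℝ))) := by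
      rw [std_fderiv, std_fderiv]
      unfold dt
      simp only
      have : pol 1 x.1 * (((0 : ℝ) / (2 * 1) : ℝ) + 2 * π * ((1 : ℝ) : ℂ) * Complex.I)
            * (pol 1 x.2 * (((0 : ℝ) / (2 * 1) : ℝ) + 2 * π * ((1 : ℝ) : ℂ) * Complex.I))
          - pol 1 x.2 * (((0 : ℝ) / (2 * 1) : ℝ) + 2 * π * ((0 : ℝ) : ℂ) * Complex.I)
            * (pol 1 x.1 * (((0 : ℝ) / (2 * 1) : ℝ) + 2 * π * ((0 : ℝ) : ℂ) * Complex.I))
          = (pol 1 x.1 * pol 1 x.2) * (4 * π ^ 2 * Complex.I ^ 2) := by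
        push_cast
        ring
      rw [this, hprod, Complex.I_sq]
      field_simp
    unfold Dsq
    rw [hdt, Complex.exp_add, hlog]
    have : Complex.exp (4 * π * Complex.I * ((x.1 : ℝ) + (x.2 : ℝ)))
        = Complex.exp (2 * π * Complex.I * ((x.1 : ℝ) + (x.2 : ℝ))) ^ 2 := by
      rw [← Complex.exp_nat_mul]
      congr 1
      push_cast
      ring
    rw [this]
    ring
  · intro x
    push_cast
    ring
  · intro x
    push_cast
    ring

end MPe5ca60
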