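import Pool.Agent.Lib.MP_e5ca60_gt.Index
import Pool.Agent.Lib.MP_e5ca60_gt.Area
import Pool.Agent.Lib.MP_e5ca60_gt.Lift
import Pool.Agent.Lib.MP_e5ca60_gt.LiftD
import Pool.Agent.Lib.MP_e5ca60_gt.Lin
import Pool.Agent.Lib.MP_e5ca60_gt.HamA
import Pool.Agent.Lib.MP_e5ca60_gt.HamI
import Pool.Agent.Lib.MP_e5ca60_gt.Std

/-!
# MP_e5ca60_gt: soft invariants obstruct Hamiltonian isotopies
-/

namespace MPe5ca60

open scoped ContDiff Real
open Set

theorem Dsq_continuous {e : ℝ × ℝ → ℂ × ℂ} (he : ContDiff ℝ ∞ e) : Continuous (Dsq e) := by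
  have h1 : Continuous (fun x => fderiv ℝ e x) := he.continuous_fderiv (by simp)
  have h2 : ∀ v : ℝ × ℝ, Continuous (fun x => fderiv ℝ e x v) := fun v => by fun_prop
  have h3 := h2 (1, 0)
  have h4 := h2 (0, 1)
  unfold Dsq dt
  fun_prop

theorem fderiv_trans {e : ℝ × ℝ → ℂ × ℂ} (c : ℝ × ℝ) (h : ∀ x, e (x + c) = e x) (x : ℝ × ℝ) :
    fderiv ℝ e (x + c) = fderiv ℝ e x := by
  have h1 : (fun x => e (x + c)) = e := funext h
  rw [← fderiv_comp_add_right c, h1]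

theorem Dsq_per1 {e : ℝ × ℝ → ℂ × ℂ} (h : ∀ x : ℝ × ℝ, e (x.1 + 1, x.2) = e x) (x : ℝ × ℝ) :
    Dsq e (x.1 + 1, x.2) = Dsq e x := by
  have h1 : ∀ x : ℝ × ℝ, e (x + (1, 0)) = e x := fun x => by
    rw [← h x]; congr 1; ext <;> simp
  have h2 : ((x.1 + 1, x.2) : ℝ × ℝ) = x + (1, 0) := by ext <;> simp
  unfold Dsq
  rw [h2, fderiv_trans (1, 0) h1 x]

theorem Dsq_per2 {e : ℝ × ℝ → ℂ × ℂ} (h : ∀ x : ℝ × ℝ, e (x.1, x.2 + 1) = e x) (x : ℝ × ℝ) :
    Dsq e (x.1, x.2 + 1) = Dsq e x := by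
  have h1 : ∀ x : ℝ × ℝ, e (x + (0, 1)) = e x := fun x => by
    rw [← h x]; congr 1; ext <;> simp
  have h2 : ((x.1, x.2 + 1) : ℝ × ℝ) = x + (0, 1) := by ext <;> simp
  unfold Dsq
  rw [h2, fderiv_trans (0, 1) h1 x]

/-- Key lemma: a time-one map of a Hamiltonian flow which carries the torus of `f` onto the torus
of `e` yields an integer matrix relating the area and Maslov classes. -/
theorem soft_key {W : Set (ℂ × ℂ)} {φ : ℝ → ℂ × ℂ → ℂ × ℂ} (hφ : IsHamFlow W φ)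
    {e f : ℝ × ℝ → ℂ × ℂ} (he : IsLagTorusParam e) (hf : IsLagTorusParam f)
    {a b : ℝ × ℝ} (ha : HasArea e a) (hb : HasArea f b) {w w' : ℤ × ℤ}
    (hw : HasIndex (Dsq e) w) (hw' : HasIndex (Dsq f) w') (him : φ 1 '' range f = range e) :
    ∃ (h : ℝ × ℝ → ℝ × ℝ) (m n : ℤ × ℤ), Differentiable ℝ h ∧
      (∀ x, Function.Injective (fderiv ℝ h x)) ∧
      (∀ x : ℝ × ℝ, h (x.1 + 1, x.2) = h x + ((m.1 : ℝ), (m.2 : ℝ))) ∧
      (∀ x : ℝ × ℝ, h (x.1, x.2 + 1) = h x + ((n.1 : ℝ), (n.2 : ℝ))) ∧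
      (a.1 * m.1 + a.2 * m.2, a.1 * n.1 + a.2 * n.2) = b ∧
      (w.1 * m.1 + w.2 * m.2, w.1 * n.1 + w.2 * n.2) = w' := by
  obtain ⟨hinj, hidx⟩ := ham_index hφ hf hw'
  set e' : ℝ × ℝ → ℂ × ℂ := fun x => φ 1 (f x) with he'
  have hs1 : ContDiff ℝ ∞ (φ 1) := by
    have := hφ.smooth.comp (contDiff_const (c := (1 : ℝ)).prodMk contDiff_id)
    exact this
  have hs : ContDiff ℝ ∞ e' := hs1.comp hf.smooth
  have hr : ∀ x, e' x ∈ range e := fun x => by
    rw [← him]; exact ⟨f x, mem_range_self x, rfl⟩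
  have hp1 : ∀ x : ℝ × ℝ, e' (x.1 + 1, x.2) = e' x := fun x => by simp only [he', hf.per1]
  have hp2 : ∀ x : ℝ × ℝ, e' (x.1, x.2 + 1) = e' x := fun x => by simp only [he', hf.per2]
  obtain ⟨h, hc, hh⟩ := exists_lift he hs.continuous hr
  obtain ⟨m, hm⟩ := lift_period he (T := fun x => (x.1 + 1, x.2)) hc (by fun_prop)
    (fun x => by rw [hh, hh, hp1])
  obtain ⟨n, hn⟩ := lift_period he (T := fun x => (x.1, x.2 + 1)) hc (by fun_prop)
    (fun x => by rw [hh, hh, hp2])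
  have hd : ∀ x, DifferentiableAt ℝ h x ∧
      ∀ v, fderiv ℝ e (h x) (fderiv ℝ h x v) = fderiv ℝ e' x v := fun x =>
    lift_diff he hc hh (hs.differentiable (by simp) x)
  have hA : HasArea e' (a.1 * m.1 + a.2 * m.2, a.1 * n.1 + a.2 * n.2) :=
    area_comp ha (fun x => (hd x).1) hh (fun x v => (hd x).2 v) hm hn
  have hI : HasIndex (Dsq e') (w.1 * m.1 + w.2 * m.2, w.1 * n.1 + w.2 * n.2) := by
    choose r hr0 hr1 using fun x => Dsq_lift (hinj x) (fun v => (hd x).2 v)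
    exact index_comp hw hc hm hn (Dsq_continuous hs) (Dsq_per1 hp1) (Dsq_per2 hp2) hr0 hr1
  refine ⟨h, m, n, fun x => (hd x).1, ?_, hm, hn, ?_, index_unique hI hidx⟩
  · intro x v v' hv
    apply hinj x
    rw [← (hd x).2, ← (hd x).2, hv]
  · have c1 : ContDiff ℝ ∞ (fun s : ℝ => f (s, 0)) :=
      hf.smooth.comp (contDiff_id.prodMk contDiff_const)
    have c2 : ContDiff ℝ ∞ (fun s : ℝ => f (0, s)) :=
      hf.smooth.comp (contDiff_const.prodMk contDiff_id)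
    have k1 := ham_area hφ c1 (fun s => hf.per1 (s, 0))
    have k2 := ham_area hφ c2 (fun s => hf.per2 (0, s))
    have l1 := area_loop1 hs hA
    have l2 := area_loop2 hs hA
    have l3 := area_loop1 hf.smooth hb
    have l4 := area_loop2 hf.smooth hb
    simp only [he'] at l1 l2
    rw [k1, l3] at l1
    rw [k2, l4] at l2
    ext
    · exact l1.symm
    · exact l2.symm

theorem soft {W : Set (ℂ × ℂ)} {e : ℝ × ℝ → ℂ × ℂ} (he : IsLagTorusParam e)
    (ha : HasArea e (2, 1)) (hw : HasIndex (Dsq e) (2, 2)) :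
    ¬ HamIsotopic W (prodTorus 1 1) (range e) := by
  rintro ⟨φ, hφ, h | h⟩
  · rw [← e0_range] at h
    obtain ⟨h, m, n, hd, hi, hm, hn, h1, h2⟩ :=
      soft_key hφ he e0_param ha e0_area hw e0_index h
    simp only [Prod.mk.injEq] at h1 h2
    obtain ⟨h11, h12⟩ := h1
    obtain ⟨h21, h22⟩ := h2
    have a1 : 2 * m.1 + m.2 = 1 := by
      have : (2 : ℝ) * m.1 + m.2 = 1 := by linarith
      exact_mod_cast this
    have a2 : 2 * n.1 + n.2 = 1 := by
      have : (2 : ℝ) * n.1 + n.2 = 1 := by linarith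
      exact_mod_cast this
    have m0 : m.1 = 0 := by omega
    have n0 : n.1 = 0 := by omega
    refine no_zero_row hd hi (fun x => ?_) (fun x => ?_)
    · rw [hm x, m0]; simp
    · rw [hn x, n0]; simp
  · rw [← e0_range] at h
    obtain ⟨h, m, n, hd, hi, hm, hn, h1, h2⟩ :=
      soft_key hφ e0_param he e0_area ha e0_index hw h
    simp only [Prod.mk.injEq] at h1 h2
    obtain ⟨h11, h12⟩ := h1
    obtain ⟨h21, h22⟩ := h2
    have a1 : m.1 + m.2 = 2 := by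
      have : (m.1 : ℝ) + m.2 = 2 := by linarith
      exact_mod_cast this
    omega

end MPe5ca60
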