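import Pool.Agent.Lib.MP_e5ca60_gt.Defs

/-!
# MP_e5ca60_gt: the family of tori
-/

namespace MPe5ca60

open scoped ContDiff Real

/-- Data for the torus: a shear parameter `t`, periodic functions `G0` (with derivatives `G1`,
`G2`), `g0` (with derivatives `g1`, `g2`) and a closed curve `(v1, v2)` with velocity
`(al cos 2πx, be sin 2πx)`. `N` is a primitive of `v1 dv2`. -/
structure TorData where
  t : ℝ
  G0 : ℝ → ℝ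
  G1 : ℝ → ℝ
  G2 : ℝ → ℝ
  g0 : ℝ → ℝ
  g1 : ℝ → ℝ
  g2 : ℝ → ℝ
  v1 : ℝ → ℝ
  v2 : ℝ → ℝ
  al : ℝ → ℝ
  be : ℝ
  N : ℝ → ℝ
  sG0 : ContDiff ℝ ∞ G0
  sG1 : ContDiff ℝ ∞ G1
  sG2 : ContDiff ℝ ∞ G2
  sg0 : ContDiff ℝ ∞ g0
  sg1 : ContDiff ℝ ∞ g1
  sg2 : ContDiff ℝ ∞ g2
  sv1 : ContDiff ℝ ∞ v1
  sv2 : ContDiff ℝ ∞ v2
  cal : Continuous al
  dG0 : ∀ x, HasDerivAt G0 (G1 x) x
  dG1 : ∀ x, HasDerivAt G1 (G2 x) x
  dg0 : ∀ x, HasDerivAt g0 (g1 x) x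
  dg1 : ∀ x, HasDerivAt g1 (g2 x) x
  dv1 : ∀ x, HasDerivAt v1 (al x * Real.cos (2 * π * x)) x
  dv2 : ∀ x, HasDerivAt v2 (be * Real.sin (2 * π * x)) x
  dN : ∀ x, HasDerivAt N (v1 x * (be * Real.sin (2 * π * x))) x
  pG0 : ∀ x, G0 (x + 1) = G0 x
  pG1 : ∀ x, G1 (x + 1) = G1 x
  pG2 : ∀ x, G2 (x + 1) = G2 x
  pg0 : ∀ x, g0 (x + 1) = g0 x
  pg1 : ∀ x, g1 (x + 1) = g1 x
  pg2 : ∀ x, g2 (x + 1) = g2 x
  pv1 : ∀ x, v1 (x + 1) = v1 x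
  pv2 : ∀ x, v2 (x + 1) = v2 x
  pal : ∀ x, al (x + 1) = al x
  pN : ∀ x, N (x + 1) = N x + 1
  ht0 : 0 ≤ t
  ht1 : t ≤ 1
  hG1 : ∀ x, |G1 x| ≤ 1 / 10
  hg1 : ∀ x, |g1 x| ≤ 1 / 10
  hal : ∀ x, 0 < al x
  hbe : 0 < be
  hv1 : ∀ x, 1 < v1 x
  hv1' : ∀ x, v1 x < 3
  hv2 : ∀ x, 0 < v2 x
  hv2' : ∀ x, v2 x < 1
  hinj : ∀ x y, v1 x = v1 y → v2 x = v2 y → ∃ n : ℤ, y = x + n

namespace TorData

variable (D : TorData)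

/-- angle of the first coordinate -/
noncomputable def Y1 (x : ℝ × ℝ) : ℝ := x.1 + D.t * D.v2 x.2

/-- action of the second coordinate -/
noncomputable def R2 (x : ℝ × ℝ) : ℝ := D.v1 x.2 - D.t * D.G1 x.1

/-- action of the first coordinate -/
noncomputable def R1 (x : ℝ × ℝ) : ℝ := 2 + D.G1 x.1 - (D.R2 x - 1) * D.g1 (D.Y1 x)

/-- angle of the second coordinate -/
noncomputable def Y2 (x : ℝ × ℝ) : ℝ := D.v2 x.2 + D.g0 (D.Y1 x)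

/-- the parametrised torus -/
noncomputable def e (x : ℝ × ℝ) : ℂ × ℂ := (pol (D.R1 x) (D.Y1 x), pol (D.R2 x) (D.Y2 x))

/-- directional derivative of `Y1` -/
noncomputable def dY1 (x v : ℝ × ℝ) : ℝ := v.1 + D.t * (D.be * Real.sin (2 * π * x.2)) * v.2

/-- directional derivative of `R2` -/
noncomputable def dR2 (x v : ℝ × ℝ) : ℝ :=
  D.al x.2 * Real.cos (2 * π * x.2) * v.2 - D.t * D.G2 x.1 * v.1

/-- directional derivative of `R1` -/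
noncomputable def dR1 (x v : ℝ × ℝ) : ℝ :=
  D.G2 x.1 * v.1 - (D.dR2 x v * D.g1 (D.Y1 x) + (D.R2 x - 1) * (D.g2 (D.Y1 x) * D.dY1 x v))

/-- directional derivative of `Y2` -/
noncomputable def dY2 (x v : ℝ × ℝ) : ℝ :=
  D.be * Real.sin (2 * π * x.2) * v.2 + D.g1 (D.Y1 x) * D.dY1 x v

end TorData

end MPe5ca60
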