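import Pool.Agent.Lib.MP_e5ca60_gt.Tor
import Pool.Agent.Lib.MP_e5ca60_gt.Polar

/-!
# MP_e5ca60_gt, module TorD

Derivatives of the family of tori (uses Polar).
-/

namespace MPe5ca60

open scoped ContDiff Real
open Set

namespace TorData

theorem TorD_tG1 (D : TorData) (s : ℝ) : |D.t * D.G1 s| ≤ 1 / 10 := by
  rw [abs_mul, abs_of_nonneg D.ht0]
  have h1 := D.hG1 s
  have h2 := D.ht1
  have h3 := D.ht0
  have h4 := abs_nonneg (D.G1 s)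
  nlinarith

theorem TorD_R2_gt (D : TorData) (x : ℝ × ℝ) : 9 / 10 < D.R2 x := by
  unfold R2
  have h1 := (abs_le.1 (D.TorD_tG1 x.1)).2
  have h2 := D.hv1 x.2
  linarith

theorem TorD_R2_lt (D : TorData) (x : ℝ × ℝ) : D.R2 x < 31 / 10 := by
  unfold R2
  have h1 := (abs_le.1 (D.TorD_tG1 x.1)).1
  have h2 := D.hv1' x.2
  linarith

/-- PROOF. `|D.G1| ≤ 1/10`, `0 ≤ t ≤ 1`, `1 < v1 < 3`: `R2 > 9/10`, `|R2 - 1| ≤ 21/10`,
`|g1| ≤ 1/10`, so `R1 ≥ 2 - 1/10 - 21/100 > 0`. -/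
theorem R1_pos (D : TorData) (x : ℝ × ℝ) : 0 < D.R1 x := by
  unfold R1
  have h1 := abs_le.1 (D.hG1 x.1)
  have h2 := D.hg1 (D.Y1 x)
  have h3 := D.TorD_R2_gt x
  have h4 := D.TorD_R2_lt x
  have h5 : |(D.R2 x - 1) * D.g1 (D.Y1 x)| ≤ 21 / 10 * (1 / 10) := by
    rw [abs_mul]
    have h6 : |D.R2 x - 1| ≤ 21 / 10 := abs_le.2 ⟨by linarith, by linarith⟩
    exact mul_le_mul h6 h2 (abs_nonneg _) (by norm_num)
  have h7 := abs_le.1 h5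
  linarith

theorem R2_pos (D : TorData) (x : ℝ × ℝ) : 0 < D.R2 x := by
  have := D.TorD_R2_gt x
  linarith

theorem TorD_cY1 (D : TorData) : ContDiff ℝ ∞ D.Y1 := by
  have h1 := D.sv2.comp (contDiff_snd (E := ℝ) (F := ℝ))
  exact contDiff_fst.add (contDiff_const.mul h1)

theorem TorD_cR2 (D : TorData) : ContDiff ℝ ∞ D.R2 := by
  have h1 := D.sv1.comp (contDiff_snd (E := ℝ) (F := ℝ))
  have h2 := D.sG1.comp (contDiff_fst (E := ℝ) (F := ℝ))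
  exact h1.sub (contDiff_const.mul h2)

theorem TorD_cR1 (D : TorData) : ContDiff ℝ ∞ D.R1 := by
  have h2 := D.sG1.comp (contDiff_fst (E := ℝ) (F := ℝ))
  have h3 := D.sg1.comp D.TorD_cY1
  exact (contDiff_const.add h2).sub ((D.TorD_cR2.sub contDiff_const).mul h3)

theorem TorD_cY2 (D : TorData) : ContDiff ℝ ∞ D.Y2 := by
  have h1 := D.sv2.comp (contDiff_snd (E := ℝ) (F := ℝ))
  have h3 := D.sg0.comp D.TorD_cY1
  exact h1.add h3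

theorem smooth_e (D : TorData) : ContDiff ℝ ∞ D.e :=
  (pol_contDiff D.TorD_cR1 D.TorD_cY1 D.R1_pos).prodMk
    (pol_contDiff D.TorD_cR2 D.TorD_cY2 D.R2_pos)

theorem TorD_dY1 (D : TorData) (x : ℝ × ℝ) :
    HasFDerivAt D.Y1 (ContinuousLinearMap.fst ℝ ℝ ℝ +
      D.t • ((D.be * Real.sin (2 * π * x.2)) • ContinuousLinearMap.snd ℝ ℝ ℝ)) x := by
  have h1 : HasFDerivAt (fun y : ℝ × ℝ => D.v2 y.2)
      ((D.be * Real.sin (2 * π * x.2)) • ContinuousLinearMap.snd ℝ ℝ ℝ) x :=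
    (D.dv2 x.2).comp_hasFDerivAt x hasFDerivAt_snd
  exact hasFDerivAt_fst.add (h1.const_mul D.t)

theorem TorD_dR2 (D : TorData) (x : ℝ × ℝ) :
    HasFDerivAt D.R2 ((D.al x.2 * Real.cos (2 * π * x.2)) • ContinuousLinearMap.snd ℝ ℝ ℝ -
      D.t • (D.G2 x.1 • ContinuousLinearMap.fst ℝ ℝ ℝ)) x := by
  have h1 : HasFDerivAt (fun y : ℝ × ℝ => D.v1 y.2)
      ((D.al x.2 * Real.cos (2 * π * x.2)) • ContinuousLinearMap.snd ℝ ℝ ℝ) x :=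
    (D.dv1 x.2).comp_hasFDerivAt x hasFDerivAt_snd
  have h2 : HasFDerivAt (fun y : ℝ × ℝ => D.G1 y.1)
      (D.G2 x.1 • ContinuousLinearMap.fst ℝ ℝ ℝ) x :=
    (D.dG1 x.1).comp_hasFDerivAt x hasFDerivAt_fst
  exact h1.sub (h2.const_mul D.t)

theorem TorD_vY1 (D : TorData) (x v : ℝ × ℝ) : fderiv ℝ D.Y1 x v = D.dY1 x v := by
  rw [(D.TorD_dY1 x).fderiv]
  simp [dY1]
  ring

theorem TorD_vR2 (D : TorData) (x v : ℝ × ℝ) : fderiv ℝ D.R2 x v = D.dR2 x v := by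
  rw [(D.TorD_dR2 x).fderiv]
  simp [dR2]
  ring

theorem TorD_vY2 (D : TorData) (x v : ℝ × ℝ) : fderiv ℝ D.Y2 x v = D.dY2 x v := by
  have h1 : HasFDerivAt (fun y : ℝ × ℝ => D.v2 y.2)
      ((D.be * Real.sin (2 * π * x.2)) • ContinuousLinearMap.snd ℝ ℝ ℝ) x :=
    (D.dv2 x.2).comp_hasFDerivAt x hasFDerivAt_snd
  have h2 : HasFDerivAt (fun y : ℝ × ℝ => D.g0 (D.Y1 y)) (D.g1 (D.Y1 x) • fderiv ℝ D.Y1 x) x :=
    (D.dg0 (D.Y1 x)).comp_hasFDerivAt x (D.TorD_dY1 x).differentiableAt.hasFDerivAt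
  have h3 : HasFDerivAt D.Y2 ((D.be * Real.sin (2 * π * x.2)) • ContinuousLinearMap.snd ℝ ℝ ℝ +
    D.g1 (D.Y1 x) • fderiv ℝ D.Y1 x) x := h1.add h2
  rw [h3.fderiv]
  simp [dY2, TorD_vY1]

theorem TorD_vR1 (D : TorData) (x v : ℝ × ℝ) : fderiv ℝ D.R1 x v = D.dR1 x v := by
  have h1 : HasFDerivAt (fun y : ℝ × ℝ => D.G1 y.1)
      (D.G2 x.1 • ContinuousLinearMap.fst ℝ ℝ ℝ) x :=
    (D.dG1 x.1).comp_hasFDerivAt x hasFDerivAt_fst
  have h2 : HasFDerivAt (fun y : ℝ × ℝ => D.g1 (D.Y1 y)) (D.g2 (D.Y1 x) • fderiv ℝ D.Y1 x) x :=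
    (D.dg1 (D.Y1 x)).comp_hasFDerivAt x (D.TorD_dY1 x).differentiableAt.hasFDerivAt
  have h3 : HasFDerivAt (fun y : ℝ × ℝ => D.R2 y - 1) (fderiv ℝ D.R2 x) x :=
    (D.TorD_dR2 x).differentiableAt.hasFDerivAt.sub_const 1
  have h4 : HasFDerivAt D.R1 (D.G2 x.1 • ContinuousLinearMap.fst ℝ ℝ ℝ -
      ((D.R2 x - 1) • (D.g2 (D.Y1 x) • fderiv ℝ D.Y1 x) + D.g1 (D.Y1 x) • fderiv ℝ D.R2 x)) x :=
    (h1.const_add 2).sub (h3.mul h2)
  rw [h4.fderiv]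
  simp [dR1, TorD_vY1, TorD_vR2]
  ring

/-- PROOF. `pol_fderiv` and `fderiv ℝ D.R1 x v = D.dR1 x v` etc. (chain rule; the fields `dG1`,
`dg0`, `dg1`, `dv1`, `dv2` of `D` give the derivatives of the one-variable functions). -/
theorem fderiv_e (D : TorData) (x v : ℝ × ℝ) : fderiv ℝ D.e x v =
    (pol (D.R1 x) (D.Y1 x) * ((D.dR1 x v / (2 * D.R1 x) : ℝ) +
        2 * π * (D.dY1 x v : ℝ) * Complex.I),
     pol (D.R2 x) (D.Y2 x) * ((D.dR2 x v / (2 * D.R2 x) : ℝ) +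
        2 * π * (D.dY2 x v : ℝ) * Complex.I)) := by
  have d1 : DifferentiableAt ℝ (fun x => pol (D.R1 x) (D.Y1 x)) x :=
    (pol_contDiff D.TorD_cR1 D.TorD_cY1 D.R1_pos).differentiable (by simp) x
  have d2 : DifferentiableAt ℝ (fun x => pol (D.R2 x) (D.Y2 x)) x :=
    (pol_contDiff D.TorD_cR2 D.TorD_cY2 D.R2_pos).differentiable (by simp) x
  have h1 := pol_fderiv (R := D.R1) (Y := D.Y1) (x := x) (v := v)
    (D.TorD_cR1.differentiable (by simp) x) (D.TorD_cY1.differentiable (by simp) x) (D.R1_pos x)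
  have h2 := pol_fderiv (R := D.R2) (Y := D.Y2) (x := x) (v := v)
    (D.TorD_cR2.differentiable (by simp) x) (D.TorD_cY2.differentiable (by simp) x) (D.R2_pos x)
  rw [D.TorD_vR1, D.TorD_vY1] at h1
  rw [D.TorD_vR2, D.TorD_vY2] at h2
  have h3 : fderiv ℝ D.e x = (fderiv ℝ (fun x => pol (D.R1 x) (D.Y1 x)) x).prod
      (fderiv ℝ (fun x => pol (D.R2 x) (D.Y2 x)) x) :=
    (d1.hasFDerivAt.prodMk d2.hasFDerivAt).fderiv
  rw [h3, ContinuousLinearMap.prod_apply, h1, h2]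

end TorData

end MPe5ca60
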